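import Pool.Agent.H93.TN.OBi

/-! # OB: from the bands of the first block to all frequencies of the first block -/

set_option autoImplicit false

namespace Pool.Agent.H93.TN

open MeasureTheory Set FourierTransform
open Pool.Agent.H83.LS Pool.Agent.H93.AR Pool.Agent.H54.LS
open Pool.Agent.H83.AR hiding T_AM2 T_AC2
open Pool.Agent.H84.BR Pool.Agent.H84.B2
open scoped ENNReal NNReal

section
variable {a b : ℕ} {q ε lam Lam L ρ φ σ M A s' C₄ : ℝ} {N : ℕ} {K : ℝ≥0} {Y : Set (EE b)}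
  {m : ℝ → EE (a + b) → ℂ} {R : (EE (a + b) → ℂ) → EE (a + b) → ℂ}

/-- two opposite bands of the data -/
theorem fw_facts (ha : 1 ≤ a) (hb : 1 ≤ b) (hCB1 : T_CB1) (hCNC : T_CNC) (hJM : T_JM)
    (hK : KC a C₄) (hL0 : 0 < Lam) {r : ℝ} (hr0 : 0 < r) (hr1 : r ≤ 1 / 16) (hφ0 : 0 < φ)
    (hφ2 : φ ≤ 1 / 16) (hm : MF1 a b M lam Lam m) (hR : RP a b L R) {g : EE (a + b) → ℂ}
    (hg : BI A g) (w u : Sp a) :
    BI (2 * C₄ * A) (cb1 a b (MK (as2 a Lam φ (w : EE a))) g) ∧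
    ∀ (t : ℝ) (x : EE (a + b)), MM (ms2 a b Lam r φ (m t) (w : EE a) (u : EE a)) (R g) x =
      MM (ms1 a b Lam r (m t) (u : EE a)) (R (cb1 a b (MK (as2 a Lam φ (w : EE a))) g)) x := by
  have hA : 0 ≤ A := (norm_nonneg _).trans (hg.2.2 0)
  have hu : ‖(u : EE a)‖ = 1 := by simp
  have hw : ‖(w : EE a)‖ = 1 := by simp
  obtain ⟨s1, s2, s3⟩ := as2_facts hCNC hK hL0 hφ0 hφ2 (w : EE a) hw
  have hs := hK.sc Lam r u hL0 hr0 (by linarith) hu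
  refine ⟨?_, fun t x => ?_⟩
  · have h1 := (hCB1 a b (as2 a Lam φ (w : EE a)) g A (2 * C₄) ha hb s1 s2 hg).1
    exact ⟨h1.1, h1.2.1, fun x => (h1.2.2 x).trans (mul_le_mul_of_nonneg_right s3 hA)⟩
  · obtain ⟨m1, m2⟩ := m_int hm t
    obtain ⟨m3, m4⟩ := mul_mi (b := b) hJM hs m1 m2
    have h1 := ((hCB1 a b (as2 a Lam φ (w : EE a)) (R g) A (2 * C₄) ha hb s1 s2
      (hR.bi A g hg)).2.2.2.2 (ms1 a b Lam r (m t) (u : EE a)) m3 m4 x).1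
    rw [hR.cb A g _ s1 hg, h1]
    congr 1
    funext ξ
    unfold ms1 ms2
    ring

/-- the sum over all pairs of bands -/
theorem bsum2 {C₂ C₃ : ℝ≥0} (ha : 1 ≤ a) (hb : 1 ≤ b) (hq : 2 < q) (hCB1 : T_CB1)
    (hCNC : T_CNC) (hJM : T_JM) (hK : KC a C₄)
    (hort : ∀ (Lam r A : ℝ) (f : EE (a + b) → ℂ), 0 < Lam → 0 < r → r ≤ 1 / 8 → BI A f →
      ∫⁻ u : Sp a, ∫⁻ x, ‖cb1 a b (MK (sy a ch2 Lam r (u : EE a))) f x‖ₑ ^ 2 ∂volume ∂(sg a) ≤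
      C₂ * ENNReal.ofReal (r ^ (a - 1)) * ∫⁻ x, ‖f x‖ₑ ^ 2)
    (hws : ∀ (Lam φ A : ℝ) (f : EE (a + b) → ℂ), 0 < Lam → 0 < φ → φ ≤ 1 / 16 → BI A f →
      ∫⁻ w : Sp a, ∫⁻ x, ‖cb1 a b (MK (as2 a Lam φ (w : EE a))) f x‖ₑ ^ 2 ∂volume ∂(sg a) ≤
      C₃ * ENNReal.ofReal (φ ^ (a - 1)) * ∫⁻ x, ‖f x‖ₑ ^ 2)
    (hl : 1 ≤ lam) (hlL : Real.sqrt lam ≤ Lam) (hφ0 : 0 < φ) (hφ2 : φ ≤ 1 / 16)
    (hm : MF1 a b M lam Lam m) (hR : RP a b L R)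
    (hH : HB a b q Lam s' (dl lam Lam) K Y m R) {g : EE (a + b) → ℂ} (hg : BI A g) :
    ∫⁻ p : Sp a × Sp a, ∫⁻ t in Icc (1 : ℝ) 2, ∫⁻ x in {x : EE (a + b) |
        p1 a b x ∈ {y : EE a | |inner ℝ y (p.2 : EE a)| ≤ s'} ∧ p2 a b x ∈ Y},
        ‖MM (ms2 a b Lam (dl lam Lam) φ (m t) (p.1 : EE a) (p.2 : EE a)) (R g) x‖ₑ ^ q
          ∂volume ∂volume ∂((sg a).prod (sg a)) ≤
      K * ENNReal.ofReal ((C₄ * (2 * C₄ * A)) ^ (q - 2)) *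
        (C₂ * ENNReal.ofReal ((2 * dl lam Lam) ^ (a - 1)) *
          (C₃ * ENNReal.ofReal (φ ^ (a - 1)) * ∫⁻ x, ‖g x‖ₑ ^ 2)) := by
  obtain ⟨hL0, hr0, hr1⟩ := dl_facts hl hlL
  refine (lintegral_prod_le _).trans ?_
  have h1 : ∀ w : Sp a, ∫⁻ u : Sp a, ∫⁻ t in Icc (1 : ℝ) 2, ∫⁻ x in {x : EE (a + b) |
        p1 a b x ∈ {y : EE a | |inner ℝ y (u : EE a)| ≤ s'} ∧ p2 a b x ∈ Y},
        ‖MM (ms2 a b Lam (dl lam Lam) φ (m t) (w : EE a) (u : EE a)) (R g) x‖ₑ ^ q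
          ∂volume ∂volume ∂(sg a) ≤
      K * ENNReal.ofReal ((C₄ * (2 * C₄ * A)) ^ (q - 2)) *
        (C₂ * ENNReal.ofReal ((2 * dl lam Lam) ^ (a - 1)) *
          ∫⁻ x, ‖cb1 a b (MK (as2 a Lam φ (w : EE a))) g x‖ₑ ^ 2) := by
    intro w
    have h2 := fun u : Sp a => fw_facts ha hb hCB1 hCNC hJM hK hL0 hr0 hr1 hφ0 hφ2 hm hR hg w u
    have h3 : ∀ (u : Sp a) (t : ℝ) (x : EE (a + b)),
        MM (ms2 a b Lam (dl lam Lam) φ (m t) (w : EE a) (u : EE a)) (R g) x =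
        MM (ms1 a b Lam (dl lam Lam) (m t) (u : EE a))
          (R (cb1 a b (MK (as2 a Lam φ (w : EE a))) g)) x := fun u t x => (h2 u).2 t x
    simp only [h3]
    exact bsum ha hb hq hCB1 hJM hK hort hl hlL hm hR hH (h2 w).1
  refine (lintegral_mono h1).trans ?_
  rw [lintegral_const_mul' _ _ (ENNReal.mul_ne_top ENNReal.coe_ne_top ENNReal.ofReal_ne_top),
    lintegral_const_mul' _ _ (ENNReal.mul_ne_top ENNReal.coe_ne_top ENNReal.ofReal_ne_top)]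
  gcongr
  exact hws Lam φ A g hL0 hφ0 hφ2 hg

end

/-- localization -/
theorem caseII {a b : ℕ} {q ε M C₄ : ℝ} (ha2 : 2 ≤ a) (hb : 1 ≤ b) (hq : 2 < q) (hε : 0 < ε)
    (hM : 0 ≤ M) (hLC2 : T_LC2) (hORT : T_ORT) (hCB1 : T_CB1) (hCMT : T_CMT) (hRAD : T_RAD)
    (hCNC : T_CNC) (hSI : T_SI)
    (hAM1 : T_AM1) (hPLE : T_PLE) (hJM : T_JM) (hK : KC a C₄) (N : ℕ) :
    ∃ C : ℝ≥0, ∀ (lam Lam L ρ φ σ A : ℝ) (K : ℝ≥0) (Y : Set (EE b)) (m : ℝ → EE (a + b) → ℂ)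
    (R : (EE (a + b) → ℂ) → EE (a + b) → ℂ) (h : EE (a + b) → ℂ), 1 ≤ lam →
    Real.sqrt lam ≤ Lam → Lam ≤ 4 * lam → 1 ≤ L → 1 / Lam ≤ σ → 0 < ρ → ρ ≤ 4 →
    dl lam Lam ≤ φ → φ ≤ 1 / 16 → lam ^ ε * (L / (ρ * Lam)) ≤ φ →
    lam ^ ε / Real.sqrt (ρ * Lam) ≤ φ →
    MeasurableSet Y → MF1 a b M lam Lam m → RP a b L R →
    HB a b q Lam (2 * lam ^ ε * σ) (dl lam Lam) K Y m R → BI A h →
    ∫⁻ t in Icc (1 : ℝ) 2, ∫⁻ x in {x : EE (a + b) | p1 a b x ∈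
      {y : EE a | ρ ≤ ‖y‖ ∧ ‖y‖ ≤ σ} ∧ p2 a b x ∈ Y}, ‖MM (m t) (A1 a b L (R h)) x‖ₑ ^ q ≤
    C * (ENNReal.ofReal (FR a q lam Lam φ) * K + ENNReal.ofReal ((lam ^ N)⁻¹)) *
      ENNReal.ofReal (A ^ (q - 2)) * ∫⁻ x, ‖h x‖ₑ ^ 2 := by
  have ha : 1 ≤ a := by omega
  obtain ⟨C₁, hC₁⟩ := hLC2 a q ε (N + ⌈M * (q - 2)⌉₊) ha2 hq hε
  obtain ⟨C₂, hC₂⟩ := ort1 (b := b) hORT hJM ha
  obtain ⟨C₃, hC₃⟩ := wsum (b := b) hORT hCNC hSI hJM hK ha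
  refine ⟨C₁ * (1 * (C₂ * C₃) * 2 ^ (a - 1) *
    ((2 * C₄ ^ 2) ^ (q - 2)).toNNReal + (M ^ (q - 2)).toNNReal), ?_⟩
  intro lam Lam L ρ φ σ A K Y m R h hl hlL hL4 hL1 hσ hρ hρ4 hφ hφ2 hc5 hc6 hY hm hR hH hh
  obtain ⟨hL0, hr0, hr1⟩ := dl_facts hl hlL
  have hφ0 : 0 < φ := by linarith
  have hA : 0 ≤ A := (norm_nonneg _).trans (hh.2.2 0)
  have av := hAM1 a b L ha hL1
  have hRh := hR.bi A h hh
  have hG : BI A (A1 a b L (R h)) := avp_bi av A _ hRh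
  have hg : BI A (A1 a b L h) := avp_bi av A _ hh
  have hRg : R (A1 a b L h) = A1 a b L (R h) := hR.av A h hh
  have hkr : ((a - 1 : ℕ) : ℝ) = (a : ℝ) - 1 := by
    rw [Nat.cast_sub ha, Nat.cast_one]
  have h1 := combII ha hb hC₁ hCB1 hCMT hRAD hCNC hJM hK hl hlL hL4 hL1 hσ hρ hρ4 hφ hφ2 hc5 hc6
    hY hm hRh hG
  have h2 := bsum2 ha hb hq hCB1 hCNC hJM hK hC₂ hC₃ hl hlL hφ0 hφ2 hm hR hH hg
  rw [hRg] at h2
  have h3 := energy hPLE hAM1 ha hL1 hm hR hh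
  have h4 : ∫⁻ x, ‖A1 a b L h x‖ₑ ^ 2 ≤ ∫⁻ x, ‖h x‖ₑ ^ 2 := avp_l2 av h hh.1
  have htail := tail (N := N) hl hM hA (q := q)
  have hpow := pow_r (k := a - 1) (q := q) hr0 hφ0
  rw [hkr] at hpow
  have hC4 := hK.nn
  have h5 : ENNReal.ofReal (φ ^ (((a : ℝ) - 1) * (q - 3)) *
      dl lam Lam ^ (-(((a : ℝ) - 1) * (q - 1)))) *
      ENNReal.ofReal ((2 * dl lam Lam) ^ (a - 1) * φ ^ (a - 1)) =
      2 ^ (a - 1) * ENNReal.ofReal (FR a q lam Lam φ) := by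
    rw [← ENNReal.ofReal_mul (by positivity), hpow, ENNReal.ofReal_mul (by positivity),
      ENNReal.ofReal_pow (by norm_num), ENNReal.ofReal_ofNat]
    rfl
  have h6 : ENNReal.ofReal ((C₄ * (2 * C₄ * A)) ^ (q - 2)) =
      ENNReal.ofReal ((2 * C₄ ^ 2) ^ (q - 2)) * ENNReal.ofReal (A ^ (q - 2)) := by
    rw [← ENNReal.ofReal_mul (by positivity), ← Real.mul_rpow (by positivity) hA]
    congr 2
    ring
  have h7 : ENNReal.ofReal ((lam ^ (N + ⌈M * (q - 2)⌉₊))⁻¹ * (M * lam ^ M * A) ^ (q - 2)) ≤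
      ENNReal.ofReal (M ^ (q - 2)) * (ENNReal.ofReal ((lam ^ N)⁻¹) *
        ENNReal.ofReal (A ^ (q - 2))) := by
    rw [← ENNReal.ofReal_mul (by positivity), ← ENNReal.ofReal_mul (by positivity)]
    exact ENNReal.ofReal_le_ofReal htail
  rw [h6] at h2
  have h8 := arith (C₁ : ℝ≥0∞) (ENNReal.ofReal (φ ^ (((a : ℝ) - 1) * (q - 3)) *
      dl lam Lam ^ (-(((a : ℝ) - 1) * (q - 1)))))
    (ENNReal.ofReal ((2 * dl lam Lam) ^ (a - 1) * φ ^ (a - 1))) 1 K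
    (ENNReal.ofReal ((2 * C₄ ^ 2) ^ (q - 2))) (ENNReal.ofReal (A ^ (q - 2))) (C₂ * C₃)
    (∫⁻ x, ‖h x‖ₑ ^ 2)
    (ENNReal.ofReal (M ^ (q - 2))) (ENNReal.ofReal ((lam ^ N)⁻¹))
    (ENNReal.ofReal (FR a q lam Lam φ)) (2 ^ (a - 1)) h5
  refine (h1.trans ?_).trans (h8.trans (le_of_eq ?_))
  · refine mul_le_mul' le_rfl (add_le_add (mul_le_mul' le_rfl ?_) (mul_le_mul' h7 h3))
    rw [one_mul]
    refine (h2.trans (mul_le_mul' le_rfl (mul_le_mul' le_rfl (mul_le_mul' le_rfl h4)))).trans ?_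
    rw [ENNReal.ofReal_mul (by positivity)]
    exact le_of_eq (by ring)
  · push_cast
    rfl

/-- no data -/
theorem zero_case {a b : ℕ} {L A lam Lam M q : ℝ} (ha : 1 ≤ a) (hL1 : 1 ≤ L) (hq : 2 < q)
    (hAM1 : T_AM1) (hPLE : T_PLE) {m : ℝ → EE (a + b) → ℂ}
    {R : (EE (a + b) → ℂ) → EE (a + b) → ℂ} (hm : MF1 a b M lam Lam m) (hR : RP a b L R)
    {h : EE (a + b) → ℂ} (hh : BI A h) (h0 : ∫⁻ x, ‖h x‖ₑ ^ 2 = 0) (S : Set (EE (a + b))) :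
    ∫⁻ t in Icc (1 : ℝ) 2, ∫⁻ x in S, ‖MM (m t) (A1 a b L (R h)) x‖ₑ ^ q = 0 := by
  have av := hAM1 a b L ha hL1
  have hRh := hR.bi A h hh
  have hG : BI A (A1 a b L (R h)) := avp_bi av A _ hRh
  have h1 : ∫⁻ x, ‖A1 a b L (R h) x‖ₑ ^ 2 = 0 :=
    le_antisymm (((avp_l2 av _ hRh.1).trans (hR.l2 A h hh)).trans (le_of_eq h0)) zero_le
  rw [lintegral_eq_zero_iff (hG.1.enorm.pow_const 2)] at h1
  have h2 : ∀ᵐ x, A1 a b L (R h) x = 0 := by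
    filter_upwards [h1] with x hx
    simpa using hx
  have h3 : ∀ (t : ℝ) (x : EE (a + b)), MM (m t) (A1 a b L (R h)) x = 0 := by
    intro t x
    obtain ⟨m1, m2⟩ := m_int hm t
    rw [(hPLE (a + b) (m t) _ m1 (hm.2.1 t) m2 hG.2.1 ⟨A, hG.2.2⟩ hG.1).1 x]
    rw [← integral_zero (EE (a + b)) ℂ]
    refine integral_congr_ae ?_
    filter_upwards [h2] with y hy
    rw [hy, mul_zero]
  have h4 : (0 : ℝ≥0∞) ^ q = 0 := ENNReal.zero_rpow_of_pos (by linarith)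
  simp [h3, h4]

theorem FR_pos {n : ℕ} {q lam Lam φ : ℝ} (hr : 0 < dl lam Lam) (hφ : 0 < φ) :
    0 < FR n q lam Lam φ := by
  unfold FR
  positivity

theorem top_case {C : ℝ≥0} {F l A q : ℝ} {I : ℝ≥0∞} (hC : 1 ≤ C) (hF : 0 < F) (hA : 0 < A)
    (hI : I ≠ 0) (X : ℝ≥0∞) :
    X ≤ C * (ENNReal.ofReal F * ⊤ + ENNReal.ofReal l) * ENNReal.ofReal (A ^ (q - 2)) * I := by
  have h1 : ENNReal.ofReal F ≠ 0 := (ENNReal.ofReal_pos.mpr hF).ne'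
  have h2 : ENNReal.ofReal (A ^ (q - 2)) ≠ 0 :=
    (ENNReal.ofReal_pos.mpr (Real.rpow_pos_of_pos hA _)).ne'
  have h3 : (C : ℝ≥0∞) ≠ 0 := by
    intro h
    rw [ENNReal.coe_eq_zero] at h
    rw [h] at hC
    exact absurd hC (by norm_num)
  rw [ENNReal.mul_top h1, top_add, ENNReal.mul_top h3, ENNReal.top_mul h2,
    ENNReal.top_mul hI]
  exact le_top

theorem pf_ob (hFLL : T_FLL) (hLC2 : T_LC2) (hORT : T_ORT) (hCB1 : T_CB1) (hCMT : T_CMT)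
    (hSEL : T_SEL) (hRAD : T_RAD) (hCNC : T_CNC) (hSI : T_SI) (hAM1 : T_AM1) (hAM2 : T_AM2)
    (hAC2 : T_AC2) (hPLE : T_PLE) (hJM : T_JM) : T_OB := by
  intro a b q ε M N ha hb hq hε hM
  obtain ⟨C₄, hK⟩ := KC_of ha hSEL hCNC
  obtain ⟨C₁, hC₁⟩ := caseI ha hb hq hε hM hFLL hORT hCB1 hRAD hAM1 hPLE hJM hK N
  have hset : ∀ (ρ σ : ℝ) (Y : Set (EE b)), {x : EE (a + b) | ρ ≤ ‖p1 a b x‖ ∧
      ‖p1 a b x‖ ≤ σ ∧ p2 a b x ∈ Y} =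
      {x : EE (a + b) | p1 a b x ∈ {y : EE a | ρ ≤ ‖y‖ ∧ ‖y‖ ≤ σ} ∧ p2 a b x ∈ Y} := by
    intro ρ σ Y
    ext x
    simp only [mem_ofPred_eq, and_assoc]
  by_cases ha2 : 2 ≤ a
  · obtain ⟨C₂, hC₂⟩ := caseII ha2 hb hq hε hM hLC2 hORT hCB1 hCMT hRAD hCNC hSI hAM1 hPLE hJM
      hK N
    refine ⟨C₁ + C₂ + 1, ?_⟩
    intro lam Lam L ρ φ σ A K Y m R h hl hlL hL4 hL1 hσ hRG hY hm hR hH hh
    have hRP := RP_of ha hb hL1 hAM2 hAC2 hCMT R hR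
    obtain ⟨hL0, hr0, hr1⟩ := dl_facts hl hlL
    have hA : 0 ≤ A := (norm_nonneg _).trans (hh.2.2 0)
    rw [hset]
    by_cases hI : ∫⁻ x, ‖h x‖ₑ ^ 2 = 0
    · rw [zero_case ha hL1 hq hAM1 hPLE hm hRP hh hI]
      exact zero_le
    by_cases hKt : K = ⊤
    · have hA0 : 0 < A := by
        rcases hA.lt_or_eq with h1 | h1
        · exact h1
        · exfalso
          apply hI
          have h2 : ∀ x, h x = 0 := fun x => norm_le_zero_iff.mp (by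
            rw [h1]
            exact hh.2.2 x)
          simp [h2]
      have hφ0 : 0 < φ := by
        rcases hRG with ⟨_, rfl⟩ | ⟨_, _, _, k3, _⟩
        · exact one_pos
        · linarith
      rw [hKt]
      exact top_case (le_add_self) (FR_pos hr0 hφ0) hA0 hI _
    lift K to ℝ≥0 using hKt
    rcases hRG with ⟨rfl, rfl⟩ | ⟨_, k1, k2, k3, k4, k5, k6⟩
    · refine (hC₁ lam Lam L σ A K Y m R h hl hlL hL4 hL1 hσ hY hm hRP hH hh).trans ?_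
      gcongr
      rw [add_assoc]
      exact le_self_add
    · refine (hC₂ lam Lam L ρ φ σ A K Y m R h hl hlL hL4 hL1 hσ k1 k2 k3 k4 k5 k6 hY hm hRP hH
        hh).trans ?_
      gcongr
      exact le_add_self.trans le_self_add
  · refine ⟨C₁ + 1, ?_⟩
    intro lam Lam L ρ φ σ A K Y m R h hl hlL hL4 hL1 hσ hRG hY hm hR hH hh
    have hRP := RP_of ha hb hL1 hAM2 hAC2 hCMT R hR
    obtain ⟨hL0, hr0, hr1⟩ := dl_facts hl hlL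
    have hA : 0 ≤ A := (norm_nonneg _).trans (hh.2.2 0)
    rw [hset]
    by_cases hI : ∫⁻ x, ‖h x‖ₑ ^ 2 = 0
    · rw [zero_case ha hL1 hq hAM1 hPLE hm hRP hh hI]
      exact zero_le
    by_cases hKt : K = ⊤
    · have hA0 : 0 < A := by
        rcases hA.lt_or_eq with h1 | h1
        · exact h1
        · exfalso
          apply hI
          have h2 : ∀ x, h x = 0 := fun x => norm_le_zero_iff.mp (by
            rw [h1]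
            exact hh.2.2 x)
          simp [h2]
      have hφ0 : 0 < φ := by
        rcases hRG with ⟨_, rfl⟩ | ⟨_, _, _, k3, _⟩
        · exact one_pos
        · linarith
      rw [hKt]
      exact top_case (le_add_self) (FR_pos hr0 hφ0) hA0 hI _
    lift K to ℝ≥0 using hKt
    rcases hRG with ⟨rfl, rfl⟩ | ⟨k0, _⟩
    · refine (hC₁ lam Lam L σ A K Y m R h hl hlL hL4 hL1 hσ hY hm hRP hH hh).trans ?_
      gcongr
      exact le_self_add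
    · exact absurd k0 ha2

end Pool.Agent.H93.TN
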