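import Pool.Agent.H84.BR.Main2
import Pool.Agent.H14.TN.LH
import Pool.Agent.H14.TN.PHL
import Pool.Agent.H14.TN.RAD
import Pool.Agent.H16.TN.WSL
import Pool.Agent.H18.TN.BKN
import Pool.Agent.H18.TN.JN
import Pool.Agent.H3.TN.CNC
import Pool.Agent.H3.TN.JT
import Pool.Agent.H33.TN.FLL
import Pool.Agent.H33.TN.OBM
import Pool.Agent.H4.TN.CB1
import Pool.Agent.H4.TN.CMT
import Pool.Agent.H4.TN.PLP
import Pool.Agent.H4.TN.PLS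
import Pool.Agent.H42.TN.HL
import Pool.Agent.H47.TN.RT
import Pool.Agent.H47.TN.SEL
import Pool.Agent.H48.TN.ORT
import Pool.Agent.H48.TN.SID
import Pool.Agent.H50.TN.SEC
import Pool.Agent.H54.TN.CB2
import Pool.Agent.H54.TN.LC2
import Pool.Agent.H54.TN.PHH
import Pool.Agent.H54.TN.SG3
import Pool.Agent.H56.TN.BL3
import Pool.Agent.H56.TN.HG3
import Pool.Agent.H58.TN.FN3
import Pool.Agent.H58.TN.FNC
import Pool.Agent.H58.TN.PLH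
import Pool.Agent.H66.TN.INT
import Pool.Agent.H66.TN.MDL
import Pool.Agent.H71.TN.MKR
import Pool.Agent.H74.TN.RGN
import Pool.Agent.H81.TN.FLT
import Pool.Agent.H85.TN.FL2
import Pool.Agent.H85.TN.SP2
import Pool.Agent.H86.TN.ARI
import Pool.Agent.H86.TN.HH
import Pool.Agent.H86.TN.MFX
import Pool.Agent.H89.TN.BNM
import Pool.Agent.H93.TN.OB
import Pool.Agent.H96.TN.BND
import Pool.Agent.H96.TN.BNS
import Pool.Agent.H99.TN.TBL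

/-!
Local smoothing with a smaller fraction of an angular derivative (MP_ee74d2_an): assembly.
-/

set_option autoImplicit false

namespace Pool.Agent.H93.TN.Fin

theorem nINT : Pool.Agent.H93.TN.T_INT :=
  Pool.Agent.H66.TN.pf_int Pool.Agent.H83.LS.Chain.marc
theorem nCNC : Pool.Agent.H93.TN.T_CNC :=
  Pool.Agent.H3.TN.pf_cnc Pool.Agent.H83.LS.Chain.ple
theorem nSEC : Pool.Agent.H93.TN.T_SEC :=
  Pool.Agent.H50.TN.pf_sec Pool.Agent.H83.LS.Chain.kbv Pool.Agent.H83.LS.Chain.spl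
theorem nSEL : Pool.Agent.H93.TN.T_SEL :=
  Pool.Agent.H47.TN.pf_sel nSEC Pool.Agent.H83.LS.Chain.spl
theorem nMDL : Pool.Agent.H93.TN.T_MDL :=
  Pool.Agent.H66.TN.pf_mdl Pool.Agent.H84.BR.Two.tSBL Pool.Agent.H84.BR.Two.tSI
theorem nORT : Pool.Agent.H93.TN.T_ORT :=
  Pool.Agent.H48.TN.pf_ort nCNC nSEL nMDL Pool.Agent.H83.LS.Chain.ple
theorem nFL2 : Pool.Agent.H93.TN.T_FL2 :=
  Pool.Agent.H85.TN.pf_fl2 nORT nSEL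
theorem nFLT : Pool.Agent.H93.TN.T_FLT :=
  Pool.Agent.H81.TN.pf_flt nINT nFL2 nSEL
theorem nRAD : Pool.Agent.H93.TN.T_RAD :=
  Pool.Agent.H14.TN.pf_rad
theorem nSID : Pool.Agent.H93.TN.T_SID :=
  Pool.Agent.H48.TN.pf_sid nCNC nSEL nRAD nMDL
theorem nFLL : Pool.Agent.H93.TN.T_FLL :=
  Pool.Agent.H33.TN.pf_fll nFLT nFL2 nSEL nCNC nMDL nSID nORT
theorem nJN : Pool.Agent.H93.TN.T_JN :=
  Pool.Agent.H18.TN.JN.pf_jn Pool.Agent.H84.BR.Two.tDK Pool.Agent.H84.BR.Two.tCP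
    Pool.Agent.H84.BR.Two.tGN Pool.Agent.H84.BR.Two.tSI Pool.Agent.H84.BR.Two.tSBL
theorem nJT : Pool.Agent.H93.TN.T_JT :=
  Pool.Agent.H3.TN.pf_jt nJN Pool.Agent.H84.BR.Two.tZA
theorem nBKN : Pool.Agent.H93.TN.T_BKN :=
  Pool.Agent.H18.TN.BKN.pf_bkn nJT Pool.Agent.H84.BR.Two.tZC Pool.Agent.H84.BR.Two.tZB
theorem nTBL : Pool.Agent.H93.TN.T_TBL :=
  Pool.Agent.H99.TN.pf_tbl nBKN nSEL nRAD Pool.Agent.H84.BR.Two.tZB Pool.Agent.H84.BR.Two.tZN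
theorem nLC2 : Pool.Agent.H93.TN.T_LC2 :=
  Pool.Agent.H54.TN.pf_lc2 nFLL nTBL nSEL nCNC nRAD nMDL nSID Pool.Agent.H84.BR.Two.tZB
    Pool.Agent.H84.BR.Two.tZN
theorem nCB1 : Pool.Agent.H93.TN.T_CB1 :=
  Pool.Agent.H4.TN.pf_cb1 nCNC Pool.Agent.H84.BR.Two.tJM Pool.Agent.H83.LS.Chain.ple
theorem nCMT : Pool.Agent.H93.TN.T_CMT :=
  Pool.Agent.H4.TN.pf_cmt nCNC Pool.Agent.H84.BR.Two.tAM1 Pool.Agent.H84.BR.Two.tZB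
    Pool.Agent.H84.BR.Two.tZN Pool.Agent.H84.BR.Two.tJM Pool.Agent.H83.LS.Chain.ple
    Pool.Agent.H84.BR.Two.tSI
theorem nOB : Pool.Agent.H93.TN.T_OB :=
  Pool.Agent.H93.TN.pf_ob nFLL nLC2 nORT nCB1 nCMT nSEL nRAD nCNC Pool.Agent.H84.BR.Two.tSI
    Pool.Agent.H84.BR.Two.tAM1 Pool.Agent.H84.BR.Two.tAM2H93 Pool.Agent.H84.BR.Two.tAC2H93
    Pool.Agent.H83.LS.Chain.ple Pool.Agent.H84.BR.Two.tJM
theorem nOBM : Pool.Agent.H93.TN.T_OBM :=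
  Pool.Agent.H33.TN.pf_obm nOB Pool.Agent.H84.BR.Two.tSWF Pool.Agent.H84.BR.Two.tJM
theorem nSP2 : Pool.Agent.H93.TN.T_SP2 :=
  Pool.Agent.H85.TN.pf_sp2
theorem nPLS : Pool.Agent.H93.TN.T_PLS :=
  Pool.Agent.H4.TN.pf_pls Pool.Agent.H83.LS.Chain.s2d Pool.Agent.H83.LS.Chain.kl1 nSP2
    Pool.Agent.H84.BR.Two.tJM
theorem nPLP : Pool.Agent.H93.TN.T_PLP :=
  Pool.Agent.H4.TN.pf_plp Pool.Agent.H83.LS.Chain.kl1 nSP2 Pool.Agent.H84.BR.Two.tJM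
theorem nMKR : Pool.Agent.H93.TN.T_MKR :=
  Pool.Agent.H71.TN.pf_mkr Pool.Agent.H83.LS.Chain.kbv nSP2 Pool.Agent.H84.BR.Two.tJM
theorem nWSL : Pool.Agent.H93.TN.T_WSL :=
  Pool.Agent.H16.TN.pf_wsl
theorem nBNS : Pool.Agent.H93.TN.T_BNS :=
  Pool.Agent.H96.TN.pf_bns Pool.Agent.H84.BR.Two.tJM
theorem nCB2 : Pool.Agent.H93.TN.T_CB2 :=
  Pool.Agent.H54.TN.pf_cb2 nCNC Pool.Agent.H84.BR.Two.tJM Pool.Agent.H83.LS.Chain.ple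
theorem nBND : Pool.Agent.H93.TN.T_BND :=
  Pool.Agent.H96.TN.pf_bnd nPLS nPLP nMKR nWSL nBNS nCB1 nCB2 Pool.Agent.H84.BR.Two.tQM nSEL
    Pool.Agent.H84.BR.Two.tSV2 Pool.Agent.H83.LS.Chain.ple Pool.Agent.H84.BR.Two.tJM
theorem nBNM : Pool.Agent.H93.TN.T_BNM :=
  Pool.Agent.H89.TN.pf_bnm nBND Pool.Agent.H84.BR.Two.tSWF Pool.Agent.H84.BR.Two.tJM
theorem nMFX : Pool.Agent.H93.TN.T_MFX :=
  Pool.Agent.H86.TN.MFX.pf_mfx Pool.Agent.H84.BR.Two.tSV2 nCB1 nCB2 nSEL Pool.Agent.H84.BR.Two.tJM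
theorem nHH : Pool.Agent.H93.TN.T_HH :=
  Pool.Agent.H86.TN.HH.pf_hh nOB nOBM nBND nBNM nMFX
theorem nRGN : Pool.Agent.H93.TN.T_RGN :=
  Pool.Agent.H74.TN.pf_rgn
theorem nARI : Pool.Agent.H93.TN.T_ARI :=
  Pool.Agent.H86.TN.pf_ari
theorem nPHH : Pool.Agent.H93.TN.T_PHH :=
  Pool.Agent.H54.TN.pf_phh nHH nRGN nARI
theorem nHL : Pool.Agent.H93.TN.T_HL :=
  Pool.Agent.H42.TN.pf_hl nOB nBND nMFX
theorem nPHL : Pool.Agent.H93.TN.T_PHL :=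
  Pool.Agent.H14.TN.pf_phl nHL nRGN nARI
theorem nLH : Pool.Agent.H93.TN.T_LH :=
  Pool.Agent.H14.TN.pf_lh nOBM nBNM nMFX
theorem nPLH : Pool.Agent.H93.TN.T_PLH :=
  Pool.Agent.H58.TN.pf_plh nLH nRGN nARI
theorem nRT : Pool.Agent.H93.TN.T_RT :=
  Pool.Agent.H47.TN.pf_rt nPHH nPHL nPLH Pool.Agent.H84.BR.Two.tAM1 Pool.Agent.H84.BR.Two.tAM2H93
    Pool.Agent.H84.BR.Two.tAC2H93 Pool.Agent.H83.LS.Chain.ple Pool.Agent.H83.LS.Chain.radl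
    Pool.Agent.H84.BR.Two.tJM
theorem nSG3 : Pool.Agent.H93.TN.T_SG3 :=
  Pool.Agent.H54.TN.pf_sg3 nRT Pool.Agent.H84.BR.Two.tGAQ Pool.Agent.H83.LS.Chain.marc
    Pool.Agent.H83.LS.Chain.radl Pool.Agent.H83.LS.Chain.ple
theorem nBL3 : Pool.Agent.H93.TN.T_BL3 :=
  Pool.Agent.H56.TN.pf_bl3 nSG3 Pool.Agent.H84.BR.Two.tAQP Pool.Agent.H84.BR.Two.tAM1
    Pool.Agent.H84.BR.Two.tAM2H93 Pool.Agent.H84.BR.Two.tAD2 Pool.Agent.H84.BR.Two.tFX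
    Pool.Agent.H83.LS.Chain.ple
theorem nHG3 : Pool.Agent.H93.TN.T_HG3 :=
  Pool.Agent.H56.TN.pf_hg3 nBL3 Pool.Agent.H83.LS.Chain.radl Pool.Agent.H83.LS.Chain.yg
    Pool.Agent.H84.BR.Two.tROT2
theorem nFN3 : Pool.Agent.H93.TN.T_FN3 :=
  Pool.Agent.H58.TN.pf_fn3 nHG3 Pool.Agent.H83.LS.Chain.lowf Pool.Agent.H83.LS.Chain.yg
    Pool.Agent.H83.LS.Chain.ple
theorem nFNC : Pool.Agent.H93.TN.T_FNC :=
  Pool.Agent.H58.TN.pf_fnc nFN3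

end Pool.Agent.H93.TN.Fin
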