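import Pool.Agent.H93.TN.TargetsC
import Pool.Agent.H93.BR.TRa

/-! # OB, part 1: slices, measurability, symbols -/

set_option autoImplicit false

namespace Pool.Agent.H93.TN

open MeasureTheory Set FourierTransform
open Pool.Agent.H83.LS Pool.Agent.H93.AR Pool.Agent.H54.LS Pool.Agent.H83.AR
open Pool.Agent.H84.BR Pool.Agent.H84.B2
open scoped ENNReal NNReal

/-- joint measurability of `MM` with parameters -/
theorem MM_measP {d : ℕ} {Q : Type} [MeasurableSpace Q] {m : Q → EE d → ℂ} {f : EE d → ℂ}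
    (hm : Measurable fun q : Q × EE d => m q.1 q.2) (hf : Measurable (𝓕 f)) :
    Measurable fun q : Q × EE d => MM (m q.1) f q.2 := by
  unfold MM
  apply StronglyMeasurable.measurable
  apply StronglyMeasurable.integral_prod_right
    (f := fun (q : Q × EE d) (ξ : EE d) => e (inner ℝ q.2 ξ) * (m q.1 ξ * 𝓕 f ξ))
  apply Measurable.stronglyMeasurable
  have h1 : Measurable fun w : (Q × EE d) × EE d => e (inner ℝ w.1.2 w.2) :=
    measurable_e.comp (by fun_prop)
  have h2 : Measurable fun w : (Q × EE d) × EE d => m w.1.1 w.2 :=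
    hm.comp (by fun_prop : Measurable fun w : (Q × EE d) × EE d => (w.1.1, w.2))
  exact h1.mul (h2.mul (hf.comp measurable_snd))

theorem ft_cont {d : ℕ} {f : EE d → ℂ} (hf : Integrable f) : Continuous (𝓕 f) := by
  exact VectorFourier.fourierIntegral_continuous Real.continuous_fourierChar
    (innerSL ℝ).continuous₂ hf

theorem ft_meas {d : ℕ} {f : EE d → ℂ} (hf : Integrable f) : Measurable (𝓕 f) :=
  (ft_cont hf).measurable

/-- Tonelli with parameters -/
theorem tonelli_par {P X Z : Type} [MeasurableSpace P] [MeasurableSpace X] [MeasurableSpace Z]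
    (π : Measure P) [SFinite π] (τ : Measure ℝ) [SFinite τ] (μ : Measure X) [SFinite μ]
    (ν : Measure Z) [SFinite ν] (Ψ : P → ℝ → X → Z → ℝ≥0∞)
    (hΨ : Measurable fun q : P × (ℝ × (X × Z)) => Ψ q.1 q.2.1 q.2.2.1 q.2.2.2) :
    ∫⁻ t, ∫⁻ z, ∫⁻ p, ∫⁻ x, Ψ p t x z ∂μ ∂π ∂ν ∂τ =
      ∫⁻ p, ∫⁻ t, ∫⁻ z, ∫⁻ x, Ψ p t x z ∂μ ∂ν ∂τ ∂π := by
  have hm : Measurable fun q : (P × (ℝ × Z)) × X => Ψ q.1.1 q.1.2.1 q.2 q.1.2.2 :=
    hΨ.comp (f := fun q : (P × (ℝ × Z)) × X => (q.1.1, (q.1.2.1, (q.2, q.1.2.2)))) (by fun_prop)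
  have hI : Measurable fun q : P × (ℝ × Z) => ∫⁻ x, Ψ q.1 q.2.1 x q.2.2 ∂μ :=
    Measurable.lintegral_prod_right' hm
  have h1 : ∀ t, ∫⁻ z, ∫⁻ p, ∫⁻ x, Ψ p t x z ∂μ ∂π ∂ν = ∫⁻ p, ∫⁻ z, ∫⁻ x, Ψ p t x z ∂μ ∂ν ∂π := by
    intro t
    apply lintegral_lintegral_swap
    apply Measurable.aemeasurable
    exact hI.comp (f := fun q : Z × P => (q.2, (t, q.1))) (by fun_prop)
  simp_rw [h1]
  apply lintegral_lintegral_swap
  apply Measurable.aemeasurable
  have hm2 : Measurable fun q : (ℝ × P) × Z => ∫⁻ x, Ψ q.1.2 q.1.1 x q.2 ∂μ :=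
    hI.comp (f := fun q : (ℝ × P) × Z => (q.1.2, (q.1.1, q.2))) (by fun_prop)
  exact Measurable.lintegral_prod_right' hm2

section
variable {a b : ℕ} (hJM : T_JM)
include hJM

theorem jm_facts : (∀ (y : EE a) (z : EE b), p1 a b (jm a b y z) = y ∧ p2 a b (jm a b y z) = z) ∧
    (∀ x : EE (a + b), jm a b (p1 a b x) (p2 a b x) = x) ∧
    (Continuous fun q : EE a × EE b => jm a b q.1 q.2) ∧ Continuous (p1 a b) ∧
    Continuous (p2 a b) ∧
    MeasurePreserving (fun q : EE a × EE b => jm a b q.1 q.2) (volume.prod volume) volume := by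
  obtain ⟨h1, h2, _, _, h5, h6, h7, _, h9, _⟩ := hJM a b
  exact ⟨h1, h2, h5, h6, h7, h9⟩

/-- integrals over `ℝ^(a+b)` by slices -/
theorem slice (F : EE (a + b) → ℝ≥0∞) (hF : Measurable F) :
    ∫⁻ x, F x = ∫⁻ z : EE b, ∫⁻ y : EE a, F (jm a b y z) := by
  obtain ⟨_, _, hc, _, _, hmp⟩ := jm_facts (a := a) (b := b) hJM
  rw [← hmp.lintegral_comp hF]
  exact lintegral_prod_symm' (fun q : EE a × EE b => F (jm a b q.1 q.2)) (hF.comp hc.measurable)

/-- integrals over product sets by slices -/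
theorem slice_set (F : EE (a + b) → ℝ≥0∞) (hF : Measurable F) (S : Set (EE a)) (Y : Set (EE b))
    (hS : MeasurableSet S) (hY : MeasurableSet Y) :
    ∫⁻ x in {x : EE (a + b) | p1 a b x ∈ S ∧ p2 a b x ∈ Y}, F x =
      ∫⁻ z in Y, ∫⁻ y in S, F (jm a b y z) := by
  obtain ⟨hp, _, hc, hc1, hc2, _⟩ := jm_facts (a := a) (b := b) hJM
  have hSY : MeasurableSet {x : EE (a + b) | p1 a b x ∈ S ∧ p2 a b x ∈ Y} :=
    (hc1.measurable hS).inter (hc2.measurable hY)
  rw [← lintegral_indicator hSY, slice hJM _ (hF.indicator hSY), ← lintegral_indicator hY]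
  refine lintegral_congr fun z => ?_
  by_cases hz : z ∈ Y
  · rw [indicator_of_mem hz, ← lintegral_indicator hS]
    refine lintegral_congr fun y => ?_
    by_cases hy : y ∈ S
    · rw [indicator_of_mem hy, indicator_of_mem]
      simp only [mem_ofPred_eq, hp]
      exact ⟨hy, hz⟩
    · rw [indicator_of_notMem hy, indicator_of_notMem]
      simp only [mem_ofPred_eq, hp]
      exact fun h => hy h.1
  · rw [indicator_of_notMem hz]
    rw [lintegral_eq_zero_iff']
    · refine Filter.Eventually.of_forall fun y => ?_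
      simp only [Pi.zero_apply]
      rw [indicator_of_notMem]
      simp only [mem_ofPred_eq, hp]
      exact fun h => hz h.2
    · apply Measurable.aemeasurable
      exact (hF.indicator hSY).comp (hc.measurable.comp (by fun_prop : Measurable fun y : EE a => (y, z)))

end

/-- the sector symbols depend measurably on the direction -/
theorem sy_meas {n : ℕ} {ψ : ℝ → ℝ} (hψ : Continuous ψ) (Lam r : ℝ) :
    Measurable fun q : EE n × EE n => sy n ψ Lam r q.1 q.2 := by
  unfold sy
  apply Complex.measurable_ofReal.comp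
  apply Measurable.mul
  · exact hψ.measurable.comp (by fun_prop)
  · apply Pool.Agent.H14.LS.eta0_smooth.continuous.measurable.comp
    fun_prop

theorem sy_cont {n : ℕ} {ψ : ℝ → ℝ} (Lam r : ℝ) (ξ : EE n) :
    Continuous fun u : EE n => sy n ψ Lam r u ξ := by
  unfold sy
  apply Complex.continuous_ofReal.comp
  apply Continuous.mul continuous_const
  apply Pool.Agent.H14.LS.eta0_smooth.continuous.comp
  fun_prop

theorem ch2_cont : Continuous ch2 := by
  unfold ch2
  have := Pool.Agent.H14.LS.eta0_smooth.continuous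
  fun_prop

theorem ch2_RC : RC ch2 := by
  have h0 := Pool.Agent.H14.LS.eta0_smooth
  refine ⟨?_, ?_⟩
  · unfold ch2
    exact (h0.comp (contDiff_id.div_const 4)).sub (h0.comp (contDiff_const.mul contDiff_id))
  · intro s hs
    unfold ch2 at hs
    constructor
    · by_contra hc
      push Not at hc
      apply hs
      rw [Pool.Agent.H14.LS.eta0_one (by linarith : s / 4 ≤ 1),
        Pool.Agent.H14.LS.eta0_one (by linarith : 8 * s ≤ 1), sub_self]
    · by_contra hc
      push Not at hc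
      apply hs
      rw [Pool.Agent.H14.LS.eta0_zero (by linarith : 2 ≤ s / 4),
        Pool.Agent.H14.LS.eta0_zero (by linarith : 2 ≤ 8 * s), sub_self]

end Pool.Agent.H93.TN
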