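import Pool.Agent.H93.TN.OBa

/-! # OB, part 2: the bands -/

set_option autoImplicit false

namespace Pool.Agent.H93.TN

open MeasureTheory Set FourierTransform
open Pool.Agent.H83.LS Pool.Agent.H93.AR Pool.Agent.H54.LS
open Pool.Agent.H83.AR hiding T_AM2 T_AC2
open Pool.Agent.H84.BR Pool.Agent.H84.B2
open scoped ENNReal NNReal

/-- properties of `R` -/
structure RP (a b : ℕ) (L : ℝ) (R : (EE (a + b) → ℂ) → EE (a + b) → ℂ) : Prop where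
  bi : ∀ (A : ℝ) (f : EE (a + b) → ℂ), BI A f → BI A (R f)
  l2 : ∀ (A : ℝ) (f : EE (a + b) → ℂ), BI A f → ∫⁻ x, ‖R f x‖ₑ ^ 2 ≤ ∫⁻ x, ‖f x‖ₑ ^ 2
  cb : ∀ (A : ℝ) (f : EE (a + b) → ℂ) (s : EE a → ℂ), SC s → BI A f →
    R (cb1 a b (MK s) f) = cb1 a b (MK s) (R f)
  av : ∀ (A : ℝ) (f : EE (a + b) → ℂ), BI A f → R (A1 a b L f) = A1 a b L (R f)

theorem avp_bi {d m : ℕ} {Av : (EE d → ℂ) → EE d → ℂ} {nr : EE d → ℝ} {ot : EE d → EE m}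
    (h : avp d m Av nr ot) (A : ℝ) (f : EE d → ℂ) (hf : BI A f) : BI A (Av f) :=
  ⟨h.1 f hf.1, h.2.2.2.1 f hf.1 hf.2.1, h.2.1 f A hf.1 hf.2.2⟩

theorem avp_l2 {d m : ℕ} {Av : (EE d → ℂ) → EE d → ℂ} {nr : EE d → ℝ} {ot : EE d → EE m}
    (h : avp d m Av nr ot) (f : EE d → ℂ) (hf : Measurable f) :
    ∫⁻ x, ‖Av f x‖ₑ ^ 2 ≤ ∫⁻ x, ‖f x‖ₑ ^ 2 := by
  have := h.2.2.1 f 2 hf (by norm_num)
  simpa only [ENNReal.rpow_two] using this

theorem RP_of {a b : ℕ} {L : ℝ} (ha : 1 ≤ a) (hb : 1 ≤ b) (hL : 1 ≤ L)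
    (hAM2 : T_AM2) (hAC2 : T_AC2) (hCMT : T_CMT)
    (R : (EE (a + b) → ℂ) → EE (a + b) → ℂ)
    (hR : (∀ f, R f = f) ∨ (∀ f, R f = A2 a b L f)) : RP a b L R := by
  rcases hR with hR | hR
  · refine ⟨fun A f hf => by rw [hR]; exact hf, fun A f hf => by rw [hR],
      fun A f s hs hf => by rw [hR, hR], fun A f hf => by rw [hR, hR]⟩
  · have h2 := hAM2 a b L hb hL
    refine ⟨fun A f hf => by rw [hR]; exact avp_bi h2 A f hf, fun A f hf => by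
      rw [hR]; exact avp_l2 h2 f hf.1, fun A f s hs hf => ?_, fun A f hf => ?_⟩
    · rw [hR, hR]
      funext x
      exact (hCMT a b L A f ha hb hL hf).1 s x hs
    · rw [hR, hR]
      funext x
      exact ((hAC2 a b L L f ha hb hL hL hf.1 ⟨A, hf.2.2⟩ x).2.2).symm

/-- constants of the sector kernels -/
structure KC (a : ℕ) (C : ℝ) : Prop where
  nn : 0 ≤ C
  sc : ∀ (Lam r : ℝ) (u : EE a), 0 < Lam → 0 < r → r ≤ 1 / 8 → ‖u‖ = 1 → SC (sy a ch2 Lam r u)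
  le : ∀ (Lam r : ℝ) (u ξ : EE a), 0 < Lam → 0 < r → r ≤ 1 / 8 → ‖u‖ = 1 →
    ‖sy a ch2 Lam r u ξ‖ ≤ C
  l1 : ∀ (Lam r : ℝ) (u : EE a), 0 < Lam → 0 < r → r ≤ 1 / 8 → ‖u‖ = 1 →
    ∫ x, ‖MK (sy a ch2 Lam r u) x‖ ≤ C

theorem KC_of {a : ℕ} (ha : 1 ≤ a) (hSEL : T_SEL) (hCNC : T_CNC) : ∃ C, KC a C := by
  obtain ⟨C, hC, h⟩ := hSEL a 0 ch2 ha ch2_RC
  refine ⟨C, hC, fun Lam r u h1 h2 h3 h4 => (h Lam r u h1 h2 h3 h4).1,
    fun Lam r u ξ h1 h2 h3 h4 => (h Lam r u h1 h2 h3 h4).2.1 ξ, fun Lam r u h1 h2 h3 h4 => ?_⟩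
  obtain ⟨hs, _, hi, _⟩ := h Lam r u h1 h2 h3 h4
  have hint := (hCNC a _ _ (fun _ => 0) 0 hs hs measurable_const (by simp)).1
  simp only [pow_zero, ENNReal.ofReal_one, mul_one] at hi
  have := integral_norm_eq_lintegral_enorm hint.1
  rw [this]
  exact ENNReal.toReal_le_of_le_ofReal hC hi

theorem MK_add {n : ℕ} {s₁ s₂ : EE n → ℂ} (h₁ : Integrable s₁) (h₂ : Integrable s₂) (x : EE n) :
    MK (fun ξ => s₁ ξ + s₂ ξ) x = MK s₁ x + MK s₂ x := by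
  unfold MK
  rw [← integral_add]
  · refine integral_congr_ae (Filter.Eventually.of_forall fun ξ => ?_)
    simp only
    ring
  · exact h₁.bdd_mul (c := 1) (measurable_e.comp (by fun_prop)).aestronglyMeasurable
      (Filter.Eventually.of_forall fun ξ => (norm_e _).le)
  · exact h₂.bdd_mul (c := 1) (measurable_e.comp (by fun_prop)).aestronglyMeasurable
      (Filter.Eventually.of_forall fun ξ => (norm_e _).le)

theorem SC.int {n : ℕ} {s : EE n → ℂ} (hs : SC s) : Integrable s :=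
  hs.1.continuous.integrable_of_hasCompactSupport hs.2

theorem SC.add {n : ℕ} {s₁ s₂ : EE n → ℂ} (h₁ : SC s₁) (h₂ : SC s₂) :
    SC (fun ξ => s₁ ξ + s₂ ξ) := ⟨h₁.1.add h₂.1, h₁.2.add h₂.2⟩

section
variable {a b : ℕ} {q lam Lam L A₂ s' r M : ℝ} {K : ℝ≥0∞} {Y : Set (EE b)}
  {m : ℝ → EE (a + b) → ℂ} {R : (EE (a + b) → ℂ) → EE (a + b) → ℂ} {C₄ : ℝ}

/-- hypothesis for the bands -/
def HB (a b : ℕ) (q Lam s' r : ℝ) (K : ℝ≥0∞) (Y : Set (EE b)) (m : ℝ → EE (a + b) → ℂ)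
    (R : (EE (a + b) → ℂ) → EE (a + b) → ℂ) : Prop :=
  ∀ (u : EE a) (A' : ℝ) (g : EE (a + b) → ℂ), ‖u‖ = 1 → BI A' g →
    ∫⁻ t in Icc (1 : ℝ) 2, ∫⁻ x in {x : EE (a + b) | |inner ℝ (p1 a b x) u| ≤ s' ∧
      p2 a b x ∈ Y}, ‖MM (fun ξ => m t ξ * sy a ch2 Lam r u (p1 a b ξ)) (R g) x‖ₑ ^ q ≤
      K * ENNReal.ofReal (A' ^ (q - 2)) * ∫⁻ x, ‖g x‖ₑ ^ 2

theorem m_int (hm : MF1 a b M lam Lam m) (t : ℝ) : Measurable (m t) ∧ Integrable (m t) := by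
  have h1 : Continuous (m t) := hm.1.comp (by fun_prop : Continuous fun ξ : EE (a + b) => (t, ξ))
  refine ⟨h1.measurable, ?_⟩
  apply h1.integrable_of_hasCompactSupport
  apply HasCompactSupport.intro (isCompact_closedBall (0 : EE (a + b)) (2 * lam))
  intro ξ hξ
  by_contra hc
  apply hξ
  rw [mem_closedBall_zero_iff]
  exact (hm.2.2.1 t ξ hc).1

/-- reproducing property of the fatter sector -/
theorem sy_fat (hL : 0 < Lam) (hr : 0 < r) (u : EE a) (ξ : EE (a + b))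
    (hm : MF1 a b M lam Lam m) (t : ℝ) :
    m t ξ * sy a ch2 Lam (2 * r) u (p1 a b ξ) * sy a ch2 Lam r u (p1 a b ξ) =
      m t ξ * sy a ch2 Lam r u (p1 a b ξ) := by
  by_cases h0 : m t ξ = 0
  · rw [h0]; ring
  obtain ⟨_, h1, h2⟩ := hm.2.2.1 t ξ h0
  by_cases h3 : sy a ch2 Lam r u (p1 a b ξ) = 0
  · rw [h3]; ring
  have h4 : sy a ch2 Lam (2 * r) u (p1 a b ξ) = 1 := by
    unfold sy at h3 ⊢
    have h5 : eta0 ((‖‖p1 a b ξ‖⁻¹ • p1 a b ξ - u‖ / r) ^ 2) ≠ 0 := by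
      intro h
      apply h3
      rw [h, mul_zero, Complex.ofReal_zero]
    have h6 : (‖‖p1 a b ξ‖⁻¹ • p1 a b ξ - u‖ / r) ^ 2 < 2 := by
      by_contra hc
      exact h5 (Pool.Agent.H14.LS.eta0_zero (not_lt.mp hc))
    have h7 : ch2 (‖p1 a b ξ‖ / Lam) = 1 := by
      have h8 : 1 / 2 ≤ ‖p1 a b ξ‖ / Lam := by
        rw [le_div_iff₀ hL]; linarith
      have h9 : ‖p1 a b ξ‖ / Lam ≤ 2 := by
        rw [div_le_iff₀ hL]; linarith
      unfold ch2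
      rw [Pool.Agent.H14.LS.eta0_one (by linarith), Pool.Agent.H14.LS.eta0_zero (by linarith)]
      ring
    rw [h7, Pool.Agent.H14.LS.eta0_one]
    · simp
    · have h10 : (‖‖p1 a b ξ‖⁻¹ • p1 a b ξ - u‖ / (2 * r)) ^ 2 =
          (‖‖p1 a b ξ‖⁻¹ • p1 a b ξ - u‖ / r) ^ 2 / 4 := by
        field_simp
        ring
      rw [h10]
      linarith
  rw [h4, mul_one]

/-- one band -/
theorem band1 (ha : 1 ≤ a) (hb : 1 ≤ b) (hCB1 : T_CB1) (hJM : T_JM) (hK : KC a C₄)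
    (hL : 0 < Lam) (hr : 0 < r) (hr2 : r ≤ 1 / 16) (hq : 2 < q)
    (hm : MF1 a b M lam Lam m) (hR : RP a b L R) (hH : HB a b q Lam s' r K Y m R)
    (f : EE (a + b) → ℂ) (hf : BI A₂ f) (u : EE a) (hu : ‖u‖ = 1) :
    ∫⁻ t in Icc (1 : ℝ) 2, ∫⁻ x in {x : EE (a + b) | |inner ℝ (p1 a b x) u| ≤ s' ∧
      p2 a b x ∈ Y}, ‖MM (fun ξ => m t ξ * sy a ch2 Lam r u (p1 a b ξ)) (R f) x‖ₑ ^ q ≤
      K * ENNReal.ofReal ((C₄ * A₂) ^ (q - 2)) *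
        ∫⁻ x, ‖cb1 a b (MK (sy a ch2 Lam (2 * r) u)) f x‖ₑ ^ 2 := by
  have hA2 : 0 ≤ A₂ := (norm_nonneg _).trans (hf.2.2 0)
  have hSC2 := hK.sc Lam (2 * r) u hL (by linarith) (by linarith) hu
  have hSC1 := hK.sc Lam r u hL hr (by linarith) hu
  set g := cb1 a b (MK (sy a ch2 Lam (2 * r) u)) f with hg
  obtain ⟨hgB, _⟩ := hCB1 a b (sy a ch2 Lam (2 * r) u) f A₂ C₄ ha hb hSC2
    (fun ξ => hK.le Lam (2 * r) u ξ hL (by linarith) (by linarith) hu) hf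
  have hgB' : BI (C₄ * A₂) g :=
    ⟨hgB.1, hgB.2.1, fun x => (hgB.2.2 x).trans (mul_le_mul_of_nonneg_right
      (hK.l1 Lam (2 * r) u hL (by linarith) (by linarith) hu) hA2)⟩
  refine le_trans (le_of_eq ?_) (hH u (C₄ * A₂) g hu hgB')
  refine lintegral_congr fun t => ?_
  refine lintegral_congr fun x => ?_
  congr 2
  obtain ⟨hmm, hmi⟩ := m_int hm t
  rw [hg, hR.cb A₂ f _ hSC2 hf]
  have hcp := (jm_facts (a := a) (b := b) hJM).2.2.2.1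
  have hm1 : Measurable fun ξ => m t ξ * sy a ch2 Lam r u (p1 a b ξ) :=
    hmm.mul (hSC1.1.continuous.measurable.comp hcp.measurable)
  have hm2 : Integrable fun ξ => m t ξ * sy a ch2 Lam r u (p1 a b ξ) := by
    refine (hmi.bdd_mul (c := C₄) (hSC1.1.continuous.comp hcp).aestronglyMeasurable
      (Filter.Eventually.of_forall fun ξ => hK.le Lam r u _ hL hr (by linarith) hu)).congr
        (Filter.Eventually.of_forall fun ξ => ?_)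
    exact mul_comm _ _
  have h1 := (hCB1 a b (sy a ch2 Lam (2 * r) u) (R f) A₂ C₄ ha hb hSC2
    (fun ξ => hK.le Lam (2 * r) u ξ hL (by linarith) (by linarith) hu) (hR.bi A₂ f hf)).2.2.2.2
      (fun ξ => m t ξ * sy a ch2 Lam r u (p1 a b ξ)) hm1 hm2 x
  rw [h1.1]
  congr 1
  funext ξ
  linear_combination -(sy_fat hL hr u ξ hm t)

end

end Pool.Agent.H93.TN
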