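import Pool.Agent.H93.TN.OBa

/-! # OB, part 3: measurability and almost orthogonality in the first block -/

set_option autoImplicit false

namespace Pool.Agent.H93.TN

open MeasureTheory Set FourierTransform
open Pool.Agent.H83.LS Pool.Agent.H93.AR Pool.Agent.H54.LS
open Pool.Agent.H83.AR hiding T_AM2 T_AC2
open Pool.Agent.H84.BR Pool.Agent.H84.B2
open scoped ENNReal NNReal

theorem MK_measP {n : ℕ} {Q : Type} [MeasurableSpace Q] {s : Q → EE n → ℂ}
    (hs : Measurable fun q : Q × EE n => s q.1 q.2) :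
    Measurable fun q : Q × EE n => MK (s q.1) q.2 := by
  unfold MK
  apply StronglyMeasurable.measurable
  apply StronglyMeasurable.integral_prod_right
    (f := fun (q : Q × EE n) (ξ : EE n) => e (inner ℝ q.2 ξ) * s q.1 ξ)
  apply Measurable.stronglyMeasurable
  have h1 : Measurable fun w : (Q × EE n) × EE n => e (inner ℝ w.1.2 w.2) :=
    measurable_e.comp (by fun_prop)
  have h2 : Measurable fun w : (Q × EE n) × EE n => s w.1.1 w.2 :=
    hs.comp (by fun_prop : Measurable fun w : (Q × EE n) × EE n => (w.1.1, w.2))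
  exact h1.mul h2

/-- kernels of sectors are jointly measurable -/
theorem MKsy_meas (n : ℕ) (Lam r : ℝ) :
    Measurable fun q : EE n × EE n => MK (sy n ch2 Lam r q.1) q.2 :=
  MK_measP (s := fun u : EE n => sy n ch2 Lam r u) (sy_meas ch2_cont Lam r)

theorem cb1_measP {a b : ℕ} (hJM : T_JM) {κ : EE a → EE a → ℂ}
    (hκ : Measurable fun q : EE a × EE a => κ q.1 q.2) (f : EE (a + b) → ℂ) (hf : Measurable f) :
    Measurable fun q : EE a × EE (a + b) => cb1 a b (κ q.1) f q.2 := by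
  obtain ⟨_, _, hc, hc1, hc2, _⟩ := jm_facts (a := a) (b := b) hJM
  unfold cb1
  apply StronglyMeasurable.measurable
  apply StronglyMeasurable.integral_prod_right
    (f := fun (q : EE a × EE (a + b)) (y : EE a) => κ q.1 (p1 a b q.2 - y) *
      f (jm a b y (p2 a b q.2)))
  apply Measurable.stronglyMeasurable
  have m1 := hc1.measurable
  have m2 := hc2.measurable
  have mj := hc.measurable
  have e1 : Measurable fun w : (EE a × EE (a + b)) × EE a => (w.1.1, p1 a b w.1.2 - w.2) := by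
    fun_prop
  have e2 : Measurable fun w : (EE a × EE (a + b)) × EE a => (w.2, p2 a b w.1.2) := by
    fun_prop
  have h1 := hκ.comp e1
  have h2 := hf.comp (mj.comp e2)
  exact h1.mul h2

theorem cb1_meas {a b : ℕ} (hJM : T_JM) (Lam r : ℝ) (f : EE (a + b) → ℂ) (hf : Measurable f) :
    Measurable fun q : EE a × EE (a + b) => cb1 a b (MK (sy a ch2 Lam r q.1)) f q.2 :=
  cb1_measP hJM (κ := fun u : EE a => MK (sy a ch2 Lam r u)) (MKsy_meas a Lam r) f hf

/-- the inequality on slices, abstract form -/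
theorem slice_sum {a b : ℕ} (hJM : T_JM) (G : Sp a → EE (a + b) → ℝ≥0∞)
    (hG : Measurable fun q : Sp a × EE (a + b) => G q.1 q.2) (F : EE (a + b) → ℝ≥0∞)
    (hF : Measurable F) (C : ℝ≥0∞)
    (h : ∀ z : EE b, ∫⁻ u : Sp a, ∫⁻ y : EE a, G u (jm a b y z) ∂volume ∂(sg a) ≤
      C * ∫⁻ y : EE a, F (jm a b y z)) :
    ∫⁻ u : Sp a, ∫⁻ x, G u x ∂volume ∂(sg a) ≤ C * ∫⁻ x, F x := by
  obtain ⟨hp, _, hc, hc1, hc2, _⟩ := jm_facts (a := a) (b := b) hJM
  have h1 : ∀ u : Sp a, ∫⁻ x, G u x = ∫⁻ z : EE b, ∫⁻ y : EE a, G u (jm a b y z) := by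
    intro u
    exact slice hJM _ (hG.comp (by fun_prop : Measurable fun x : EE (a + b) => (u, x)))
  simp_rw [h1]
  have e1 : Measurable fun q : (Sp a × EE b) × EE a => (q.1.1, jm a b q.2 q.1.2) := by
    have mj := hc.measurable
    have e2 : Measurable fun q : (Sp a × EE b) × EE a => jm a b q.2 q.1.2 :=
      mj.comp (by fun_prop : Measurable fun q : (Sp a × EE b) × EE a => (q.2, q.1.2))
    exact (by fun_prop : Measurable fun q : (Sp a × EE b) × EE a => q.1.1).prodMk e2
  have h5 : Measurable fun q : (Sp a × EE b) × EE a => G q.1.1 (jm a b q.2 q.1.2) :=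
    hG.comp e1
  rw [lintegral_lintegral_swap]
  · refine (lintegral_mono h).trans (le_of_eq ?_)
    have h4 : Measurable fun q : EE b × EE a => F (jm a b q.2 q.1) :=
      hF.comp (hc.measurable.comp (by fun_prop : Measurable fun q : EE b × EE a => (q.2, q.1)))
    have h6 : Measurable fun z : EE b => ∫⁻ y : EE a, F (jm a b y z) :=
      Measurable.lintegral_prod_right' h4
    rw [lintegral_const_mul _ h6, slice hJM _ hF]
  · apply Measurable.aemeasurable
    exact Measurable.lintegral_prod_right' h5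

/-- almost orthogonality in the first block -/
theorem ort1 {a b : ℕ} (hORT : T_ORT) (hJM : T_JM) (ha : 1 ≤ a) : ∃ C : ℝ≥0, ∀ (Lam r A : ℝ)
    (f : EE (a + b) → ℂ), 0 < Lam → 0 < r → r ≤ 1 / 8 → BI A f →
    ∫⁻ u : Sp a, ∫⁻ x, ‖cb1 a b (MK (sy a ch2 Lam r (u : EE a))) f x‖ₑ ^ 2 ∂volume ∂(sg a) ≤
      C * ENNReal.ofReal (r ^ (a - 1)) * ∫⁻ x, ‖f x‖ₑ ^ 2 := by
  obtain ⟨C, hC⟩ := hORT a ha
  refine ⟨C, fun Lam r A f hL hr hr8 hf => ?_⟩
  obtain ⟨hp, _, hc, hc1, hc2, _⟩ := jm_facts (a := a) (b := b) hJM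
  have hm1 : Measurable fun q : Sp a × EE (a + b) =>
      ‖cb1 a b (MK (sy a ch2 Lam r (q.1 : EE a))) f q.2‖ₑ ^ 2 :=
    ((cb1_meas hJM Lam r f hf.1).comp (by fun_prop :
      Measurable fun q : Sp a × EE (a + b) => ((q.1 : EE a), q.2))).enorm.pow_const 2
  refine slice_sum hJM _ hm1 (fun x => ‖f x‖ₑ ^ 2) (hf.1.enorm.pow_const 2) _ ?_
  intro z
  have h3 := hC Lam r A (fun y => f (jm a b y z)) hL hr hr8
    (hf.1.comp (hc.measurable.comp (by fun_prop : Measurable fun y : EE a => (y, z))))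
    (fun y => hf.2.2 _)
  refine le_trans (le_of_eq ?_) h3
  refine lintegral_congr fun u => lintegral_congr fun y => ?_
  congr 2
  unfold cb1 Qb cn
  rw [(hp y z).1, (hp y z).2]

end Pool.Agent.H93.TN
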