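import Pool.Agent.H93.TN.OBb
import Pool.Agent.H93.TN.OBc

/-! # OB, part 4: combination of the slices, two opposite bands -/

set_option autoImplicit false

namespace Pool.Agent.H93.TN

open MeasureTheory Set FourierTransform
open Pool.Agent.H83.LS Pool.Agent.H93.AR Pool.Agent.H54.LS
open Pool.Agent.H83.AR hiding T_AM2 T_AC2
open Pool.Agent.H84.BR Pool.Agent.H84.B2
open scoped ENNReal NNReal

theorem comb {a b : ℕ} (hJM : T_JM) {P : Type} [MeasurableSpace P] (π : Measure P) [SFinite π]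
    (u v : ℝ → EE (a + b) → ℝ≥0∞) (Φ : P → ℝ → EE (a + b) → ℝ≥0∞) (S : Set (EE a))
    (Y : Set (EE b)) (Z : P → Set (EE a)) (hS : MeasurableSet S) (hY : MeasurableSet Y)
    (hZ : MeasurableSet {q : P × EE a | q.2 ∈ Z q.1})
    (hu : Measurable fun q : ℝ × EE (a + b) => u q.1 q.2)
    (hv : Measurable fun q : ℝ × EE (a + b) => v q.1 q.2)
    (hΦ : Measurable fun q : P × (ℝ × EE (a + b)) => Φ q.1 q.2.1 q.2.2)
    (C c c' : ℝ≥0∞) (hC : C ≠ ∞) (hc : c ≠ ∞) (hc' : c' ≠ ∞)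
    (h : ∀ t ∈ Icc (1 : ℝ) 2, ∀ z : EE b, ∫⁻ y in S, u t (jm a b y z) ≤
      C * (c * ∫⁻ p, ∫⁻ y in Z p, Φ p t (jm a b y z) ∂volume ∂π +
        c' * ∫⁻ y, v t (jm a b y z))) :
    ∫⁻ t in Icc (1 : ℝ) 2, ∫⁻ x in {x : EE (a + b) | p1 a b x ∈ S ∧ p2 a b x ∈ Y}, u t x ≤
      C * (c * ∫⁻ p, ∫⁻ t in Icc (1 : ℝ) 2, ∫⁻ x in {x : EE (a + b) | p1 a b x ∈ Z p ∧
          p2 a b x ∈ Y}, Φ p t x ∂volume ∂volume ∂π +
        c' * ∫⁻ t in Icc (1 : ℝ) 2, ∫⁻ x, v t x) := by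
  obtain ⟨hp, _, hcj, hc1, hc2, _⟩ := jm_facts (a := a) (b := b) hJM
  have mj := hcj.measurable
  -- indicator form
  set Ψ : P → ℝ → EE a → EE b → ℝ≥0∞ := fun p t y z =>
    (Z p).indicator (fun y => Φ p t (jm a b y z)) y with hΨ
  have hΨm : Measurable fun q : P × (ℝ × (EE a × EE b)) => Ψ q.1 q.2.1 q.2.2.1 q.2.2.2 := by
    have e1 : Measurable fun q : P × (ℝ × (EE a × EE b)) => jm a b q.2.2.1 q.2.2.2 :=
      mj.comp (by fun_prop : Measurable fun q : P × (ℝ × (EE a × EE b)) => (q.2.2.1, q.2.2.2))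
    have e2 : Measurable fun q : P × (ℝ × (EE a × EE b)) =>
        (q.1, (q.2.1, jm a b q.2.2.1 q.2.2.2)) :=
      measurable_fst.prodMk ((measurable_snd.fst).prodMk e1)
    have e3 := hΦ.comp e2
    have e4 : MeasurableSet {q : P × (ℝ × (EE a × EE b)) | q.2.2.1 ∈ Z q.1} :=
      hZ.preimage (by fun_prop : Measurable fun q : P × (ℝ × (EE a × EE b)) => (q.1, q.2.2.1))
    have e5 : (fun q : P × (ℝ × (EE a × EE b)) => Ψ q.1 q.2.1 q.2.2.1 q.2.2.2) =
        {q : P × (ℝ × (EE a × EE b)) | q.2.2.1 ∈ Z q.1}.indicator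
          (fun q => Φ q.1 q.2.1 (jm a b q.2.2.1 q.2.2.2)) := by
      funext q
      by_cases hq : q.2.2.1 ∈ Z q.1
      · rw [indicator_of_mem (by exact hq)]
        simp only [hΨ]
        rw [indicator_of_mem hq]
      · rw [indicator_of_notMem (by exact hq)]
        simp only [hΨ]
        rw [indicator_of_notMem hq]
    rw [e5]
    exact e3.indicator e4
  have hZp : ∀ p, MeasurableSet (Z p) := fun p =>
    hZ.preimage (by fun_prop : Measurable fun y : EE a => (p, y))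
  have hut : ∀ t, Measurable (u t) := fun t =>
    hu.comp (by fun_prop : Measurable fun x : EE (a + b) => (t, x))
  have hvt : ∀ t, Measurable (v t) := fun t =>
    hv.comp (by fun_prop : Measurable fun x : EE (a + b) => (t, x))
  have hΦt : ∀ p t, Measurable (Φ p t) := fun p t =>
    hΦ.comp (by fun_prop : Measurable fun x : EE (a + b) => (p, (t, x)))
  have hI : ∀ p t z, ∫⁻ y in Z p, Φ p t (jm a b y z) = ∫⁻ y, Ψ p t y z := by
    intro p t z
    rw [← lintegral_indicator (hZp p)]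
  have s1 : ∀ t, ∫⁻ x in {x : EE (a + b) | p1 a b x ∈ S ∧ p2 a b x ∈ Y}, u t x =
      ∫⁻ z in Y, ∫⁻ y in S, u t (jm a b y z) := fun t =>
    slice_set hJM _ (hut t) S Y hS hY
  have s2 : ∀ p t, ∫⁻ x in {x : EE (a + b) | p1 a b x ∈ Z p ∧ p2 a b x ∈ Y}, Φ p t x =
      ∫⁻ z in Y, ∫⁻ y, Ψ p t y z := by
    intro p t
    rw [slice_set hJM _ (hΦt p t) (Z p) Y (hZp p) hY]
    exact lintegral_congr fun z => hI p t z
  simp_rw [s1, s2]
  have ton := tonelli_par π (volume.restrict (Icc (1 : ℝ) 2)) (volume : Measure (EE a))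
    ((volume : Measure (EE b)).restrict Y) Ψ hΨm
  rw [← ton]
  have mv : Measurable fun q : (ℝ × EE b) × EE a => v q.1.1 (jm a b q.2 q.1.2) := by
    have e1 : Measurable fun q : (ℝ × EE b) × EE a => jm a b q.2 q.1.2 :=
      mj.comp (by fun_prop : Measurable fun q : (ℝ × EE b) × EE a => (q.2, q.1.2))
    exact hv.comp ((measurable_fst.fst).prodMk e1)
  have mv2 : Measurable fun q : ℝ × EE b => ∫⁻ y, v q.1 (jm a b y q.2) :=
    Measurable.lintegral_prod_right' mv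
  have mv3 : Measurable fun t : ℝ => ∫⁻ z in Y, ∫⁻ y, v t (jm a b y z) :=
    Measurable.lintegral_prod_right' mv2
  have m1 : Measurable fun q : (P × (ℝ × EE b)) × EE a => Ψ q.1.1 q.1.2.1 q.2 q.1.2.2 :=
    hΨm.comp (f := fun q : (P × (ℝ × EE b)) × EE a => (q.1.1, (q.1.2.1, (q.2, q.1.2.2))))
      (by fun_prop)
  have m2 : Measurable fun q : P × (ℝ × EE b) => ∫⁻ y, Ψ q.1 q.2.1 y q.2.2 :=
    Measurable.lintegral_prod_right' m1
  have m3 : Measurable fun q : (ℝ × EE b) × P => ∫⁻ y, Ψ q.2 q.1.1 y q.1.2 :=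
    m2.comp (f := fun q : (ℝ × EE b) × P => (q.2, q.1)) (by fun_prop)
  have m4 : Measurable fun q : ℝ × EE b => ∫⁻ p, ∫⁻ y, Ψ p q.1 y q.2 ∂volume ∂π :=
    Measurable.lintegral_prod_right' m3
  have m5 : Measurable fun t : ℝ => ∫⁻ z in Y, ∫⁻ p, ∫⁻ y, Ψ p t y z ∂volume ∂π :=
    Measurable.lintegral_prod_right' m4
  have key : ∀ t ∈ Icc (1 : ℝ) 2, ∫⁻ z in Y, ∫⁻ y in S, u t (jm a b y z) ≤
      C * (c * (∫⁻ z in Y, ∫⁻ p, ∫⁻ y, Ψ p t y z ∂volume ∂π) +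
        c' * (∫⁻ z in Y, ∫⁻ y, v t (jm a b y z))) := by
    intro t ht
    have k1 : Measurable fun z : EE b => ∫⁻ p, ∫⁻ y, Ψ p t y z ∂volume ∂π :=
      m4.comp (by fun_prop : Measurable fun z : EE b => (t, z))
    have k2 : Measurable fun z : EE b => ∫⁻ y, v t (jm a b y z) :=
      mv2.comp (by fun_prop : Measurable fun z : EE b => (t, z))
    rw [← lintegral_const_mul' _ _ hc, ← lintegral_const_mul' _ _ hc',
      ← lintegral_add_left (k1.const_mul _), ← lintegral_const_mul' _ _ hC]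
    refine lintegral_mono fun z => ?_
    have := h t ht z
    simp_rw [hI] at this
    exact this
  have k3 : ∫⁻ t in Icc (1 : ℝ) 2, ∫⁻ z in Y, ∫⁻ y, v t (jm a b y z) ≤
      ∫⁻ t in Icc (1 : ℝ) 2, ∫⁻ x, v t x := by
    refine lintegral_mono fun t => ?_
    simp only
    rw [slice hJM _ (hvt t)]
    exact setLIntegral_le_lintegral _ _
  calc ∫⁻ t in Icc (1 : ℝ) 2, ∫⁻ z in Y, ∫⁻ y in S, u t (jm a b y z)
      ≤ ∫⁻ t in Icc (1 : ℝ) 2, C * (c * (∫⁻ z in Y, ∫⁻ p, ∫⁻ y, Ψ p t y z ∂volume ∂π) +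
        c' * (∫⁻ z in Y, ∫⁻ y, v t (jm a b y z))) := by
        refine setLIntegral_mono' measurableSet_Icc fun t ht => key t ht
    _ = C * (c * (∫⁻ t in Icc (1 : ℝ) 2, ∫⁻ z in Y, ∫⁻ p, ∫⁻ y, Ψ p t y z ∂volume ∂π) +
        c' * (∫⁻ t in Icc (1 : ℝ) 2, ∫⁻ z in Y, ∫⁻ y, v t (jm a b y z))) := by
        rw [lintegral_const_mul' _ _ hC, lintegral_add_left (m5.const_mul _),
          lintegral_const_mul' _ _ hc, lintegral_const_mul' _ _ hc']
    _ ≤ _ := by gcongr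

end Pool.Agent.H93.TN
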