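import Pool.Agent.H93.TN.OBd

/-! # OB, part 5: two opposite bands, facts about slices -/

set_option autoImplicit false

namespace Pool.Agent.H93.TN

open MeasureTheory Set FourierTransform
open Pool.Agent.H83.LS Pool.Agent.H93.AR Pool.Agent.H54.LS
open Pool.Agent.H83.AR hiding T_AM2 T_AC2
open Pool.Agent.H84.BR Pool.Agent.H84.B2
open scoped ENNReal NNReal

/-- symbol of two opposite bands -/
noncomputable def as2 (a : ℕ) (Lam φ : ℝ) (w ξ : EE a) : ℂ :=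
  sy a ch2 Lam (2 * φ) w ξ + sy a ch2 Lam (2 * φ) (-w) ξ

theorem MK_int {n : ℕ} (hCNC : T_CNC) {s : EE n → ℂ} (hs : SC s) :
    Integrable (MK s) ∧ Measurable (MK s) := by
  have h := hCNC n s s (fun _ => 0) 0 hs hs measurable_const (by simp)
  exact ⟨h.1, h.2.1⟩

theorem SC.bd {n : ℕ} {s : EE n → ℂ} (hs : SC s) : ∃ B, ∀ ξ, ‖s ξ‖ ≤ B :=
  hs.2.exists_bound_of_continuous hs.1.continuous

theorem as2_facts {a : ℕ} {C₄ Lam φ : ℝ} (hCNC : T_CNC) (hK : KC a C₄) (hL : 0 < Lam)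
    (hφ : 0 < φ) (hφ2 : φ ≤ 1 / 16) (w : EE a) (hw : ‖w‖ = 1) :
    SC (as2 a Lam φ w) ∧ (∀ ξ, ‖as2 a Lam φ w ξ‖ ≤ 2 * C₄) ∧
      ∫ x, ‖MK (as2 a Lam φ w) x‖ ≤ 2 * C₄ := by
  have hw' : ‖-w‖ = 1 := by rw [norm_neg]; exact hw
  have h1 := hK.sc Lam (2 * φ) w hL (by linarith) (by linarith) hw
  have h2 := hK.sc Lam (2 * φ) (-w) hL (by linarith) (by linarith) hw'
  refine ⟨h1.add h2, fun ξ => ?_, ?_⟩
  · unfold as2
    have h3 := hK.le Lam (2 * φ) w ξ hL (by linarith) (by linarith) hw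
    have h4 := hK.le Lam (2 * φ) (-w) ξ hL (by linarith) (by linarith) hw'
    exact (norm_add_le _ _).trans (by linarith)
  · have h3 := hK.l1 Lam (2 * φ) w hL (by linarith) (by linarith) hw
    have h4 := hK.l1 Lam (2 * φ) (-w) hL (by linarith) (by linarith) hw'
    have i1 := (MK_int hCNC h1).1
    have i2 := (MK_int hCNC h2).1
    have h5 : ∫ x, ‖MK (as2 a Lam φ w) x‖ ≤
        ∫ x, (‖MK (sy a ch2 Lam (2 * φ) w) x‖ + ‖MK (sy a ch2 Lam (2 * φ) (-w)) x‖) := by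
      refine integral_mono_of_nonneg (Filter.Eventually.of_forall fun x => norm_nonneg _)
        (i1.norm.add i2.norm) (Filter.Eventually.of_forall fun x => ?_)
      have h6 : MK (as2 a Lam φ w) x = MK (sy a ch2 Lam (2 * φ) w) x +
          MK (sy a ch2 Lam (2 * φ) (-w)) x := MK_add h1.int h2.int x
      simp only [h6]
      exact norm_add_le _ _
    rw [integral_add i1.norm i2.norm] at h5
    linarith

theorem cn_int {n : ℕ} (hCNC : T_CNC) {s : EE n → ℂ} (hs : SC s) {v : EE n → ℂ} {M : ℝ}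
    (hv : Measurable v) (hb : ∀ x, ‖v x‖ ≤ M) (x : EE n) :
    Integrable fun y => MK s (x - y) * v y := by
  have h1 := (MK_int hCNC hs).1.comp_sub_left x
  refine (h1.bdd_mul (c := M) hv.aestronglyMeasurable
    (Filter.Eventually.of_forall hb)).congr (Filter.Eventually.of_forall fun y => ?_)
  exact mul_comm _ _

theorem Aw_eq {a : ℕ} {C₄ Lam φ M : ℝ} (hCNC : T_CNC) (hK : KC a C₄) (hL : 0 < Lam)
    (hφ : 0 < φ) (hφ2 : φ ≤ 1 / 16) (w : EE a) (hw : ‖w‖ = 1) {v : EE a → ℂ}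
    (hv : Measurable v) (hb : ∀ x, ‖v x‖ ≤ M) (x : EE a) :
    Aw a Lam φ w v x = cn (MK (as2 a Lam φ w)) v x := by
  have hw' : ‖-w‖ = 1 := by rw [norm_neg]; exact hw
  have h1 := hK.sc Lam (2 * φ) w hL (by linarith) (by linarith) hw
  have h2 := hK.sc Lam (2 * φ) (-w) hL (by linarith) (by linarith) hw'
  unfold Aw Qb cn
  rw [← integral_add (cn_int hCNC h1 hv hb x) (cn_int hCNC h2 hv hb x)]
  refine integral_congr_ae (Filter.Eventually.of_forall fun y => ?_)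
  have h6 : MK (as2 a Lam φ w) (x - y) = MK (sy a ch2 Lam (2 * φ) w) (x - y) +
      MK (sy a ch2 Lam (2 * φ) (-w)) (x - y) := MK_add h1.int h2.int _
  simp only [h6]
  ring

theorem sq_add_le (x y : ℂ) : ‖x + y‖ₑ ^ 2 ≤ 2 * (‖x‖ₑ ^ 2 + ‖y‖ₑ ^ 2) := by
  have h1 : ‖x + y‖ₑ ≤ ‖x‖ₑ + ‖y‖ₑ := enorm_add_le _ _
  have h2 := ENNReal.rpow_add_le_mul_rpow_add_rpow ‖x‖ₑ ‖y‖ₑ (p := 2) (by norm_num)
  have h3 : (2 : ℝ) - 1 = 1 := by norm_num
  rw [h3, ENNReal.rpow_one, ENNReal.rpow_two, ENNReal.rpow_two, ENNReal.rpow_two] at h2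
  exact (pow_le_pow_left₀ zero_le h1 2).trans h2

theorem cb1_meas1 {a b : ℕ} (hJM : T_JM) (Lam r : ℝ) (f : EE (a + b) → ℂ) (hf : Measurable f)
    (u : EE a) : Measurable fun x => ‖cb1 a b (MK (sy a ch2 Lam r u)) f x‖ₑ ^ 2 := by
  have h1 : Measurable (Function.uncurry fun (u : EE a) (x : EE (a + b)) =>
    cb1 a b (MK (sy a ch2 Lam r u)) f x) := cb1_meas hJM Lam r f hf
  exact (h1.of_uncurry_left (x := u)).enorm.pow_const 2

/-- almost orthogonality for the two opposite bands -/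
theorem wsum {a b : ℕ} {C₄ : ℝ} (hORT : T_ORT) (hCNC : T_CNC) (hSI : T_SI) (hJM : T_JM)
    (hK : KC a C₄) (ha : 1 ≤ a) :
    ∃ C : ℝ≥0, ∀ (Lam φ A : ℝ) (f : EE (a + b) → ℂ), 0 < Lam → 0 < φ → φ ≤ 1 / 16 → BI A f →
    ∫⁻ w : Sp a, ∫⁻ x, ‖cb1 a b (MK (as2 a Lam φ (w : EE a))) f x‖ₑ ^ 2 ∂volume ∂(sg a) ≤
      C * ENNReal.ofReal (φ ^ (a - 1)) * ∫⁻ x, ‖f x‖ₑ ^ 2 := by
  obtain ⟨C, hC⟩ := ort1 (b := b) hORT hJM ha
  refine ⟨4 * C * 2 ^ (a - 1), fun Lam φ A f hL hφ hφ2 hf => ?_⟩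
  obtain ⟨hp, hj, hc, hc1, hc2, _⟩ := jm_facts (a := a) (b := b) hJM
  have h0 := hC Lam (2 * φ) A f hL (by linarith) (by linarith) hf
  set g : EE a → ℝ≥0∞ := fun w =>
    ∫⁻ x, ‖cb1 a b (MK (sy a ch2 Lam (2 * φ) w)) f x‖ₑ ^ 2 with hg
  have hgm : Measurable g := by
    have h1 : Measurable fun q : EE a × EE (a + b) =>
      ‖cb1 a b (MK (sy a ch2 Lam (2 * φ) q.1)) f q.2‖ₑ ^ 2 :=
      (cb1_meas hJM Lam (2 * φ) f hf.1).enorm.pow_const 2
    exact Measurable.lintegral_prod_right' h1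
  have h1 : ∫⁻ w : Sp a, g (-(w : EE a)) ∂(sg a) = ∫⁻ w : Sp a, g w ∂(sg a) :=
    (hSI a (LinearIsometryEquiv.neg ℝ) ha).1 g hgm
  have h2 : ∀ w : Sp a, ∫⁻ x, ‖cb1 a b (MK (as2 a Lam φ (w : EE a))) f x‖ₑ ^ 2 ≤
      2 * (g w + g (-(w : EE a))) := by
    intro w
    have hw : ‖(w : EE a)‖ = 1 := by simp
    have m1 := cb1_meas1 hJM Lam (2 * φ) f hf.1 (w : EE a)
    rw [hg]
    simp only
    rw [← lintegral_add_left m1, ← lintegral_const_mul' _ _ (by norm_num)]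
    refine lintegral_mono fun x => ?_
    have h3 : cb1 a b (MK (as2 a Lam φ (w : EE a))) f x =
        cb1 a b (MK (sy a ch2 Lam (2 * φ) (w : EE a))) f x +
        cb1 a b (MK (sy a ch2 Lam (2 * φ) (-(w : EE a)))) f x :=
      (Aw_eq hCNC hK hL hφ hφ2 (w : EE a) hw (v := fun y => f (jm a b y (p2 a b x)))
        (hf.1.comp (hc.measurable.comp (by fun_prop : Measurable fun y : EE a =>
          (y, p2 a b x)))) (fun y => hf.2.2 _) (p1 a b x)).symm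
    rw [h3]
    exact sq_add_le _ _
  have hgs : Measurable fun w : Sp a => g (w : EE a) := hgm.comp measurable_subtype_coe
  calc ∫⁻ w : Sp a, ∫⁻ x, ‖cb1 a b (MK (as2 a Lam φ (w : EE a))) f x‖ₑ ^ 2 ∂volume ∂(sg a)
      ≤ ∫⁻ w : Sp a, 2 * (g w + g (-(w : EE a))) ∂(sg a) := lintegral_mono h2
    _ = 2 * (∫⁻ w : Sp a, g w ∂(sg a) + ∫⁻ w : Sp a, g (-(w : EE a)) ∂(sg a)) := by
        rw [lintegral_const_mul' _ _ (by norm_num), lintegral_add_left hgs]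
    _ = 4 * ∫⁻ w : Sp a, g w ∂(sg a) := by
        rw [h1]
        ring
    _ ≤ 4 * (C * ENNReal.ofReal ((2 * φ) ^ (a - 1)) * ∫⁻ x, ‖f x‖ₑ ^ 2) := by gcongr
    _ = _ := by
        rw [mul_pow, ENNReal.ofReal_mul (by positivity), ENNReal.ofReal_pow (by norm_num)]
        push_cast
        simp only [ENNReal.ofReal_ofNat]
        ring

/-- measurability of the symbols of two bands -/
theorem as2_meas (a : ℕ) (Lam φ : ℝ) : Measurable fun q : EE a × EE a => as2 a Lam φ q.1 q.2 := by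
  unfold as2
  have h1 := sy_meas (n := a) ch2_cont Lam (2 * φ)
  have h2 : Measurable fun q : EE a × EE a => sy a ch2 Lam (2 * φ) (-q.1) q.2 :=
    h1.comp (by fun_prop : Measurable fun q : EE a × EE a => (-q.1, q.2))
  exact h1.add h2

section
variable {a b : ℕ} {lam Lam L M A : ℝ} {m : ℝ → EE (a + b) → ℂ}
  {R : (EE (a + b) → ℂ) → EE (a + b) → ℂ}

theorem MF1_chis (hL : 0 < Lam) (hm : MF1 a b M lam Lam m) (t : ℝ) (ξ : EE (a + b)) :
    m t ξ * ((chis (‖p1 a b ξ‖ / Lam) : ℝ) : ℂ) = m t ξ := by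
  by_cases h0 : m t ξ = 0
  · rw [h0, zero_mul]
  obtain ⟨_, h1, h2⟩ := hm.2.2.1 t ξ h0
  have h8 : 1 / 2 ≤ ‖p1 a b ξ‖ / Lam := by
    rw [le_div_iff₀ hL]; linarith
  have h9 : ‖p1 a b ξ‖ / Lam ≤ 2 := by
    rw [div_le_iff₀ hL]; linarith
  unfold chis
  rw [Pool.Agent.H14.LS.eta0_one (by linarith), Pool.Agent.H14.LS.eta0_zero (by linarith)]
  simp

/-- block convolutions of multipliers, on slices -/
theorem cn_slice (ha : 1 ≤ a) (hb : 1 ≤ b) (hCB1 : T_CB1) (hJM : T_JM) {s : EE a → ℂ}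
    (hs : SC s) {m' : EE (a + b) → ℂ} (hm : Measurable m') (hi : Integrable m')
    {G : EE (a + b) → ℂ} (hG : BI A G) (y : EE a) (z : EE b) :
    cn (MK s) (fun y => MM m' G (jm a b y z)) y =
      MM (fun ξ => m' ξ * s (p1 a b ξ)) G (jm a b y z) := by
  obtain ⟨hp, hj, hc, hc1, hc2, _⟩ := jm_facts (a := a) (b := b) hJM
  obtain ⟨B, hB⟩ := hs.bd
  have h := ((hCB1 a b s G A B ha hb hs hB hG).2.2.2.2 m' hm hi (jm a b y z)).2
  rw [← h]
  unfold cb1 cn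
  rw [(hp y z).1, (hp y z).2]

theorem mul_mi (hJM : T_JM) {s : EE a → ℂ} (hs : SC s) {m' : EE (a + b) → ℂ}
    (hm : Measurable m') (hi : Integrable m') :
    Measurable (fun ξ => m' ξ * s (p1 a b ξ)) ∧ Integrable (fun ξ => m' ξ * s (p1 a b ξ)) := by
  obtain ⟨hp, hj, hc, hc1, hc2, _⟩ := jm_facts (a := a) (b := b) hJM
  obtain ⟨B, hB⟩ := hs.bd
  refine ⟨hm.mul (hs.1.continuous.measurable.comp hc1.measurable), ?_⟩
  refine (hi.bdd_mul (c := B) (hs.1.continuous.comp hc1).aestronglyMeasurable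
    (Filter.Eventually.of_forall fun ξ => hB _)).congr
      (Filter.Eventually.of_forall fun ξ => mul_comm _ _)

/-- the slices are angular averages -/
theorem slc (ha : 1 ≤ a) (hb : 1 ≤ b) (hL1 : 1 ≤ L) (hCMT : T_CMT) (hJM : T_JM)
    (hm : MF1 a b M lam Lam m) {H : EE (a + b) → ℂ} (hH : BI A H) (t : ℝ) (y : EE a) (z : EE b) :
    MM (m t) (A1 a b L H) (jm a b y z) = PL a L (fun y => MM (m t) H (jm a b y z)) y := by
  obtain ⟨hp, hj, hc, hc1, hc2, _⟩ := jm_facts (a := a) (b := b) hJM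
  obtain ⟨m1, m2⟩ := m_int hm t
  rw [(hCMT a b L A H ha hb hL1 hH).2 (m t) m1 m2 ⟨1, hm.2.1 t⟩ (hm.2.2.2.1 t)]
  unfold A1 PL
  rw [(hp y z).1, (hp y z).2]

end

end Pool.Agent.H93.TN
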