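import Pool.Agent.H93.TN.OBe

/-! # OB, part 6: both cases -/

set_option autoImplicit false

namespace Pool.Agent.H93.TN

open MeasureTheory Set FourierTransform
open Pool.Agent.H83.LS Pool.Agent.H93.AR Pool.Agent.H54.LS
open Pool.Agent.H83.AR hiding T_AM2 T_AC2
open Pool.Agent.H84.BR Pool.Agent.H84.B2
open scoped ENNReal NNReal

theorem chis_RC : RC chis := by
  have h0 := Pool.Agent.H14.LS.eta0_smooth
  refine ⟨?_, ?_⟩
  · unfold chis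
    exact (h0.comp (contDiff_id.div_const 2)).sub (h0.comp (contDiff_const.mul contDiff_id))
  · intro s hs
    unfold chis at hs
    constructor
    · by_contra hc
      push Not at hc
      apply hs
      rw [Pool.Agent.H14.LS.eta0_one (by linarith : s / 2 ≤ 1),
        Pool.Agent.H14.LS.eta0_one (by linarith : 4 * s ≤ 1), sub_self]
    · by_contra hc
      push Not at hc
      apply hs
      rw [Pool.Agent.H14.LS.eta0_zero (by linarith : 2 ≤ s / 2),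
        Pool.Agent.H14.LS.eta0_zero (by linarith : 2 ≤ 4 * s), sub_self]

/-- powers of the two apertures -/
theorem pow_r {k : ℕ} {q r φ : ℝ} (hr : 0 < r) (hφ : 0 < φ) :
    φ ^ ((k : ℝ) * (q - 3)) * r ^ (-((k : ℝ) * (q - 1))) * ((2 * r) ^ k * φ ^ k) =
      2 ^ k * (φ / r) ^ ((k : ℝ) * (q - 2)) := by
  rw [mul_pow, Real.div_rpow hφ.le hr.le]
  have h1 : φ ^ ((k : ℝ) * (q - 3)) * φ ^ k = φ ^ ((k : ℝ) * (q - 2)) := by
    rw [← Real.rpow_natCast φ k, ← Real.rpow_add hφ]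
    congr 1
    ring
  have h2 : r ^ (-((k : ℝ) * (q - 1))) * r ^ k = (r ^ ((k : ℝ) * (q - 2)))⁻¹ := by
    rw [← Real.rpow_natCast r k, ← Real.rpow_add hr, ← Real.rpow_neg hr.le]
    congr 1
    ring
  calc φ ^ ((k : ℝ) * (q - 3)) * r ^ (-((k : ℝ) * (q - 1))) * (2 ^ k * r ^ k * φ ^ k)
      = 2 ^ k * (φ ^ ((k : ℝ) * (q - 3)) * φ ^ k) * (r ^ (-((k : ℝ) * (q - 1))) * r ^ k) := by
        ring
    _ = _ := by
        rw [h1, h2]
        ring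

/-- the tail -/
theorem tail {q lam M A : ℝ} {N : ℕ} (hl : 1 ≤ lam) (hM : 0 ≤ M) (hA : 0 ≤ A) :
    (lam ^ (N + ⌈M * (q - 2)⌉₊))⁻¹ * (M * lam ^ M * A) ^ (q - 2) ≤
      M ^ (q - 2) * ((lam ^ N)⁻¹ * A ^ (q - 2)) := by
  have hl0 : 0 < lam := by linarith
  rw [Real.mul_rpow (by positivity) hA, Real.mul_rpow hM (by positivity), ← Real.rpow_mul hl0.le,
    pow_add, mul_inv]
  have h1 : lam ^ (M * (q - 2)) ≤ lam ^ ⌈M * (q - 2)⌉₊ := by
    rw [← Real.rpow_natCast]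
    exact Real.rpow_le_rpow_of_exponent_le hl (Nat.le_ceil _)
  have h2 : (lam ^ ⌈M * (q - 2)⌉₊)⁻¹ * lam ^ (M * (q - 2)) ≤ 1 := by
    rw [inv_mul_le_iff₀ (by positivity), mul_one]
    exact h1
  calc (lam ^ N)⁻¹ * (lam ^ ⌈M * (q - 2)⌉₊)⁻¹ *
        (M ^ (q - 2) * lam ^ (M * (q - 2)) * A ^ (q - 2))
      = M ^ (q - 2) * ((lam ^ N)⁻¹ * A ^ (q - 2)) *
        ((lam ^ ⌈M * (q - 2)⌉₊)⁻¹ * lam ^ (M * (q - 2))) := by ring
    _ ≤ M ^ (q - 2) * ((lam ^ N)⁻¹ * A ^ (q - 2)) * 1 := by gcongr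
    _ = _ := by ring

section
variable {a b : ℕ} {q lam Lam L M A : ℝ} {m : ℝ → EE (a + b) → ℂ}
  {R : (EE (a + b) → ℂ) → EE (a + b) → ℂ}

/-- the energy -/
theorem energy (hPLE : T_PLE) (hAM1 : T_AM1) (ha : 1 ≤ a) (hL1 : 1 ≤ L)
    (hm : MF1 a b M lam Lam m) (hR : RP a b L R) {h : EE (a + b) → ℂ} (hh : BI A h) :
    ∫⁻ t in Icc (1 : ℝ) 2, ∫⁻ x, ‖MM (m t) (A1 a b L (R h)) x‖ₑ ^ 2 ≤ ∫⁻ x, ‖h x‖ₑ ^ 2 := by
  have av := hAM1 a b L ha hL1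
  have hRh := hR.bi A h hh
  have hG : BI A (A1 a b L (R h)) := avp_bi av A _ hRh
  have h1 : ∀ t, ∫⁻ x, ‖MM (m t) (A1 a b L (R h)) x‖ₑ ^ 2 ≤ ∫⁻ x, ‖h x‖ₑ ^ 2 := by
    intro t
    obtain ⟨m1, m2⟩ := m_int hm t
    exact ((hPLE (a + b) (m t) _ m1 (hm.2.1 t) m2 hG.2.1 ⟨A, hG.2.2⟩ hG.1).2.trans
      (avp_l2 av _ hRh.1)).trans (hR.l2 A h hh)
  calc ∫⁻ t in Icc (1 : ℝ) 2, ∫⁻ x, ‖MM (m t) (A1 a b L (R h)) x‖ₑ ^ 2
      ≤ ∫⁻ t in Icc (1 : ℝ) 2, ∫⁻ x, ‖h x‖ₑ ^ 2 := lintegral_mono h1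
    _ = ∫⁻ x, ‖h x‖ₑ ^ 2 := by
        rw [setLIntegral_const, Real.volume_Icc]
        norm_num

/-- the evolution is jointly measurable -/
theorem ev_meas (hm : MF1 a b M lam Lam m) {G : EE (a + b) → ℂ} (hG : BI A G) :
    Measurable fun q : ℝ × EE (a + b) => MM (m q.1) G q.2 :=
  MM_measP (m := m) hm.1.measurable (ft_meas hG.2.1)

/-- joint measurability of the bands -/
theorem ev_measP (hJM : T_JM) (hm : MF1 a b M lam Lam m) {G : EE (a + b) → ℂ} (hG : BI A G)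
    {P : Type} [MeasurableSpace P] {κ : P → EE a → ℂ}
    (hκ : Measurable fun q : P × EE a => κ q.1 q.2) (q : ℝ) :
    Measurable fun w : P × (ℝ × EE (a + b)) =>
      ‖MM (fun ξ => m w.2.1 ξ * κ w.1 (p1 a b ξ)) G w.2.2‖ₑ ^ q := by
  obtain ⟨hp, hj, hc, hc1, hc2, _⟩ := jm_facts (a := a) (b := b) hJM
  have h1 : Measurable fun w : (P × ℝ) × EE (a + b) =>
      (fun (s : P × ℝ) (ξ : EE (a + b)) => m s.2 ξ * κ s.1 (p1 a b ξ)) w.1 w.2 := by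
    have e1 : Measurable fun w : (P × ℝ) × EE (a + b) => m w.1.2 w.2 :=
      hm.1.measurable.comp (by fun_prop : Measurable fun w : (P × ℝ) × EE (a + b) =>
        (w.1.2, w.2))
    have e2 : Measurable fun w : (P × ℝ) × EE (a + b) => p1 a b w.2 :=
      hc1.measurable.comp measurable_snd
    have e3 : Measurable fun w : (P × ℝ) × EE (a + b) => κ w.1.1 (p1 a b w.2) :=
      hκ.comp ((measurable_fst.fst).prodMk e2)
    exact e1.mul e3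
  have h2 := MM_measP (m := fun (s : P × ℝ) (ξ : EE (a + b)) => m s.2 ξ * κ s.1 (p1 a b ξ)) h1
    (ft_meas hG.2.1)
  have h3 : Measurable fun w : P × (ℝ × EE (a + b)) => ((w.1, w.2.1), w.2.2) := by fun_prop
  exact (h2.comp h3).enorm.pow_const q

end

end Pool.Agent.H93.TN
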