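import Pool.Agent.H93.TN.OBf

/-! # OB, part 7: the inequalities on slices -/

set_option autoImplicit false

namespace Pool.Agent.H93.TN

open MeasureTheory Set FourierTransform
open Pool.Agent.H83.LS Pool.Agent.H93.AR Pool.Agent.H54.LS
open Pool.Agent.H83.AR hiding T_AM2 T_AC2
open Pool.Agent.H84.BR Pool.Agent.H84.B2
open scoped ENNReal NNReal

theorem dl_facts {lam Lam : ℝ} (h1 : 1 ≤ lam) (h2 : Real.sqrt lam ≤ Lam) :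
    0 < Lam ∧ 0 < dl lam Lam ∧ dl lam Lam ≤ 1 / 16 := by
  have h3 : 1 ≤ Real.sqrt lam := by
    rw [Real.one_le_sqrt]; exact h1
  have h4 : 0 < Lam := by linarith
  refine ⟨h4, ?_, ?_⟩
  · unfold dl
    positivity
  · unfold dl
    rw [div_le_div_iff₀ (by positivity) (by norm_num)]
    linarith

theorem slab_meas {n : ℕ} {P : Type} [MeasurableSpace P] {c : P → EE n} (hc : Measurable c)
    (s' : ℝ) : MeasurableSet {w : P × EE n | w.2 ∈ {y : EE n | |inner ℝ y (c w.1)| ≤ s'}} := by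
  have h1 : Measurable fun w : P × EE n => |(inner ℝ w.2 (c w.1) : ℝ)| := by
    have h2 : Measurable fun w : P × EE n => c w.1 := hc.comp measurable_fst
    have h3 : Measurable fun w : P × EE n => (inner ℝ w.2 (c w.1) : ℝ) :=
      measurable_snd.inner h2
    exact continuous_abs.measurable.comp h3
  exact h1 measurableSet_Iic

theorem ball_meas {n : ℕ} (ρ σ : ℝ) : MeasurableSet {y : EE n | ρ ≤ ‖y‖ ∧ ‖y‖ ≤ σ} := by
  have h1 : Measurable fun y : EE n => ‖y‖ := measurable_norm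
  exact (h1 measurableSet_Ici).inter (h1 measurableSet_Iic)

/-- FLL with a given constant -/
def FLLc (n : ℕ) (q ε : ℝ) (N : ℕ) (C : ℝ≥0) : Prop :=
  ∀ (lam Lam σ M : ℝ) (B : Set (Sp n)) (v : EE n → ℂ), 1 ≤ lam → Real.sqrt lam ≤ Lam →
  Lam ≤ 4 * lam → 1 / Lam ≤ σ → MeasurableSet B → Measurable v → (∀ x, ‖v x‖ ≤ M) →
  (∀ x, C0 n Lam v x = v x) → (∀ u : Sp n, u ∉ B → ∀ x, Qb n Lam (dl lam Lam) (u : EE n) v x = 0) →
  ∫⁻ x in {x : EE n | ‖x‖ ≤ σ}, ‖v x‖ₑ ^ q ≤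
    C * (ENNReal.ofReal (dl lam Lam ^ (-(((n : ℝ) - 1) * (q - 1)))) * (sg n B) ^ (q - 2) *
      ∫⁻ u in B, ∫⁻ x in {x : EE n | |inner ℝ x (u : EE n)| ≤ 2 * lam ^ ε * σ},
        ‖Qb n Lam (dl lam Lam) (u : EE n) v x‖ₑ ^ q ∂volume ∂(sg n) +
      ENNReal.ofReal ((lam ^ N)⁻¹ * M ^ (q - 2)) * ∫⁻ x, ‖v x‖ₑ ^ 2)

/-- LC2 with a given constant -/
def LC2c (n : ℕ) (q ε : ℝ) (N : ℕ) (C : ℝ≥0) : Prop :=
  ∀ (lam Lam L ρ σ φ M : ℝ) (U : EE n → ℂ), 1 ≤ lam → Real.sqrt lam ≤ Lam → Lam ≤ 4 * lam →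
  1 ≤ L → 0 < ρ → ρ ≤ 4 → 1 / Lam ≤ σ → dl lam Lam ≤ φ → φ ≤ 1 / 16 →
  lam ^ ε * (L / (ρ * Lam)) ≤ φ → lam ^ ε / Real.sqrt (ρ * Lam) ≤ φ →
  Measurable U → (∀ y, ‖U y‖ ≤ M) → (∀ x, C0 n Lam (PL n L U) x = PL n L U x) →
  ∫⁻ x in {x : EE n | ρ ≤ ‖x‖ ∧ ‖x‖ ≤ σ}, ‖PL n L U x‖ₑ ^ q ≤
    C * (ENNReal.ofReal (φ ^ (((n : ℝ) - 1) * (q - 3)) *
        dl lam Lam ^ (-(((n : ℝ) - 1) * (q - 1)))) *
      ∫⁻ w : Sp n, ∫⁻ u : Sp n, ∫⁻ x in {x : EE n | |inner ℝ x (u : EE n)| ≤ 2 * lam ^ ε * σ},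
        ‖Qb n Lam (dl lam Lam) (u : EE n) (Aw n Lam φ (w : EE n) (PL n L U)) x‖ₑ ^ q
          ∂volume ∂(sg n) ∂(sg n) +
      ENNReal.ofReal ((lam ^ N)⁻¹ * M ^ (q - 2)) * ∫⁻ x, ‖PL n L U x‖ₑ ^ 2)

/-- the symbol of one band -/
noncomputable def ms1 (a b : ℕ) (Lam r : ℝ) (m : EE (a + b) → ℂ) (u : EE a)
    (ξ : EE (a + b)) : ℂ := m ξ * sy a ch2 Lam r u (p1 a b ξ)

/-- the symbol of one band inside two opposite bands -/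
noncomputable def ms2 (a b : ℕ) (Lam r φ : ℝ) (m : EE (a + b) → ℂ) (w u : EE a)
    (ξ : EE (a + b)) : ℂ := m ξ * as2 a Lam φ w (p1 a b ξ) * sy a ch2 Lam r u (p1 a b ξ)

section
variable {a b : ℕ} {q ε lam Lam L ρ φ σ M A C₄ : ℝ} {N : ℕ} {m : ℝ → EE (a + b) → ℂ}

/-- measurability of slices -/
theorem slm (hJM : T_JM) (hm : MF1 a b M lam Lam m) {G : EE (a + b) → ℂ} (hG : BI A G) (t : ℝ)
    (z : EE b) : Measurable fun y : EE a => MM (m t) G (jm a b y z) := by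
  obtain ⟨hp, hj, hc, hc1, hc2, _⟩ := jm_facts (a := a) (b := b) hJM
  have e1 : Measurable fun y : EE a => jm a b y z :=
    hc.measurable.comp (by fun_prop : Measurable fun y : EE a => (y, z))
  have e2 : Measurable (MM (m t) G) := by
    have h1 : Measurable (Function.uncurry fun (t : ℝ) (x : EE (a + b)) => MM (m t) G x) :=
      ev_meas hm hG
    exact h1.of_uncurry_left (x := t)
  exact e2.comp e1

/-- the slices are reproduced by the cutoff -/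
theorem slC0 (ha : 1 ≤ a) (hb : 1 ≤ b) (hCB1 : T_CB1) (hRAD : T_RAD) (hJM : T_JM)
    (hL0 : 0 < Lam) (hm : MF1 a b M lam Lam m) {G : EE (a + b) → ℂ} (hG : BI A G) (t : ℝ)
    (y : EE a) (z : EE b) :
    C0 a Lam (fun y => MM (m t) G (jm a b y z)) y = MM (m t) G (jm a b y z) := by
  obtain ⟨m1, m2⟩ := m_int hm t
  obtain ⟨C, _, hC⟩ := hRAD a 0 chis ha chis_RC
  have h1 := cn_slice ha hb hCB1 hJM (hC Lam hL0).1 m1 m2 hG y z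
  unfold C0
  rw [h1]
  congr 1
  funext ξ
  exact MF1_chis hL0 hm t ξ

theorem slice_I {C₁ : ℝ≥0} (ha : 1 ≤ a) (hb : 1 ≤ b) (hFLL : FLLc a q ε N C₁) (hCB1 : T_CB1)
    (hRAD : T_RAD) (hJM : T_JM) (hK : KC a C₄) (hl : 1 ≤ lam) (hlL : Real.sqrt lam ≤ Lam)
    (hL4 : Lam ≤ 4 * lam) (hσ : 1 / Lam ≤ σ) (hm : MF1 a b M lam Lam m)
    {G : EE (a + b) → ℂ} (hG : BI A G) (t : ℝ) (ht : t ∈ Icc (1 : ℝ) 2) (z : EE b) :
    ∫⁻ y in {y : EE a | 0 ≤ ‖y‖ ∧ ‖y‖ ≤ σ}, ‖MM (m t) G (jm a b y z)‖ₑ ^ q ≤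
      C₁ * (ENNReal.ofReal (dl lam Lam ^ (-(((a : ℝ) - 1) * (q - 1)))) * (sg a univ) ^ (q - 2) *
      ∫⁻ u : Sp a, ∫⁻ y in {y : EE a | |inner ℝ y (u : EE a)| ≤ 2 * lam ^ ε * σ},
        ‖MM (ms1 a b Lam (dl lam Lam) (m t) (u : EE a)) G (jm a b y z)‖ₑ ^ q ∂volume ∂(sg a) +
      ENNReal.ofReal ((lam ^ N)⁻¹ * (M * lam ^ M * A) ^ (q - 2)) *
        ∫⁻ y : EE a, ‖MM (m t) G (jm a b y z)‖ₑ ^ 2) := by
  obtain ⟨hL0, hr0, hr1⟩ := dl_facts hl hlL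
  obtain ⟨m1, m2⟩ := m_int hm t
  have h2 := hFLL lam Lam σ (M * lam ^ M * A) univ (fun y => MM (m t) G (jm a b y z)) hl hlL
    hL4 hσ MeasurableSet.univ (slm hJM hm hG t z) (fun y => hm.2.2.2.2 t ht A G hG _)
    (fun y => slC0 ha hb hCB1 hRAD hJM hL0 hm hG t y z) (fun u hu => absurd (mem_univ u) hu)
  have h3 : ∀ (u : Sp a) (y : EE a), Qb a Lam (dl lam Lam) (u : EE a)
      (fun y => MM (m t) G (jm a b y z)) y =
      MM (ms1 a b Lam (dl lam Lam) (m t) (u : EE a)) G (jm a b y z) := by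
    intro u y
    have hu : ‖(u : EE a)‖ = 1 := by simp
    exact cn_slice ha hb hCB1 hJM (hK.sc Lam _ u hL0 hr0 (by linarith) hu) m1 m2 hG y z
  simp only [h3, Measure.restrict_univ] at h2
  have h4 : {y : EE a | 0 ≤ ‖y‖ ∧ ‖y‖ ≤ σ} = {y : EE a | ‖y‖ ≤ σ} := by
    ext y
    simp
  rw [h4]
  exact h2

theorem slice_II {C₁ : ℝ≥0} (ha : 1 ≤ a) (hb : 1 ≤ b) (hLC2 : LC2c a q ε N C₁) (hCB1 : T_CB1)
    (hCMT : T_CMT) (hRAD : T_RAD) (hCNC : T_CNC) (hJM : T_JM) (hK : KC a C₄) (hl : 1 ≤ lam)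
    (hlL : Real.sqrt lam ≤ Lam) (hL4 : Lam ≤ 4 * lam) (hL1 : 1 ≤ L) (hσ : 1 / Lam ≤ σ)
    (hρ : 0 < ρ) (hρ4 : ρ ≤ 4) (hφ : dl lam Lam ≤ φ) (hφ2 : φ ≤ 1 / 16)
    (h5 : lam ^ ε * (L / (ρ * Lam)) ≤ φ) (h6 : lam ^ ε / Real.sqrt (ρ * Lam) ≤ φ)
    (hm : MF1 a b M lam Lam m) {H : EE (a + b) → ℂ} (hH : BI A H) (hG : BI A (A1 a b L H))
    (t : ℝ) (ht : t ∈ Icc (1 : ℝ) 2) (z : EE b) :
    ∫⁻ y in {y : EE a | ρ ≤ ‖y‖ ∧ ‖y‖ ≤ σ}, ‖MM (m t) (A1 a b L H) (jm a b y z)‖ₑ ^ q ≤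
      C₁ * (ENNReal.ofReal (φ ^ (((a : ℝ) - 1) * (q - 3)) *
        dl lam Lam ^ (-(((a : ℝ) - 1) * (q - 1)))) *
      ∫⁻ w : Sp a, ∫⁻ u : Sp a, ∫⁻ y in {y : EE a | |inner ℝ y (u : EE a)| ≤ 2 * lam ^ ε * σ},
        ‖MM (ms2 a b Lam (dl lam Lam) φ (m t) (w : EE a) (u : EE a)) (A1 a b L H)
          (jm a b y z)‖ₑ ^ q ∂volume ∂(sg a) ∂(sg a) +
      ENNReal.ofReal ((lam ^ N)⁻¹ * (M * lam ^ M * A) ^ (q - 2)) *
        ∫⁻ y : EE a, ‖MM (m t) (A1 a b L H) (jm a b y z)‖ₑ ^ 2) := by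
  obtain ⟨hL0, hr0, hr1⟩ := dl_facts hl hlL
  obtain ⟨m1, m2⟩ := m_int hm t
  have hφ0 : 0 < φ := by linarith
  have hsl : PL a L (fun y => MM (m t) H (jm a b y z)) =
      fun y => MM (m t) (A1 a b L H) (jm a b y z) :=
    funext fun y => (slc ha hb hL1 hCMT hJM hm hH t y z).symm
  have h2 := hLC2 lam Lam L ρ σ φ (M * lam ^ M * A) (fun y => MM (m t) H (jm a b y z)) hl hlL
    hL4 hL1 hρ hρ4 hσ hφ hφ2 h5 h6 (slm hJM hm hH t z) (fun y => hm.2.2.2.2 t ht A H hH _)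
    (by
      rw [hsl]
      exact fun y => slC0 ha hb hCB1 hRAD hJM hL0 hm hG t y z)
  rw [hsl] at h2
  have h3 : ∀ (w u : Sp a) (y : EE a), Qb a Lam (dl lam Lam) (u : EE a)
      (Aw a Lam φ (w : EE a) (fun y => MM (m t) (A1 a b L H) (jm a b y z))) y =
      MM (ms2 a b Lam (dl lam Lam) φ (m t) (w : EE a) (u : EE a)) (A1 a b L H)
        (jm a b y z) := by
    intro w u y
    have hu : ‖(u : EE a)‖ = 1 := by simp
    have hw : ‖(w : EE a)‖ = 1 := by simp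
    obtain ⟨s1, _⟩ := as2_facts hCNC hK hL0 hφ0 hφ2 (w : EE a) hw
    have e1 : Aw a Lam φ (w : EE a) (fun y => MM (m t) (A1 a b L H) (jm a b y z)) =
        fun y => MM (fun ξ => m t ξ * as2 a Lam φ (w : EE a) (p1 a b ξ)) (A1 a b L H)
          (jm a b y z) := by
      funext y
      rw [Aw_eq hCNC hK hL0 hφ0 hφ2 (w : EE a) hw (slm hJM hm hG t z)
        (fun y => hm.2.2.2.2 t ht A _ hG _)]
      exact cn_slice ha hb hCB1 hJM s1 m1 m2 hG y z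
    rw [e1]
    obtain ⟨m3, m4⟩ := mul_mi (b := b) hJM s1 m1 m2
    exact cn_slice ha hb hCB1 hJM (hK.sc Lam _ u hL0 hr0 (by linarith) hu) m3 m4 hG y z
  simp only [h3] at h2
  exact h2

/-- arithmetic of the constants -/
theorem arith (C₁ c1 c2 S K c4 Aq C₂ I Mq lN F P : ℝ≥0∞) (h : c1 * c2 = P * F) :
    C₁ * (c1 * (S * (K * (c4 * Aq) * (C₂ * c2 * I))) + Mq * (lN * Aq) * I) ≤
      C₁ * (S * C₂ * P * c4 + Mq) * (F * K + lN) * Aq * I := by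
  calc C₁ * (c1 * (S * (K * (c4 * Aq) * (C₂ * c2 * I))) + Mq * (lN * Aq) * I)
      = C₁ * ((c1 * c2) * (S * K * c4 * Aq * C₂ * I) + Mq * (lN * Aq) * I) := by ring
    _ = C₁ * ((P * F) * (S * K * c4 * Aq * C₂ * I) + Mq * (lN * Aq) * I) := by rw [h]
    _ = C₁ * ((S * C₂ * P * c4) * (F * K) + Mq * lN) * Aq * I := by ring
    _ ≤ C₁ * ((S * C₂ * P * c4 + Mq) * (F * K + lN)) * Aq * I := by
        gcongr
        rw [add_mul]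
        gcongr
        · exact le_self_add
        · exact le_add_self
    _ = _ := by ring

end

end Pool.Agent.H93.TN
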