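import Pool.Agent.H93.TN.OBg

/-! # OB, part 8: no localization -/

set_option autoImplicit false

namespace Pool.Agent.H93.TN

open MeasureTheory Set FourierTransform
open Pool.Agent.H83.LS Pool.Agent.H93.AR Pool.Agent.H54.LS
open Pool.Agent.H83.AR hiding T_AM2 T_AC2
open Pool.Agent.H84.BR Pool.Agent.H84.B2
open scoped ENNReal NNReal

section
variable {a b : ℕ} {q ε lam Lam L ρ φ σ M A s' C₄ : ℝ} {N : ℕ} {K : ℝ≥0} {Y : Set (EE b)}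
  {m : ℝ → EE (a + b) → ℂ} {R : (EE (a + b) → ℂ) → EE (a + b) → ℂ}

theorem sub_meas {F : EE a → EE a → ℂ} (hF : Measurable fun q : EE a × EE a => F q.1 q.2) :
    Measurable fun w : Sp a × EE a => F (w.1 : EE a) w.2 :=
  hF.comp ((measurable_subtype_coe.comp measurable_fst).prodMk measurable_snd)

theorem ms1_meas (hJM : T_JM) (hm : MF1 a b M lam Lam m) {G : EE (a + b) → ℂ} (hG : BI A G)
    (r q : ℝ) : Measurable fun w : (Sp a) × (ℝ × EE (a + b)) =>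
      ‖MM (ms1 a b Lam r (m w.2.1) (w.1 : EE a)) G w.2.2‖ₑ ^ q :=
  ev_measP hJM hm hG (κ := fun u : Sp a => sy a ch2 Lam r (u : EE a))
    (sub_meas (F := sy a ch2 Lam r) (sy_meas ch2_cont Lam r)) q

theorem slab_meas1 (s' : ℝ) :
    MeasurableSet {w : Sp a × EE a | w.2 ∈ {y : EE a | |inner ℝ y (w.1 : EE a)| ≤ s'}} :=
  slab_meas measurable_subtype_coe s'

/-- combination of the slices, no localization -/
theorem combI {C₁ : ℝ≥0} (ha : 1 ≤ a) (hb : 1 ≤ b) (hq : 2 < q) (hFLL : FLLc a q ε N C₁)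
    (hCB1 : T_CB1)
    (hRAD : T_RAD) (hJM : T_JM) (hK : KC a C₄) (hl : 1 ≤ lam) (hlL : Real.sqrt lam ≤ Lam)
    (hL4 : Lam ≤ 4 * lam) (hσ : 1 / Lam ≤ σ) (hY : MeasurableSet Y) (hm : MF1 a b M lam Lam m)
    {G : EE (a + b) → ℂ} (hG : BI A G) :
    ∫⁻ t in Icc (1 : ℝ) 2, ∫⁻ x in {x : EE (a + b) | p1 a b x ∈ {y : EE a | 0 ≤ ‖y‖ ∧ ‖y‖ ≤ σ} ∧
      p2 a b x ∈ Y}, ‖MM (m t) G x‖ₑ ^ q ≤
    C₁ * (ENNReal.ofReal (dl lam Lam ^ (-(((a : ℝ) - 1) * (q - 1)))) * (sg a univ) ^ (q - 2) *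
      ∫⁻ u : Sp a, ∫⁻ t in Icc (1 : ℝ) 2, ∫⁻ x in {x : EE (a + b) |
        p1 a b x ∈ {y : EE a | |inner ℝ y (u : EE a)| ≤ 2 * lam ^ ε * σ} ∧ p2 a b x ∈ Y},
        ‖MM (ms1 a b Lam (dl lam Lam) (m t) (u : EE a)) G x‖ₑ ^ q ∂volume ∂volume ∂(sg a) +
      ENNReal.ofReal ((lam ^ N)⁻¹ * (M * lam ^ M * A) ^ (q - 2)) *
        ∫⁻ t in Icc (1 : ℝ) 2, ∫⁻ x, ‖MM (m t) G x‖ₑ ^ 2) := by
  have hev := ev_meas hm hG
  have hPm := ms1_meas hJM hm hG (dl lam Lam) q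
  have hS₀t : (sg a univ) ^ (q - 2) ≠ ∞ :=
    ENNReal.rpow_ne_top_of_nonneg (by linarith) (measure_ne_top _ _)
  exact comb hJM (sg a) (fun t x => ‖MM (m t) G x‖ₑ ^ q) (fun t x => ‖MM (m t) G x‖ₑ ^ 2)
    (fun (u : Sp a) t x => ‖MM (ms1 a b Lam (dl lam Lam) (m t) (u : EE a)) G x‖ₑ ^ q)
    {y : EE a | 0 ≤ ‖y‖ ∧ ‖y‖ ≤ σ} Y (fun u => {y : EE a | |inner ℝ y (u : EE a)| ≤
      2 * lam ^ ε * σ}) (ball_meas 0 σ) hY (slab_meas1 _)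
    (hev.enorm.pow_const q) (hev.enorm.pow_const 2) hPm
    C₁ (ENNReal.ofReal (dl lam Lam ^ (-(((a : ℝ) - 1) * (q - 1)))) * (sg a univ) ^ (q - 2))
    (ENNReal.ofReal ((lam ^ N)⁻¹ * (M * lam ^ M * A) ^ (q - 2)))
    ENNReal.coe_ne_top (ENNReal.mul_ne_top ENNReal.ofReal_ne_top hS₀t) ENNReal.ofReal_ne_top
    (fun t ht z => slice_I ha hb hFLL hCB1 hRAD hJM hK hl hlL hL4 hσ hm hG t ht z)

/-- the sum over the bands for one function -/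
theorem bsum {C₂ : ℝ≥0} (ha : 1 ≤ a) (hb : 1 ≤ b) (hq : 2 < q) (hCB1 : T_CB1) (hJM : T_JM)
    (hK : KC a C₄)
    (hort : ∀ (Lam r A : ℝ) (f : EE (a + b) → ℂ), 0 < Lam → 0 < r → r ≤ 1 / 8 → BI A f →
      ∫⁻ u : Sp a, ∫⁻ x, ‖cb1 a b (MK (sy a ch2 Lam r (u : EE a))) f x‖ₑ ^ 2 ∂volume ∂(sg a) ≤
      C₂ * ENNReal.ofReal (r ^ (a - 1)) * ∫⁻ x, ‖f x‖ₑ ^ 2)
    (hl : 1 ≤ lam) (hlL : Real.sqrt lam ≤ Lam) (hm : MF1 a b M lam Lam m) (hR : RP a b L R)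
    (hH : HB a b q Lam s' (dl lam Lam) K Y m R) {f : EE (a + b) → ℂ} (hf : BI A f) :
    ∫⁻ u : Sp a, ∫⁻ t in Icc (1 : ℝ) 2, ∫⁻ x in {x : EE (a + b) |
        p1 a b x ∈ {y : EE a | |inner ℝ y (u : EE a)| ≤ s'} ∧ p2 a b x ∈ Y},
        ‖MM (ms1 a b Lam (dl lam Lam) (m t) (u : EE a)) (R f) x‖ₑ ^ q ∂volume ∂volume ∂(sg a) ≤
      K * ENNReal.ofReal ((C₄ * A) ^ (q - 2)) *
        (C₂ * ENNReal.ofReal ((2 * dl lam Lam) ^ (a - 1)) * ∫⁻ x, ‖f x‖ₑ ^ 2) := by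
  obtain ⟨hL0, hr0, hr1⟩ := dl_facts hl hlL
  have h1 := hort Lam (2 * dl lam Lam) A f hL0 (by linarith) (by linarith) hf
  have h2 : ∀ u : Sp a, ∫⁻ t in Icc (1 : ℝ) 2, ∫⁻ x in {x : EE (a + b) |
        p1 a b x ∈ {y : EE a | |inner ℝ y (u : EE a)| ≤ s'} ∧ p2 a b x ∈ Y},
        ‖MM (ms1 a b Lam (dl lam Lam) (m t) (u : EE a)) (R f) x‖ₑ ^ q ≤
      K * ENNReal.ofReal ((C₄ * A) ^ (q - 2)) *
        ∫⁻ x, ‖cb1 a b (MK (sy a ch2 Lam (2 * dl lam Lam) (u : EE a))) f x‖ₑ ^ 2 := by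
    intro u
    have hu : ‖(u : EE a)‖ = 1 := by simp
    exact band1 ha hb hCB1 hJM hK hL0 hr0 hr1 hq hm hR hH f hf u hu
  refine (lintegral_mono h2).trans ?_
  rw [lintegral_const_mul' _ _ (ENNReal.mul_ne_top ENNReal.coe_ne_top ENNReal.ofReal_ne_top)]
  gcongr

end

/-- no localization -/
theorem caseI {a b : ℕ} {q ε M C₄ : ℝ} (ha : 1 ≤ a) (hb : 1 ≤ b) (hq : 2 < q) (hε : 0 < ε)
    (hM : 0 ≤ M)
    (hFLL : T_FLL) (hORT : T_ORT) (hCB1 : T_CB1) (hRAD : T_RAD)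
    (hAM1 : T_AM1) (hPLE : T_PLE) (hJM : T_JM) (hK : KC a C₄) (N : ℕ) :
    ∃ C : ℝ≥0, ∀ (lam Lam L σ A : ℝ) (K : ℝ≥0) (Y : Set (EE b)) (m : ℝ → EE (a + b) → ℂ)
    (R : (EE (a + b) → ℂ) → EE (a + b) → ℂ) (h : EE (a + b) → ℂ), 1 ≤ lam →
    Real.sqrt lam ≤ Lam → Lam ≤ 4 * lam → 1 ≤ L → 1 / Lam ≤ σ →
    MeasurableSet Y → MF1 a b M lam Lam m → RP a b L R →
    HB a b q Lam (2 * lam ^ ε * σ) (dl lam Lam) K Y m R → BI A h →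
    ∫⁻ t in Icc (1 : ℝ) 2, ∫⁻ x in {x : EE (a + b) | p1 a b x ∈
      {y : EE a | 0 ≤ ‖y‖ ∧ ‖y‖ ≤ σ} ∧ p2 a b x ∈ Y}, ‖MM (m t) (A1 a b L (R h)) x‖ₑ ^ q ≤
    C * (ENNReal.ofReal (FR a q lam Lam 1) * K + ENNReal.ofReal ((lam ^ N)⁻¹)) *
      ENNReal.ofReal (A ^ (q - 2)) * ∫⁻ x, ‖h x‖ₑ ^ 2 := by
  obtain ⟨C₁, hC₁⟩ := hFLL a q ε (N + ⌈M * (q - 2)⌉₊) ha hq hε
  obtain ⟨C₂, hC₂⟩ := ort1 (b := b) hORT hJM ha
  have hS₀t : (sg a univ) ^ (q - 2) ≠ ∞ :=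
    ENNReal.rpow_ne_top_of_nonneg (by linarith) (measure_ne_top _ _)
  refine ⟨C₁ * (((sg a univ) ^ (q - 2)).toNNReal * C₂ * 2 ^ (a - 1) *
    (C₄ ^ (q - 2)).toNNReal + (M ^ (q - 2)).toNNReal), ?_⟩
  intro lam Lam L σ A K Y m R h hl hlL hL4 hL1 hσ hY hm hR hH hh
  obtain ⟨hL0, hr0, hr1⟩ := dl_facts hl hlL
  have hA : 0 ≤ A := (norm_nonneg _).trans (hh.2.2 0)
  have av := hAM1 a b L ha hL1
  have hRh := hR.bi A h hh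
  have hG : BI A (A1 a b L (R h)) := avp_bi av A _ hRh
  have hg : BI A (A1 a b L h) := avp_bi av A _ hh
  have hRg : R (A1 a b L h) = A1 a b L (R h) := hR.av A h hh
  have hkr : ((a - 1 : ℕ) : ℝ) = (a : ℝ) - 1 := by
    rw [Nat.cast_sub ha, Nat.cast_one]
  have h1 := combI ha hb hq hC₁ hCB1 hRAD hJM hK hl hlL hL4 hσ hY hm hG
  have h2 := bsum ha hb hq hCB1 hJM hK hC₂ hl hlL hm hR hH hg
  rw [hRg] at h2
  have h3 := energy hPLE hAM1 ha hL1 hm hR hh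
  have h4 : ∫⁻ x, ‖A1 a b L h x‖ₑ ^ 2 ≤ ∫⁻ x, ‖h x‖ₑ ^ 2 := avp_l2 av h hh.1
  have htail := tail (N := N) hl hM hA (q := q)
  have hpow := pow_r (k := a - 1) (q := q) (φ := 1) hr0 one_pos
  rw [Real.one_rpow, one_pow, one_mul, mul_one, hkr] at hpow
  have hC4 := hK.nn
  have h5 : ENNReal.ofReal (dl lam Lam ^ (-(((a : ℝ) - 1) * (q - 1)))) *
      ENNReal.ofReal ((2 * dl lam Lam) ^ (a - 1)) =
      2 ^ (a - 1) * ENNReal.ofReal (FR a q lam Lam 1) := by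
    rw [← ENNReal.ofReal_mul (by positivity), hpow, ENNReal.ofReal_mul (by positivity),
      ENNReal.ofReal_pow (by norm_num), ENNReal.ofReal_ofNat]
    rfl
  have h6 : ENNReal.ofReal ((C₄ * A) ^ (q - 2)) =
      ENNReal.ofReal (C₄ ^ (q - 2)) * ENNReal.ofReal (A ^ (q - 2)) := by
    rw [Real.mul_rpow hC4 hA, ENNReal.ofReal_mul (by positivity)]
  have h7 : ENNReal.ofReal ((lam ^ (N + ⌈M * (q - 2)⌉₊))⁻¹ * (M * lam ^ M * A) ^ (q - 2)) ≤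
      ENNReal.ofReal (M ^ (q - 2)) * (ENNReal.ofReal ((lam ^ N)⁻¹) *
        ENNReal.ofReal (A ^ (q - 2))) := by
    rw [← ENNReal.ofReal_mul (by positivity), ← ENNReal.ofReal_mul (by positivity)]
    exact ENNReal.ofReal_le_ofReal htail
  rw [h6] at h2
  have h8 := arith (C₁ : ℝ≥0∞) (ENNReal.ofReal (dl lam Lam ^ (-(((a : ℝ) - 1) * (q - 1)))))
    (ENNReal.ofReal ((2 * dl lam Lam) ^ (a - 1))) ((sg a univ) ^ (q - 2)) K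
    (ENNReal.ofReal (C₄ ^ (q - 2))) (ENNReal.ofReal (A ^ (q - 2))) C₂ (∫⁻ x, ‖h x‖ₑ ^ 2)
    (ENNReal.ofReal (M ^ (q - 2))) (ENNReal.ofReal ((lam ^ N)⁻¹))
    (ENNReal.ofReal (FR a q lam Lam 1)) (2 ^ (a - 1)) h5
  refine (h1.trans ?_).trans (h8.trans (le_of_eq ?_))
  · rw [mul_assoc (ENNReal.ofReal (dl lam Lam ^ (-(((a : ℝ) - 1) * (q - 1)))))]
    refine mul_le_mul' le_rfl (add_le_add (mul_le_mul' le_rfl (mul_le_mul' le_rfl ?_))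
      (mul_le_mul' h7 h3))
    exact h2.trans (mul_le_mul' le_rfl (mul_le_mul' le_rfl h4))
  · push_cast
    rw [ENNReal.coe_toNNReal hS₀t]
    rfl

end Pool.Agent.H93.TN
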