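import Pool.Agent.H93.TN.OBh

/-! # OB, part 9: localization -/

set_option autoImplicit false

namespace Pool.Agent.H93.TN

open MeasureTheory Set FourierTransform
open Pool.Agent.H83.LS Pool.Agent.H93.AR Pool.Agent.H54.LS
open Pool.Agent.H83.AR hiding T_AM2 T_AC2
open Pool.Agent.H84.BR Pool.Agent.H84.B2
open scoped ENNReal NNReal

section
variable {a b : ℕ} {q ε lam Lam L ρ φ σ M A s' C₄ : ℝ} {N : ℕ} {K : ℝ≥0} {Y : Set (EE b)}
  {m : ℝ → EE (a + b) → ℂ} {R : (EE (a + b) → ℂ) → EE (a + b) → ℂ}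

theorem sub_meas2 {F G : EE a → EE a → ℂ} (hF : Measurable fun q : EE a × EE a => F q.1 q.2)
    (hG : Measurable fun q : EE a × EE a => G q.1 q.2) :
    Measurable fun w : (Sp a × Sp a) × EE a => F (w.1.1 : EE a) w.2 * G (w.1.2 : EE a) w.2 := by
  have h1 := sub_meas hF
  have h2 := sub_meas hG
  have e1 : Measurable fun w : (Sp a × Sp a) × EE a => (w.1.1, w.2) :=
    (measurable_fst.fst).prodMk measurable_snd
  have e2 : Measurable fun w : (Sp a × Sp a) × EE a => (w.1.2, w.2) :=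
    (measurable_fst.snd).prodMk measurable_snd
  exact (h1.comp e1).mul (h2.comp e2)

/-- the two cutoffs -/
noncomputable def kp (a : ℕ) (Lam r φ : ℝ) (p : Sp a × Sp a) (ξ : EE a) : ℂ :=
  as2 a Lam φ (p.1 : EE a) ξ * sy a ch2 Lam r (p.2 : EE a) ξ

theorem kp_meas (Lam r φ : ℝ) :
    Measurable fun w : (Sp a × Sp a) × EE a => kp a Lam r φ w.1 w.2 :=
  sub_meas2 (F := as2 a Lam φ) (G := sy a ch2 Lam r) (as2_meas a Lam φ)
    (sy_meas ch2_cont Lam r)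

theorem ms2_eq (Lam r φ : ℝ) (m : EE (a + b) → ℂ) (p : Sp a × Sp a) :
    ms2 a b Lam r φ m (p.1 : EE a) (p.2 : EE a) = fun ξ => m ξ * kp a Lam r φ p (p1 a b ξ) := by
  funext ξ
  unfold ms2 kp
  ring

theorem ms2_meas (hJM : T_JM) (hm : MF1 a b M lam Lam m) {G : EE (a + b) → ℂ} (hG : BI A G)
    (r φ q : ℝ) : Measurable fun w : (Sp a × Sp a) × (ℝ × EE (a + b)) =>
      ‖MM (ms2 a b Lam r φ (m w.2.1) (w.1.1 : EE a) (w.1.2 : EE a)) G w.2.2‖ₑ ^ q := by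
  have h1 := ev_measP hJM hm hG (κ := kp a Lam r φ) (kp_meas Lam r φ) q
  simp only [ms2_eq]
  exact h1

theorem slab_meas2 (s' : ℝ) : MeasurableSet {w : (Sp a × Sp a) × EE a |
    w.2 ∈ {y : EE a | |inner ℝ y (w.1.2 : EE a)| ≤ s'}} :=
  slab_meas (c := fun p : Sp a × Sp a => (p.2 : EE a))
    (measurable_subtype_coe.comp measurable_snd) s'

/-- the inner integrals are measurable -/
theorem in_meas {P : Type} [MeasurableSpace P] (hJM : T_JM)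
    {Φ : P → ℝ → EE (a + b) → ℝ≥0∞} {Z : P → Set (EE a)}
    (hΦ : Measurable fun q : P × (ℝ × EE (a + b)) => Φ q.1 q.2.1 q.2.2)
    (hZ : MeasurableSet {q : P × EE a | q.2 ∈ Z q.1}) (t : ℝ) (z : EE b) :
    Measurable fun p => ∫⁻ y in Z p, Φ p t (jm a b y z) := by
  obtain ⟨hp, hj, hc, hc1, hc2, _⟩ := jm_facts (a := a) (b := b) hJM
  have hZp : ∀ p, MeasurableSet (Z p) := fun p =>
    hZ.preimage (by fun_prop : Measurable fun y : EE a => (p, y))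
  have h1 : ∀ p, ∫⁻ y in Z p, Φ p t (jm a b y z) =
      ∫⁻ y, {q : P × EE a | q.2 ∈ Z q.1}.indicator (fun q => Φ q.1 t (jm a b q.2 z)) (p, y) := by
    intro p
    rw [← lintegral_indicator (hZp p)]
    refine lintegral_congr fun y => ?_
    by_cases hy : y ∈ Z p
    · rw [indicator_of_mem hy, indicator_of_mem (by exact hy)]
    · rw [indicator_of_notMem hy, indicator_of_notMem (by exact hy)]
  simp only [h1]
  have e1 : Measurable fun q : P × EE a => jm a b q.2 z :=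
    hc.measurable.comp (by fun_prop : Measurable fun q : P × EE a => (q.2, z))
  have e2 : Measurable fun q : P × EE a => (q.1, (t, jm a b q.2 z)) :=
    measurable_fst.prodMk (measurable_const.prodMk e1)
  have h2 : Measurable fun q : P × EE a => Φ q.1 t (jm a b q.2 z) := hΦ.comp e2
  exact Measurable.lintegral_prod_right' (h2.indicator hZ)

/-- combination of the slices, localization -/
theorem combII {C₁ : ℝ≥0} (ha : 1 ≤ a) (hb : 1 ≤ b) (hLC2 : LC2c a q ε N C₁) (hCB1 : T_CB1)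
    (hCMT : T_CMT) (hRAD : T_RAD) (hCNC : T_CNC) (hJM : T_JM) (hK : KC a C₄) (hl : 1 ≤ lam)
    (hlL : Real.sqrt lam ≤ Lam) (hL4 : Lam ≤ 4 * lam) (hL1 : 1 ≤ L) (hσ : 1 / Lam ≤ σ)
    (hρ : 0 < ρ) (hρ4 : ρ ≤ 4) (hφ : dl lam Lam ≤ φ) (hφ2 : φ ≤ 1 / 16)
    (h5 : lam ^ ε * (L / (ρ * Lam)) ≤ φ) (h6 : lam ^ ε / Real.sqrt (ρ * Lam) ≤ φ)
    (hY : MeasurableSet Y) (hm : MF1 a b M lam Lam m) {H : EE (a + b) → ℂ} (hH : BI A H)
    (hG : BI A (A1 a b L H)) :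
    ∫⁻ t in Icc (1 : ℝ) 2, ∫⁻ x in {x : EE (a + b) | p1 a b x ∈ {y : EE a | ρ ≤ ‖y‖ ∧ ‖y‖ ≤ σ} ∧
      p2 a b x ∈ Y}, ‖MM (m t) (A1 a b L H) x‖ₑ ^ q ≤
    C₁ * (ENNReal.ofReal (φ ^ (((a : ℝ) - 1) * (q - 3)) *
        dl lam Lam ^ (-(((a : ℝ) - 1) * (q - 1)))) *
      ∫⁻ p : Sp a × Sp a, ∫⁻ t in Icc (1 : ℝ) 2, ∫⁻ x in {x : EE (a + b) |
        p1 a b x ∈ {y : EE a | |inner ℝ y (p.2 : EE a)| ≤ 2 * lam ^ ε * σ} ∧ p2 a b x ∈ Y},
        ‖MM (ms2 a b Lam (dl lam Lam) φ (m t) (p.1 : EE a) (p.2 : EE a)) (A1 a b L H) x‖ₑ ^ q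
          ∂volume ∂volume ∂((sg a).prod (sg a)) +
      ENNReal.ofReal ((lam ^ N)⁻¹ * (M * lam ^ M * A) ^ (q - 2)) *
        ∫⁻ t in Icc (1 : ℝ) 2, ∫⁻ x, ‖MM (m t) (A1 a b L H) x‖ₑ ^ 2) := by
  have hev := ev_meas hm hG
  have hPm := ms2_meas hJM hm hG (dl lam Lam) φ q
  refine comb hJM ((sg a).prod (sg a)) (fun t x => ‖MM (m t) (A1 a b L H) x‖ₑ ^ q)
    (fun t x => ‖MM (m t) (A1 a b L H) x‖ₑ ^ 2)
    (fun (p : Sp a × Sp a) t x =>
      ‖MM (ms2 a b Lam (dl lam Lam) φ (m t) (p.1 : EE a) (p.2 : EE a)) (A1 a b L H) x‖ₑ ^ q)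
    {y : EE a | ρ ≤ ‖y‖ ∧ ‖y‖ ≤ σ} Y (fun p => {y : EE a | |inner ℝ y (p.2 : EE a)| ≤
      2 * lam ^ ε * σ}) (ball_meas ρ σ) hY (slab_meas2 _)
    (hev.enorm.pow_const q) (hev.enorm.pow_const 2) hPm
    C₁ _ _ ENNReal.coe_ne_top ENNReal.ofReal_ne_top ENNReal.ofReal_ne_top
    (fun t ht z => ?_)
  have h1 := slice_II ha hb hLC2 hCB1 hCMT hRAD hCNC hJM hK hl hlL hL4 hL1 hσ hρ hρ4 hφ hφ2 h5 h6
    hm hH hG t ht z
  have h2 := in_meas hJM (Φ := fun (p : Sp a × Sp a) t x =>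
      ‖MM (ms2 a b Lam (dl lam Lam) φ (m t) (p.1 : EE a) (p.2 : EE a)) (A1 a b L H) x‖ₑ ^ q)
    (Z := fun p => {y : EE a | |inner ℝ y (p.2 : EE a)| ≤ 2 * lam ^ ε * σ}) hPm (slab_meas2 _) t z
  rw [lintegral_prod _ h2.aemeasurable]
  exact h1

end

end Pool.Agent.H93.TN
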