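import Pool.Agent.H84.B2.Targets

/-!
Local smoothing with a smaller fraction of an angular derivative (MP_ee74d2_an): definitions and
targets of part A (bands, flat decoupling, localization of frequency directions; all on `ℝ^n`).
-/

set_option autoImplicit false

namespace Pool.Agent.H93.TN

open MeasureTheory Set FourierTransform
open Pool.Agent.H83.LS Pool.Agent.H93.AR Pool.Agent.H54.LS Pool.Agent.H14.LS Pool.Agent.H83.AR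
open Pool.Agent.H84.BR Pool.Agent.H84.B2
open scoped ENNReal NNReal

/-! ### definitions -/

/-- `1` on `[1/4,4]`, support in `[1/8,8]` -/
noncomputable def ch2 (s : ℝ) : ℝ := eta0 (s / 4) - eta0 (8 * s)

/-- radial cutoffs -/
def RC (ψ : ℝ → ℝ) : Prop := ContDiff ℝ (⊤ : ℕ∞) ψ ∧ ∀ s, ψ s ≠ 0 → 1 / 8 ≤ s ∧ s ≤ 8

/-- smooth symbols with compact support -/
def SC {d : ℕ} (s : EE d → ℂ) : Prop := ContDiff ℝ (⊤ : ℕ∞) s ∧ HasCompactSupport s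

/-- sector symbol: radial part `ψ(|ξ|/Λ)`, aperture `r` around the unit vector `u` -/
noncomputable def sy (n : ℕ) (ψ : ℝ → ℝ) (Lam r : ℝ) (u ξ : EE n) : ℂ :=
  ((ψ (‖ξ‖ / Lam) * eta0 ((‖‖ξ‖⁻¹ • ξ - u‖ / r) ^ 2) : ℝ) : ℂ)

/-- aperture of the bands -/
noncomputable def dl (lam Lam : ℝ) : ℝ := Real.sqrt lam / (16 * Lam)

/-- convolution on `ℝ^n` -/
noncomputable def cn {n : ℕ} (κ g : EE n → ℂ) (x : EE n) : ℂ := ∫ y, κ (x - y) * g y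

/-- frequency cutoff `|ξ| ~ Λ` -/
noncomputable def C0 (n : ℕ) (Lam : ℝ) (v : EE n → ℂ) : EE n → ℂ :=
  cn (MK (fun ξ : EE n => ((chis (‖ξ‖ / Lam) : ℝ) : ℂ))) v

/-- the band around `u` -/
noncomputable def Qb (n : ℕ) (Lam r : ℝ) (u : EE n) (v : EE n → ℂ) : EE n → ℂ :=
  cn (MK (sy n ch2 Lam r u)) v

/-- the two opposite bands of aperture `2φ` around `± w` -/
noncomputable def Aw (n : ℕ) (Lam φ : ℝ) (w : EE n) (v : EE n → ℂ) (x : EE n) : ℂ :=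
  Qb n Lam (2 * φ) w v x + Qb n Lam (2 * φ) (-w) v x

/-- angular average on `ℝ^n` -/
noncomputable def PL (n : ℕ) (L : ℝ) (U : EE n → ℂ) (x : EE n) : ℂ :=
  ∫ w : Sp n, ((zk n L (‖x‖⁻¹ • x) (w : EE n) : ℝ) : ℂ) * U (‖x‖ • (w : EE n)) ∂(sg n)

/-- cutoff near `± w` on the sphere -/
noncomputable def aw {n : ℕ} (φ : ℝ) (w ω : EE n) : ℝ :=
  eta0 ((‖ω - w‖ / (2 * φ)) ^ 2) + eta0 ((‖ω + w‖ / (2 * φ)) ^ 2)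

/-- symbol of `C0 - Aw C0` -/
noncomputable def sE (n : ℕ) (Lam φ : ℝ) (w ξ : EE n) : ℂ :=
  ((chis (‖ξ‖ / Lam) * (1 - aw φ w (‖ξ‖⁻¹ • ξ)) : ℝ) : ℂ)

/-- mass of the bands -/
noncomputable def md (n : ℕ) (r : ℝ) (u : EE n) : ℝ :=
  ∫ w : Sp n, eta0 ((‖u - (w : EE n)‖ / r) ^ 2) ∂(sg n)

/-! ### kernels and symbols -/

/-- SEC: kernels of sectors -/
def T_SEC : Prop := ∀ (n N : ℕ) (ψ : ℝ → ℝ), 1 ≤ n → RC ψ → ∃ C : ℝ, 0 ≤ C ∧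
  ∀ (Lam r : ℝ) (u x : EE n), 0 < Lam → 0 < r → r ≤ 1 / 8 → ‖u‖ = 1 →
  ‖MK (sy n ψ Lam r u) x‖ ≤ C * Lam ^ n * r ^ (n - 1) *
    ((1 + Lam * |inner ℝ x u|) ^ N)⁻¹ * ((1 + Lam * r * ‖x - (inner ℝ x u : ℝ) • u‖) ^ N)⁻¹

/-- SEL: integrals of the kernels of sectors -/
def T_SEL : Prop := ∀ (n N : ℕ) (ψ : ℝ → ℝ), 1 ≤ n → RC ψ → ∃ C : ℝ, 0 ≤ C ∧
  ∀ (Lam r : ℝ) (u : EE n), 0 < Lam → 0 < r → r ≤ 1 / 8 → ‖u‖ = 1 →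
  SC (sy n ψ Lam r u) ∧ (∀ ξ, ‖sy n ψ Lam r u ξ‖ ≤ C) ∧
  (∫⁻ x, ‖MK (sy n ψ Lam r u) x‖ₑ * ENNReal.ofReal ((1 + Lam * |inner ℝ x u|) ^ N) ≤
    ENNReal.ofReal C) ∧
  (∀ D : ℝ, 0 ≤ D → ∫⁻ x in {x : EE n | D ≤ |inner ℝ x u|}, ‖MK (sy n ψ Lam r u) x‖ₑ ≤
    ENNReal.ofReal (C * ((1 + Lam * D) ^ N)⁻¹)) ∧
  ∀ x, ‖MK (sy n ψ Lam r u) x‖ ≤ C * Lam ^ n * ((1 + Lam * r * ‖x‖) ^ N)⁻¹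

/-- RAD: kernels of radial cutoffs -/
def T_RAD : Prop := ∀ (n N : ℕ) (ψ : ℝ → ℝ), 1 ≤ n → RC ψ → ∃ C : ℝ, 0 ≤ C ∧
  ∀ Lam : ℝ, 0 < Lam → SC (fun ξ : EE n => ((ψ (‖ξ‖ / Lam) : ℝ) : ℂ)) ∧
  (∀ s, |ψ s| ≤ C) ∧
  (∀ x : EE n, ‖MK (fun ξ : EE n => ((ψ (‖ξ‖ / Lam) : ℝ) : ℂ)) x‖ ≤
    C * Lam ^ n * ((1 + Lam * ‖x‖) ^ N)⁻¹) ∧
  ∫⁻ x : EE n, ‖MK (fun ξ : EE n => ((ψ (‖ξ‖ / Lam) : ℝ) : ℂ)) x‖ₑ *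
    ENNReal.ofReal ((1 + Lam * ‖x‖) ^ N) ≤ ENNReal.ofReal C

/-- CNC: convolutions with kernels of smooth symbols -/
def T_CNC : Prop := ∀ (n : ℕ) (s₁ s₂ : EE n → ℂ) (v : EE n → ℂ) (M : ℝ), SC s₁ → SC s₂ →
  Measurable v → (∀ x, ‖v x‖ ≤ M) →
  Integrable (MK s₁) ∧ Measurable (MK s₁) ∧ Measurable (cn (MK s₁) v) ∧
  (∀ x, ‖cn (MK s₁) v x‖ ≤ (∫ y, ‖MK s₁ y‖) * M) ∧
  (∀ x, cn (MK s₁) (cn (MK s₂) v) x = cn (MK (fun ξ => s₁ ξ * s₂ ξ)) v x) ∧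
  (∀ B : ℝ, (∀ ξ, ‖s₁ ξ‖ ≤ B) → ∫⁻ x, ‖cn (MK s₁) v x‖ₑ ^ 2 ≤
    ENNReal.ofReal (B ^ 2) * ∫⁻ x, ‖v x‖ₑ ^ 2)

/-- MDL: mass of the bands, bands near a point, and their reverse -/
def T_MDL : Prop := ∀ n : ℕ, 1 ≤ n → ∃ C : ℝ, 0 < C ∧ ∀ r : ℝ, 0 < r → r ≤ 1 / 8 →
  (∀ u u' : EE n, ‖u‖ = 1 → ‖u'‖ = 1 → md n r u = md n r u') ∧
  (∀ u : EE n, ‖u‖ = 1 → C⁻¹ * r ^ (n - 1) ≤ md n r u ∧ md n r u ≤ C * r ^ (n - 1) ∧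
    ENNReal.ofReal (C⁻¹ * r ^ (n - 1)) ≤ sg n {w : Sp n | ‖u - w‖ ≤ r} ∧
    sg n {w : Sp n | ‖u - w‖ ≤ 6 * r} ≤ ENNReal.ofReal (C * r ^ (n - 1)))

/-- SID: reproducing formulas for the bands -/
def T_SID : Prop := ∀ (n : ℕ) (Lam r M : ℝ) (v : EE n → ℂ), 1 ≤ n → 0 < Lam → 0 < r →
  r ≤ 1 / 16 → Measurable v → (∀ x, ‖v x‖ ≤ M) → (∀ x, C0 n Lam v x = v x) →
  (∀ (u x : EE n), ‖u‖ = 1 → Qb n Lam (2 * r) u (Qb n Lam r u v) x = Qb n Lam r u v x) ∧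
  (∀ (u x : EE n), ‖u‖ = 1 → C0 n Lam (Qb n Lam r u v) x = Qb n Lam r u v x) ∧
  (∀ (u₀ x : EE n), ‖u₀‖ = 1 →
    ((md n r u₀ : ℝ) : ℂ) * v x = ∫ u : Sp n, Qb n Lam r (u : EE n) v x ∂(sg n)) ∧
  Continuous (fun q : Sp n × EE n => Qb n Lam r (q.1 : EE n) v q.2)

/-- ORT: almost orthogonality of the bands -/
def T_ORT : Prop := ∀ n : ℕ, 1 ≤ n → ∃ C : ℝ≥0, ∀ (Lam r A : ℝ) (f : EE n → ℂ), 0 < Lam →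
  0 < r → r ≤ 1 / 8 → Measurable f → (∀ x, ‖f x‖ ≤ A) →
  ∫⁻ u : Sp n, ∫⁻ x, ‖Qb n Lam r (u : EE n) f x‖ₑ ^ 2 ∂volume ∂(sg n) ≤
    C * ENNReal.ofReal (r ^ (n - 1)) * ∫⁻ x, ‖f x‖ₑ ^ 2

/-! ### flat decoupling -/

/-- INT: interpolation of integral operators between `L²` and `L^∞` -/
def T_INT : Prop := ∀ q : ℝ, 2 < q → ∃ C : ℝ≥0, ∀ (X Y : Type) [MeasurableSpace X]
  [MeasurableSpace Y] (μ : Measure X) [SFinite μ] (ν : Measure Y) (K : Y → X → ℂ) (N₂ Ni A : ℝ)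
  (G : X → ℂ), 0 < Ni → 0 ≤ N₂ → Measurable (Function.uncurry K) →
  (∀ y, ∫⁻ x, ‖K y x‖ₑ ∂μ ≤ ENNReal.ofReal Ni) →
  (∀ H : X → ℂ, Measurable H → (∃ B : ℝ, ∀ x, ‖H x‖ ≤ B) → μ {x | H x ≠ 0} < ∞ →
    ∫⁻ y, ‖∫ x, K y x * H x ∂μ‖ₑ ^ 2 ∂ν ≤ ENNReal.ofReal N₂ * ∫⁻ x, ‖H x‖ₑ ^ 2 ∂μ) →
  Measurable G → (∀ x, ‖G x‖ ≤ A) →
  ∫⁻ y, ‖∫ x, K y x * G x ∂μ‖ₑ ^ q ∂ν ≤
    C * ENNReal.ofReal (N₂ * Ni ^ (q - 2)) * ∫⁻ x, ‖G x‖ₑ ^ q ∂μ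

/-- FL2: flat decoupling in `L²` -/
def T_FL2 : Prop := ∀ n : ℕ, 1 ≤ n → ∃ C : ℝ≥0, ∀ (Lam r A : ℝ) (B : Set (Sp n))
  (G : Sp n → EE n → ℂ), 0 < Lam → 0 < r → r ≤ 1 / 8 → MeasurableSet B →
  Measurable (Function.uncurry G) → (∀ u x, ‖G u x‖ ≤ A) →
  ∫⁻ x, ‖∫ u in B, Qb n Lam r (u : EE n) (G u) x ∂(sg n)‖ₑ ^ 2 ≤
    C * ENNReal.ofReal (r ^ (n - 1)) * ∫⁻ u in B, ∫⁻ x, ‖G u x‖ₑ ^ 2 ∂volume ∂(sg n)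

/-- FLT: flat decoupling in `L^q` -/
def T_FLT : Prop := ∀ (n : ℕ) (q : ℝ), 1 ≤ n → 2 < q → ∃ C : ℝ≥0, ∀ (Lam r A : ℝ)
  (B : Set (Sp n)) (G : Sp n → EE n → ℂ), 0 < Lam → 0 < r → r ≤ 1 / 8 → MeasurableSet B →
  Measurable (Function.uncurry G) → (∀ u x, ‖G u x‖ ≤ A) →
  ∫⁻ x, ‖∫ u in B, Qb n Lam r (u : EE n) (G u) x ∂(sg n)‖ₑ ^ q ≤
    C * ENNReal.ofReal (r ^ (n - 1)) * (sg n B) ^ (q - 2) *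
      ∫⁻ u in B, ∫⁻ x, ‖G u x‖ₑ ^ q ∂volume ∂(sg n)

/-- FLL: local flat decoupling; the bands outside `B` are empty -/
def T_FLL : Prop := ∀ (n : ℕ) (q ε : ℝ) (N : ℕ), 1 ≤ n → 2 < q → 0 < ε → ∃ C : ℝ≥0,
  ∀ (lam Lam σ M : ℝ) (B : Set (Sp n)) (v : EE n → ℂ), 1 ≤ lam → Real.sqrt lam ≤ Lam →
  Lam ≤ 4 * lam → 1 / Lam ≤ σ → MeasurableSet B → Measurable v → (∀ x, ‖v x‖ ≤ M) →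
  (∀ x, C0 n Lam v x = v x) → (∀ u : Sp n, u ∉ B → ∀ x, Qb n Lam (dl lam Lam) (u : EE n) v x = 0) →
  ∫⁻ x in {x : EE n | ‖x‖ ≤ σ}, ‖v x‖ₑ ^ q ≤
    C * (ENNReal.ofReal (dl lam Lam ^ (-(((n : ℝ) - 1) * (q - 1)))) * (sg n B) ^ (q - 2) *
      ∫⁻ u in B, ∫⁻ x in {x : EE n | |inner ℝ x (u : EE n)| ≤ 2 * lam ^ ε * σ},
        ‖Qb n Lam (dl lam Lam) (u : EE n) v x‖ₑ ^ q ∂volume ∂(sg n) +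
      ENNReal.ofReal ((lam ^ N)⁻¹ * M ^ (q - 2)) * ∫⁻ x, ‖v x‖ₑ ^ 2)

/-! ### localization of the directions -/

/-- JN: non-stationary phase on the sphere, `D` is the distance of the support of the amplitude
from the critical points -/
def T_JN : Prop := ∀ n N : ℕ, 2 ≤ n → ∃ (M : ℕ) (C : ℝ), 0 ≤ C ∧ ∀ (g : ℝ × EE n → ℂ)
  (δ B R D s : ℝ) (u : EE n), SA n M δ B g → 0 < δ → 8 * δ ≤ D → R * δ ^ 2 ≤ 1 → 0 ≤ R →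
  ‖u‖ = 1 →
  (∀ (s : ℝ) (w : EE n), ‖w‖ = 1 → g (s, w) ≠ 0 → D ≤ ‖w - u‖ ∧ D ≤ ‖w + u‖) →
  ‖∫ w : Sp n, e (R * inner ℝ u (w : EE n)) * g (s, (w : EE n)) ∂(sg n)‖ ≤
    C * B * ((1 + R * D * δ) ^ N)⁻¹

/-- JT: the zonal kernel away from the directions `± w` -/
def T_JT : Prop := ∀ n N : ℕ, 2 ≤ n → ∃ C : ℝ, 0 ≤ C ∧ ∀ (L φ R : ℝ) (u v w : EE n), 1 ≤ L →
  0 < φ → φ ≤ 1 / 16 → 1 ≤ R → ‖u‖ = 1 → ‖v‖ = 1 → ‖w‖ = 1 → ‖u - w‖ ≤ φ →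
  ‖∫ ω : Sp n, e (R * inner ℝ u (ω : EE n)) *
      ((zk n L (ω : EE n) v * (1 - aw φ w (ω : EE n)) : ℝ) : ℂ) ∂(sg n)‖ ≤
    C * L ^ (n - 1) * ((1 + min (R * φ ^ 2) (min (R * φ / L) (Real.sqrt R * φ))) ^ N)⁻¹

/-- BKN: the kernel of `(C0 - Aw C0) PL` -/
def T_BKN : Prop := ∀ n N : ℕ, 2 ≤ n → ∃ C : ℝ, 0 ≤ C ∧ ∀ (Lam L φ : ℝ) (w x y : EE n),
  0 < Lam → 1 ≤ L → 0 < φ → φ ≤ 1 / 16 → ‖w‖ = 1 → 4 ≤ Lam * ‖x‖ → y ≠ 0 →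
  ‖‖x‖⁻¹ • x - w‖ ≤ φ →
  ‖∫ v : Sp n, MK (sE n Lam φ w) (x - ‖y‖ • (v : EE n)) *
      ((zk n L (v : EE n) (‖y‖⁻¹ • y) : ℝ) : ℂ) ∂(sg n)‖ ≤
    C * Lam ^ n * L ^ (n - 1) *
      ((1 + min (Lam * ‖x‖ * φ ^ 2) (min (Lam * ‖x‖ * φ / L) (Real.sqrt (Lam * ‖x‖) * φ))) ^ N)⁻¹

/-- TBL: `(C0 - Aw C0) PL U` is negligible near the direction `w` -/
def T_TBL : Prop := ∀ (n : ℕ) (ε : ℝ) (N : ℕ), 2 ≤ n → 0 < ε → ∃ C : ℝ, 0 ≤ C ∧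
  ∀ (lam Lam L ρ φ M : ℝ) (w : EE n) (U : EE n → ℂ) (x : EE n), 1 ≤ lam →
  Real.sqrt lam ≤ Lam → Lam ≤ 4 * lam → 1 ≤ L → 0 < ρ → ρ ≤ 4 → φ ≤ 1 / 16 →
  lam ^ ε * (L / (ρ * Lam)) ≤ φ → lam ^ ε / Real.sqrt (ρ * Lam) ≤ φ → ‖w‖ = 1 →
  Measurable U → (∀ y, ‖U y‖ ≤ M) → ρ ≤ ‖x‖ → ‖‖x‖⁻¹ • x - w‖ ≤ φ →
  ‖cn (MK (sE n Lam φ w)) (PL n L U) x‖ ≤ C * (lam ^ N)⁻¹ * M

/-- LC2: decoupling after localization of the directions -/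
def T_LC2 : Prop := ∀ (n : ℕ) (q ε : ℝ) (N : ℕ), 2 ≤ n → 2 < q → 0 < ε → ∃ C : ℝ≥0,
  ∀ (lam Lam L ρ σ φ M : ℝ) (U : EE n → ℂ), 1 ≤ lam → Real.sqrt lam ≤ Lam → Lam ≤ 4 * lam →
  1 ≤ L → 0 < ρ → ρ ≤ 4 → 1 / Lam ≤ σ → dl lam Lam ≤ φ → φ ≤ 1 / 16 →
  lam ^ ε * (L / (ρ * Lam)) ≤ φ → lam ^ ε / Real.sqrt (ρ * Lam) ≤ φ →
  Measurable U → (∀ y, ‖U y‖ ≤ M) → (∀ x, C0 n Lam (PL n L U) x = PL n L U x) →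
  ∫⁻ x in {x : EE n | ρ ≤ ‖x‖ ∧ ‖x‖ ≤ σ}, ‖PL n L U x‖ₑ ^ q ≤
    C * (ENNReal.ofReal (φ ^ (((n : ℝ) - 1) * (q - 3)) *
        dl lam Lam ^ (-(((n : ℝ) - 1) * (q - 1)))) *
      ∫⁻ w : Sp n, ∫⁻ u : Sp n, ∫⁻ x in {x : EE n | |inner ℝ x (u : EE n)| ≤ 2 * lam ^ ε * σ},
        ‖Qb n Lam (dl lam Lam) (u : EE n) (Aw n Lam φ (w : EE n) (PL n L U)) x‖ₑ ^ q
          ∂volume ∂(sg n) ∂(sg n) +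
      ENNReal.ofReal ((lam ^ N)⁻¹ * M ^ (q - 2)) * ∫⁻ x, ‖PL n L U x‖ₑ ^ 2)

end Pool.Agent.H93.TN
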