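import Pool.Agent.H93.TN.TargetsA

/-!
Local smoothing with a smaller fraction of an angular derivative (MP_ee74d2_an): targets of part B
(convolutions in one block, planar operators, the estimate for one band).
-/

set_option autoImplicit false

namespace Pool.Agent.H93.TN

open MeasureTheory Set FourierTransform
open Pool.Agent.H83.LS Pool.Agent.H93.AR Pool.Agent.H54.LS Pool.Agent.H14.LS Pool.Agent.H83.AR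
open Pool.Agent.H84.BR Pool.Agent.H84.B2
open scoped ENNReal NNReal

/-! ### convolutions in one block -/

/-- convolution in the first block -/
noncomputable def cb1 (a b : ℕ) (κ : EE a → ℂ) (f : EE (a + b) → ℂ) (x : EE (a + b)) : ℂ :=
  ∫ y : EE a, κ (p1 a b x - y) * f (jm a b y (p2 a b x))

/-- convolution in the second block -/
noncomputable def cb2 (a b : ℕ) (κ : EE b → ℂ) (f : EE (a + b) → ℂ) (x : EE (a + b)) : ℂ :=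
  ∫ z : EE b, κ (p2 a b x - z) * f (jm a b (p1 a b x) z)

/-- CB1: convolutions in the first block -/
def T_CB1 : Prop := ∀ (a b : ℕ) (s : EE a → ℂ) (f : EE (a + b) → ℂ) (A B : ℝ), 1 ≤ a → 1 ≤ b →
  SC s → (∀ ξ, ‖s ξ‖ ≤ B) → BI A f →
  BI ((∫ y, ‖MK s y‖) * A) (cb1 a b (MK s) f) ∧
  (∀ ξ, 𝓕 (cb1 a b (MK s) f) ξ = s (p1 a b ξ) * 𝓕 f ξ) ∧
  ∫⁻ x, ‖cb1 a b (MK s) f x‖ₑ ^ 2 ≤ ENNReal.ofReal (B ^ 2) * ∫⁻ x, ‖f x‖ₑ ^ 2 ∧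
  (∀ x : EE (a + b), cb1 a b (MK s) f x =
    cn (MK s) (fun y => f (jm a b y (p2 a b x))) (p1 a b x)) ∧
  ∀ m : EE (a + b) → ℂ, Measurable m → Integrable m → ∀ x,
    MM m (cb1 a b (MK s) f) x = MM (fun ξ => m ξ * s (p1 a b ξ)) f x ∧
    cb1 a b (MK s) (MM m f) x = MM (fun ξ => m ξ * s (p1 a b ξ)) f x

/-- CB2: convolutions in the second block -/
def T_CB2 : Prop := ∀ (a b : ℕ) (s : EE b → ℂ) (f : EE (a + b) → ℂ) (A B : ℝ), 1 ≤ a → 1 ≤ b →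
  SC s → (∀ ξ, ‖s ξ‖ ≤ B) → BI A f →
  BI ((∫ y, ‖MK s y‖) * A) (cb2 a b (MK s) f) ∧
  (∀ ξ, 𝓕 (cb2 a b (MK s) f) ξ = s (p2 a b ξ) * 𝓕 f ξ) ∧
  ∫⁻ x, ‖cb2 a b (MK s) f x‖ₑ ^ 2 ≤ ENNReal.ofReal (B ^ 2) * ∫⁻ x, ‖f x‖ₑ ^ 2

/-- CMT: block convolutions, averages and multipliers commute -/
def T_CMT : Prop := ∀ (a b : ℕ) (L A : ℝ) (f : EE (a + b) → ℂ), 1 ≤ a → 1 ≤ b → 1 ≤ L →
  BI A f →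
  (∀ (s : EE a → ℂ) (x : EE (a + b)), SC s →
    A2 a b L (cb1 a b (MK s) f) x = cb1 a b (MK s) (A2 a b L f) x) ∧
  (∀ m : EE (a + b) → ℂ, Measurable m → Integrable m → (∃ B : ℝ, ∀ ξ, ‖m ξ‖ ≤ B) →
    (∀ ξ ξ' : EE (a + b), ‖p1 a b ξ‖ = ‖p1 a b ξ'‖ → p2 a b ξ = p2 a b ξ' → m ξ = m ξ') →
    ∀ x, MM m (A1 a b L f) x = A1 a b L (MM m f) x)

/-! ### planar operators -/

/-- convolution with `K` in the plane of the unit vectors `u` (first block), `w` (second block) -/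
noncomputable def pl (a b : ℕ) (u : EE a) (w : EE b) (K : ℝ × ℝ → ℂ) (g : EE (a + b) → ℂ)
    (x : EE (a + b)) : ℂ :=
  ∫ r : ℝ × ℝ, K r * g (x - jm a b (r.1 • u) (r.2 • w))

/-- norm of the planar part of `ξ` -/
noncomputable def zz (a b : ℕ) (u : EE a) (w : EE b) (ξ : EE (a + b)) : ℝ :=
  Real.sqrt ((inner ℝ (p1 a b ξ) u : ℝ) ^ 2 + (inner ℝ (p2 a b ξ) w : ℝ) ^ 2)

/-- SP2: coordinates adapted to `u`, `w` -/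
def T_SP2 : Prop := ∀ (a b : ℕ) (u : EE (a + 1)) (w : EE (b + 1)), ‖u‖ = 1 → ‖w‖ = 1 →
  ∃ Φ : EE (a + b) × (ℝ × ℝ) ≃ᵐ EE ((a + 1) + (b + 1)), MeasurePreserving Φ volume volume ∧
  Continuous Φ ∧
  (∀ (y : EE (a + b)) (r : ℝ × ℝ), Φ (y, r) = Φ (y, 0) + jm (a + 1) (b + 1) (r.1 • u) (r.2 • w)) ∧
  (∀ (y : EE (a + b)) (r : ℝ × ℝ), (inner ℝ (p1 (a + 1) (b + 1) (Φ (y, r))) u : ℝ) = r.1 ∧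
    (inner ℝ (p2 (a + 1) (b + 1) (Φ (y, r))) w : ℝ) = r.2) ∧
  (∀ (y y' : EE (a + b)) (r r' : ℝ × ℝ), (inner ℝ (Φ (y, r)) (Φ (y', r')) : ℝ) =
    inner ℝ y y' + (r.1 * r'.1 + r.2 * r'.2))

/-- PLP: properties of the planar half wave operators -/
def T_PLP : Prop := ∀ a b : ℕ, 1 ≤ a → 1 ≤ b → ∃ C : ℝ, 0 ≤ C ∧ ∀ (lam Lam t A : ℝ) (u : EE a)
  (w : EE b) (g : EE (a + b) → ℂ), 1 ≤ lam → 0 < Lam → Lam ≤ 4 * lam → t ∈ Icc (1 : ℝ) 2 →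
  ‖u‖ = 1 → ‖w‖ = 1 → BI A g →
  BI (C * Real.sqrt lam * A) (pl a b u w (KK t lam Lam) g) ∧
  ∀ ξ, 𝓕 (pl a b u w (KK t lam Lam) g) ξ = e (t * zz a b u w ξ) *
    ((chi (zz a b u w ξ / lam) * chis (inner ℝ (p1 a b ξ) u / Lam) : ℝ) : ℂ) * 𝓕 g ξ

/-- PLS: local smoothing for the planar operators -/
def T_PLS : Prop := ∀ (a b : ℕ) (q η : ℝ), 1 ≤ a → 1 ≤ b → 2 < q → q ≤ 3 → 0 < η → ∃ C : ℝ≥0,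
  ∀ (lam Lam A : ℝ) (u : EE a) (w : EE b) (g : EE (a + b) → ℂ), 1 ≤ lam → 0 < Lam →
  Lam ≤ 4 * lam → ‖u‖ = 1 → ‖w‖ = 1 → BI A g →
  Measurable (fun p : ℝ × EE (a + b) => pl a b u w (KK p.1 lam Lam) g p.2) ∧
  (∫⁻ t in Icc (1 : ℝ) 2, ∫⁻ x, ‖pl a b u w (KK t lam Lam) g x‖ₑ ^ q ≤
    C * ENNReal.ofReal (lam ^ η * A ^ (q - 2)) * ∫⁻ x, ‖g x‖ₑ ^ 2) ∧
  ∀ σ : ℝ, 0 < σ →
    ∫⁻ t in Icc (1 : ℝ) 2, ∫⁻ x in {x : EE (a + b) | |inner ℝ (p1 a b x) u| ≤ σ},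
      ‖pl a b u w (KK t lam Lam) g x‖ₑ ^ q ≤
    C * ENNReal.ofReal (lam ^ η * (σ * lam / Lam) ^ (2 - q / 2) * A ^ (q - 2)) *
      ∫⁻ x, ‖g x‖ₑ ^ 2

/-- the symbol which corrects the planar wave operator -/
noncomputable def mu (a b : ℕ) (u : EE a) (w : EE b) (lam t : ℝ) (ξ : EE (a + b)) : ℂ :=
  e (t * (‖ξ‖ - zz a b u w ξ)) * ((chi (‖ξ‖ / lam) * ch2 (zz a b u w ξ / lam) *
    eta0 ((‖ξ‖ ^ 2 - zz a b u w ξ ^ 2) / (16 * lam)) : ℝ) : ℂ)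

/-- MKR: kernel of `mu` -/
def T_MKR : Prop := ∀ a b : ℕ, 1 ≤ a → 1 ≤ b → ∃ C : ℝ, 0 ≤ C ∧ ∀ (lam : ℝ) (u : EE a)
  (w : EE b), 1 ≤ lam → ‖u‖ = 1 → ‖w‖ = 1 →
  (∀ t, Measurable (mu a b u w lam t) ∧ Integrable (mu a b u w lam t) ∧
    ∀ ξ, ‖mu a b u w lam t ξ‖ ≤ 1) ∧
  Continuous (fun p : ℝ × EE (a + b) => MK (mu a b u w lam p.1) p.2) ∧
  ∃ k : EE (a + b) → ℝ≥0∞, Measurable k ∧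
  (∀ t ∈ Icc (1 : ℝ) 2, ∀ x, ‖MK (mu a b u w lam t) x‖ₑ ≤ k x) ∧
  ∫⁻ x, k x * ENNReal.ofReal (1 + lam * |inner ℝ (p1 a b x) u|) ≤ ENNReal.ofReal C

/-- WSL: convolutions and slabs -/
def T_WSL : Prop := ∀ (d : ℕ) (q γ Lam : ℝ) (l : EE d → ℝ) (k : EE d → ℝ≥0∞)
  (U V : ℝ → EE d → ℝ≥0∞) (G : ℝ≥0∞), 1 ≤ q → 0 ≤ γ → γ ≤ q → 0 < Lam → Continuous l →
  (∀ x z, l (x - z) = l x - l z) → Measurable k → Measurable (Function.uncurry U) →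
  (∀ t ∈ Icc (1 : ℝ) 2, ∀ x, V t x ≤ ∫⁻ z, k z * U t (x - z)) →
  (∀ σ : ℝ, 1 / Lam ≤ σ →
    ∫⁻ t in Icc (1 : ℝ) 2, ∫⁻ x in {x | |l x| ≤ σ}, U t x ^ q ≤ G * ENNReal.ofReal (σ ^ γ)) →
  ∀ σ : ℝ, 1 / Lam ≤ σ →
    ∫⁻ t in Icc (1 : ℝ) 2, ∫⁻ x in {x | |l x| ≤ σ}, V t x ^ q ≤
      G * ENNReal.ofReal (σ ^ γ) * (∫⁻ z, k z * ENNReal.ofReal (1 + Lam * |l z|)) ^ q

/-! ### one band -/

/-- status of a block: high frequencies (a band around `u`) or low frequencies -/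
def BS (n : ℕ) (lam Lam : ℝ) (c : ℝ → ℝ) (κ : EE n → ℂ) (u : EE n) : Prop :=
  ‖u‖ = 1 ∧ ((Real.sqrt lam ≤ Lam ∧ Lam ≤ 4 * lam ∧ (∀ s, c s = chi (s / Lam)) ∧
      κ = sy n ch2 Lam (dl lam Lam) u) ∨
    (Lam = Real.sqrt lam ∧ (∀ s, c s = eta0 (s / Lam)) ∧ ∀ ξ, κ ξ = 1))

/-- symbol of the half wave operator with radial and angular cutoffs in both blocks -/
noncomputable def mB (a b : ℕ) (c₁ c₂ : ℝ → ℝ) (κ₁ : EE a → ℂ) (κ₂ : EE b → ℂ) (lam t : ℝ)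
    (ξ : EE (a + b)) : ℂ :=
  mc a b c₁ c₂ lam t ξ * (κ₁ (p1 a b ξ) * κ₂ (p2 a b ξ))

/-- BNS: the symbol of a band, decomposition -/
def T_BNS : Prop := ∃ lam₀ : ℝ, 1 ≤ lam₀ ∧ ∀ (a b : ℕ) (lam Lam₁ Lam₂ t : ℝ) (c₁ c₂ : ℝ → ℝ)
  (κ₁ : EE a → ℂ) (κ₂ : EE b → ℂ) (u : EE a) (w : EE b) (ξ : EE (a + b)), 1 ≤ a → 1 ≤ b →
  lam₀ ≤ lam → ‖u‖ = 1 → (∀ s, c₁ s = chi (s / Lam₁)) →
  κ₁ = sy a ch2 Lam₁ (dl lam Lam₁) u → Real.sqrt lam ≤ Lam₁ → Lam₁ ≤ 4 * lam →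
  BS b lam Lam₂ c₂ κ₂ w →
  mB a b c₁ c₂ κ₁ κ₂ lam t ξ = mu a b u w lam t ξ *
    (∑ i : Fin 2, ∑ j : Fin 4, e (t * zz a b u w ξ) *
      ((chi (zz a b u w ξ / (lam / 2 ^ (j : ℕ) * 2)) *
        chis (inner ℝ (p1 a b ξ) u / (min Lam₁ lam / 8 ^ (i : ℕ))) : ℝ) : ℂ)) *
    (sy a chi Lam₁ (dl lam Lam₁) u (p1 a b ξ) * (((c₂ ‖p2 a b ξ‖ : ℝ) : ℂ) * κ₂ (p2 a b ξ)))

/-- BND: one band, the first block has high frequencies -/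
def T_BND : Prop := ∀ (a b : ℕ) (q η : ℝ), 1 ≤ a → 1 ≤ b → 2 < q → q ≤ 3 → 0 < η → ∃ C : ℝ≥0,
  ∀ (lam Lam₁ Lam₂ A : ℝ) (c₁ c₂ : ℝ → ℝ) (κ₁ : EE a → ℂ) (κ₂ : EE b → ℂ) (u : EE a) (w : EE b)
  (g : EE (a + b) → ℂ), 1 ≤ lam → ‖u‖ = 1 → Real.sqrt lam ≤ Lam₁ → Lam₁ ≤ 4 * lam →
  (∀ s, c₁ s = chi (s / Lam₁)) → κ₁ = sy a ch2 Lam₁ (dl lam Lam₁) u →
  BS b lam Lam₂ c₂ κ₂ w → BI A g →
  (∫⁻ t in Icc (1 : ℝ) 2, ∫⁻ x, ‖MM (mB a b c₁ c₂ κ₁ κ₂ lam t) g x‖ₑ ^ q ≤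
    C * ENNReal.ofReal (lam ^ η * A ^ (q - 2)) * ∫⁻ x, ‖g x‖ₑ ^ 2) ∧
  ∀ σ : ℝ, 1 / Lam₁ ≤ σ →
    ∫⁻ t in Icc (1 : ℝ) 2, ∫⁻ x in {x : EE (a + b) | |inner ℝ (p1 a b x) u| ≤ σ},
      ‖MM (mB a b c₁ c₂ κ₁ κ₂ lam t) g x‖ₑ ^ q ≤
    C * ENNReal.ofReal (lam ^ η * (σ * lam / Lam₁) ^ (2 - q / 2) * A ^ (q - 2)) *
      ∫⁻ x, ‖g x‖ₑ ^ 2

/-- BNM: the mirror image of BND -/
def T_BNM : Prop := ∀ (a b : ℕ) (q η : ℝ), 1 ≤ a → 1 ≤ b → 2 < q → q ≤ 3 → 0 < η → ∃ C : ℝ≥0,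
  ∀ (lam Lam₁ Lam₂ A : ℝ) (c₁ c₂ : ℝ → ℝ) (κ₁ : EE a → ℂ) (κ₂ : EE b → ℂ) (u : EE a) (w : EE b)
  (g : EE (a + b) → ℂ), 1 ≤ lam → ‖w‖ = 1 → Real.sqrt lam ≤ Lam₂ → Lam₂ ≤ 4 * lam →
  (∀ s, c₂ s = chi (s / Lam₂)) → κ₂ = sy b ch2 Lam₂ (dl lam Lam₂) w →
  BS a lam Lam₁ c₁ κ₁ u → BI A g →
  (∫⁻ t in Icc (1 : ℝ) 2, ∫⁻ x, ‖MM (mB a b c₁ c₂ κ₁ κ₂ lam t) g x‖ₑ ^ q ≤
    C * ENNReal.ofReal (lam ^ η * A ^ (q - 2)) * ∫⁻ x, ‖g x‖ₑ ^ 2) ∧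
  ∀ σ : ℝ, 1 / Lam₂ ≤ σ →
    ∫⁻ t in Icc (1 : ℝ) 2, ∫⁻ x in {x : EE (a + b) | |inner ℝ (p2 a b x) w| ≤ σ},
      ‖MM (mB a b c₁ c₂ κ₁ κ₂ lam t) g x‖ₑ ^ q ≤
    C * ENNReal.ofReal (lam ^ η * (σ * lam / Lam₂) ^ (2 - q / 2) * A ^ (q - 2)) *
      ∫⁻ x, ‖g x‖ₑ ^ 2

end Pool.Agent.H93.TN
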