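import Pool.Agent.H93.TN.TargetsB

/-!
Local smoothing with a smaller fraction of an angular derivative (MP_ee74d2_an): targets of part C
(from the bands to the restricted type estimate).
-/

set_option autoImplicit false

namespace Pool.Agent.H93.TN

open MeasureTheory Set FourierTransform
open Pool.Agent.H83.LS Pool.Agent.H93.AR Pool.Agent.H54.LS Pool.Agent.H14.LS Pool.Agent.H83.AR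
open Pool.Agent.H84.BR Pool.Agent.H84.B2
open scoped ENNReal NNReal

/-- admissible inner radius `ρ` and aperture `φ` of a region: no localization, or localization -/
def RG (n : ℕ) (ε lam Lam L ρ φ : ℝ) : Prop := (ρ = 0 ∧ φ = 1) ∨
  (2 ≤ n ∧ 0 < ρ ∧ ρ ≤ 4 ∧ dl lam Lam ≤ φ ∧ φ ≤ 1 / 16 ∧ lam ^ ε * (L / (ρ * Lam)) ≤ φ ∧
    lam ^ ε / Real.sqrt (ρ * Lam) ≤ φ)

/-- loss of a region -/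
noncomputable def FR (n : ℕ) (q lam Lam φ : ℝ) : ℝ :=
  (φ / dl lam Lam) ^ (((n : ℝ) - 1) * (q - 2))

/-- admissible families of symbols: `|ξ'| ~ Λ`, invariant under the rotations of the first block -/
def MF1 (a b : ℕ) (M lam Lam : ℝ) (m : ℝ → EE (a + b) → ℂ) : Prop :=
  Continuous (Function.uncurry m) ∧ (∀ t ξ, ‖m t ξ‖ ≤ 1) ∧
  (∀ t ξ, m t ξ ≠ 0 → ‖ξ‖ ≤ 2 * lam ∧ Lam / 2 ≤ ‖p1 a b ξ‖ ∧ ‖p1 a b ξ‖ ≤ 2 * Lam) ∧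
  (∀ (t : ℝ) (ξ ξ' : EE (a + b)), ‖p1 a b ξ‖ = ‖p1 a b ξ'‖ → p2 a b ξ = p2 a b ξ' →
    m t ξ = m t ξ') ∧
  ∀ t ∈ Icc (1 : ℝ) 2, ∀ (A : ℝ) (f : EE (a + b) → ℂ), BI A f →
    ∀ x, ‖MM (m t) f x‖ ≤ M * lam ^ M * A

/-- the same for the second block -/
def MF2 (a b : ℕ) (M lam Lam : ℝ) (m : ℝ → EE (a + b) → ℂ) : Prop :=
  Continuous (Function.uncurry m) ∧ (∀ t ξ, ‖m t ξ‖ ≤ 1) ∧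
  (∀ t ξ, m t ξ ≠ 0 → ‖ξ‖ ≤ 2 * lam ∧ Lam / 2 ≤ ‖p2 a b ξ‖ ∧ ‖p2 a b ξ‖ ≤ 2 * Lam) ∧
  (∀ (t : ℝ) (ξ ξ' : EE (a + b)), ‖p2 a b ξ‖ = ‖p2 a b ξ'‖ → p1 a b ξ = p1 a b ξ' →
    m t ξ = m t ξ') ∧
  ∀ t ∈ Icc (1 : ℝ) 2, ∀ (A : ℝ) (f : EE (a + b) → ℂ), BI A f →
    ∀ x, ‖MM (m t) f x‖ ≤ M * lam ^ M * A

/-- OB: from the bands of the first block to all frequencies of the first block -/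
def T_OB : Prop := ∀ (a b : ℕ) (q ε M : ℝ) (N : ℕ), 1 ≤ a → 1 ≤ b → 2 < q → 0 < ε → 0 ≤ M →
  ∃ C : ℝ≥0, ∀ (lam Lam L ρ φ σ A : ℝ) (K : ℝ≥0∞) (Y : Set (EE b)) (m : ℝ → EE (a + b) → ℂ)
  (R : (EE (a + b) → ℂ) → EE (a + b) → ℂ) (h : EE (a + b) → ℂ), 1 ≤ lam →
  Real.sqrt lam ≤ Lam → Lam ≤ 4 * lam → 1 ≤ L → 1 / Lam ≤ σ → RG a ε lam Lam L ρ φ →
  MeasurableSet Y → MF1 a b M lam Lam m → ((∀ f, R f = f) ∨ (∀ f, R f = A2 a b L f)) →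
  (∀ (u : EE a) (A' : ℝ) (g : EE (a + b) → ℂ), ‖u‖ = 1 → BI A' g →
    ∫⁻ t in Icc (1 : ℝ) 2, ∫⁻ x in {x : EE (a + b) | |inner ℝ (p1 a b x) u| ≤ 2 * lam ^ ε * σ ∧
      p2 a b x ∈ Y},
      ‖MM (fun ξ => m t ξ * sy a ch2 Lam (dl lam Lam) u (p1 a b ξ)) (R g) x‖ₑ ^ q ≤
      K * ENNReal.ofReal (A' ^ (q - 2)) * ∫⁻ x, ‖g x‖ₑ ^ 2) →
  BI A h →
  ∫⁻ t in Icc (1 : ℝ) 2, ∫⁻ x in {x : EE (a + b) | ρ ≤ ‖p1 a b x‖ ∧ ‖p1 a b x‖ ≤ σ ∧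
      p2 a b x ∈ Y}, ‖MM (m t) (A1 a b L (R h)) x‖ₑ ^ q ≤
    C * (ENNReal.ofReal (FR a q lam Lam φ) * K + ENNReal.ofReal ((lam ^ N)⁻¹)) *
      ENNReal.ofReal (A ^ (q - 2)) * ∫⁻ x, ‖h x‖ₑ ^ 2

/-- OBM: the mirror image of OB (`R` the identity) -/
def T_OBM : Prop := ∀ (a b : ℕ) (q ε M : ℝ) (N : ℕ), 1 ≤ a → 1 ≤ b → 2 < q → 0 < ε → 0 ≤ M →
  ∃ C : ℝ≥0, ∀ (lam Lam L ρ φ σ A : ℝ) (K : ℝ≥0∞) (Y : Set (EE a)) (m : ℝ → EE (a + b) → ℂ)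
  (h : EE (a + b) → ℂ), 1 ≤ lam →
  Real.sqrt lam ≤ Lam → Lam ≤ 4 * lam → 1 ≤ L → 1 / Lam ≤ σ → RG b ε lam Lam L ρ φ →
  MeasurableSet Y → MF2 a b M lam Lam m →
  (∀ (w : EE b) (A' : ℝ) (g : EE (a + b) → ℂ), ‖w‖ = 1 → BI A' g →
    ∫⁻ t in Icc (1 : ℝ) 2, ∫⁻ x in {x : EE (a + b) | |inner ℝ (p2 a b x) w| ≤ 2 * lam ^ ε * σ ∧
      p1 a b x ∈ Y},
      ‖MM (fun ξ => m t ξ * sy b ch2 Lam (dl lam Lam) w (p2 a b ξ)) g x‖ₑ ^ q ≤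
      K * ENNReal.ofReal (A' ^ (q - 2)) * ∫⁻ x, ‖g x‖ₑ ^ 2) →
  BI A h →
  ∫⁻ t in Icc (1 : ℝ) 2, ∫⁻ x in {x : EE (a + b) | ρ ≤ ‖p2 a b x‖ ∧ ‖p2 a b x‖ ≤ σ ∧
      p1 a b x ∈ Y}, ‖MM (m t) (A2 a b L h) x‖ₑ ^ q ≤
    C * (ENNReal.ofReal (FR b q lam Lam φ) * K + ENNReal.ofReal ((lam ^ N)⁻¹)) *
      ENNReal.ofReal (A ^ (q - 2)) * ∫⁻ x, ‖h x‖ₑ ^ 2

/-- MFX: the families of symbols in use are admissible -/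
def T_MFX : Prop := ∀ a b : ℕ, 1 ≤ a → 1 ≤ b → ∃ M : ℝ, 0 ≤ M ∧
  ∀ (lam Lam₁ Lam₂ : ℝ) (c₁ c₂ : ℝ → ℝ) (κ₁ : EE a → ℂ) (κ₂ : EE b → ℂ) (u : EE a) (w : EE b),
  1 ≤ lam → BS a lam Lam₁ c₁ κ₁ u → BS b lam Lam₂ c₂ κ₂ w →
  ((∀ s, c₁ s = chi (s / Lam₁)) →
    MF1 a b M lam Lam₁ (fun t ξ => mB a b c₁ c₂ (fun _ => 1) κ₂ lam t ξ)) ∧
  ((∀ s, c₂ s = chi (s / Lam₂)) →
    MF2 a b M lam Lam₂ (fun t ξ => mB a b c₁ c₂ κ₁ (fun _ => 1) lam t ξ)) ∧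
  ((∀ s, c₁ s = chi (s / Lam₁)) →
    MF1 a b M lam Lam₁ (fun t ξ => mB a b c₁ c₂ (fun _ => 1) (fun _ => 1) lam t ξ)) ∧
  ((∀ s, c₂ s = chi (s / Lam₂)) →
    MF2 a b M lam Lam₂ (fun t ξ => mB a b c₁ c₂ (fun _ => 1) (fun _ => 1) lam t ξ))

/-- HH: both blocks have high frequencies, one region in each block -/
def T_HH : Prop := ∀ (a b : ℕ) (q ε : ℝ) (N : ℕ), 1 ≤ a → 1 ≤ b → 2 < q → q ≤ 3 → 0 < ε →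
  ε ≤ 1 → ∃ C : ℝ≥0, ∀ (lam Lam₁ Lam₂ L ρ₁ φ₁ σ₁ ρ₂ φ₂ σ₂ A : ℝ) (h : EE (a + b) → ℂ),
  1 ≤ lam → Real.sqrt lam ≤ Lam₁ → Lam₁ ≤ 4 * lam → Real.sqrt lam ≤ Lam₂ → Lam₂ ≤ 4 * lam →
  1 ≤ L → 1 / Lam₁ ≤ σ₁ → 1 / Lam₂ ≤ σ₂ → RG a ε lam Lam₁ L ρ₁ φ₁ → RG b ε lam Lam₂ L ρ₂ φ₂ →
  BI A h →
  ∫⁻ t in Icc (1 : ℝ) 2, ∫⁻ x in {x : EE (a + b) | (ρ₁ ≤ ‖p1 a b x‖ ∧ ‖p1 a b x‖ ≤ σ₁) ∧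
      (ρ₂ ≤ ‖p2 a b x‖ ∧ ‖p2 a b x‖ ≤ σ₂)},
      ‖MM (mc a b (fun s => chi (s / Lam₁)) (fun s => chi (s / Lam₂)) lam t)
        (A1 a b L (A2 a b L h)) x‖ₑ ^ q ≤
    C * ENNReal.ofReal ((lam ^ (2 * ε) * FR a q lam Lam₁ φ₁ * FR b q lam Lam₂ φ₂ *
        min 1 (min (σ₁ * lam / Lam₁) (σ₂ * lam / Lam₂)) ^ (2 - q / 2) +
        FR a q lam Lam₁ φ₁ * (lam ^ N)⁻¹ + (lam ^ N)⁻¹) * A ^ (q - 2)) * ∫⁻ x, ‖h x‖ₑ ^ 2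

/-- HL: high frequencies in the first block, low frequencies in the second block -/
def T_HL : Prop := ∀ (a b : ℕ) (q ε : ℝ) (N : ℕ), 1 ≤ a → 1 ≤ b → 2 < q → q ≤ 3 → 0 < ε →
  ε ≤ 1 → ∃ C : ℝ≥0, ∀ (lam Lam L ρ φ σ A : ℝ) (h : EE (a + b) → ℂ),
  1 ≤ lam → Real.sqrt lam ≤ Lam → Lam ≤ 4 * lam → 1 ≤ L → 1 / Lam ≤ σ →
  RG a ε lam Lam L ρ φ → BI A h →
  ∫⁻ t in Icc (1 : ℝ) 2, ∫⁻ x in {x : EE (a + b) | ρ ≤ ‖p1 a b x‖ ∧ ‖p1 a b x‖ ≤ σ},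
      ‖MM (mc a b (fun s => chi (s / Lam)) (fun s => eta0 (s / Real.sqrt lam)) lam t)
        (A1 a b L h) x‖ₑ ^ q ≤
    C * ENNReal.ofReal ((lam ^ (2 * ε) * FR a q lam Lam φ *
        min 1 (σ * lam / Lam) ^ (2 - q / 2) + (lam ^ N)⁻¹) * A ^ (q - 2)) * ∫⁻ x, ‖h x‖ₑ ^ 2

/-- LH: low frequencies in the first block, high frequencies in the second block -/
def T_LH : Prop := ∀ (a b : ℕ) (q ε : ℝ) (N : ℕ), 1 ≤ a → 1 ≤ b → 2 < q → q ≤ 3 → 0 < ε →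
  ε ≤ 1 → ∃ C : ℝ≥0, ∀ (lam Lam L ρ φ σ A : ℝ) (h : EE (a + b) → ℂ),
  1 ≤ lam → Real.sqrt lam ≤ Lam → Lam ≤ 4 * lam → 1 ≤ L → 1 / Lam ≤ σ →
  RG b ε lam Lam L ρ φ → BI A h →
  ∫⁻ t in Icc (1 : ℝ) 2, ∫⁻ x in {x : EE (a + b) | ρ ≤ ‖p2 a b x‖ ∧ ‖p2 a b x‖ ≤ σ},
      ‖MM (mc a b (fun s => eta0 (s / Real.sqrt lam)) (fun s => chi (s / Lam)) lam t)
        (A2 a b L h) x‖ₑ ^ q ≤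
    C * ENNReal.ofReal ((lam ^ (2 * ε) * FR b q lam Lam φ *
        min 1 (σ * lam / Lam) ^ (2 - q / 2) + (lam ^ N)⁻¹) * A ^ (q - 2)) * ∫⁻ x, ‖h x‖ₑ ^ 2

/-- RGN: the list of regions -/
def T_RGN : Prop := ∀ (n : ℕ) (ε : ℝ), 1 ≤ n → 0 < ε → ∃ C : ℝ, 1 ≤ C ∧ ∀ lam Lam L Z : ℝ,
  1 ≤ lam → Real.sqrt lam ≤ Lam → Lam ≤ 4 * lam → 1 ≤ L → 4 ≤ Z →
  ∃ (J : ℕ) (ρ φ σ : ℕ → ℝ), (J : ℝ) ≤ C * lam ^ ε ∧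
  (∀ r : ℝ, 0 ≤ r → r ≤ Z → ∃ j < J, ρ j ≤ r ∧ r ≤ σ j) ∧
  ∀ j < J, RG n ε lam Lam L (ρ j) (φ j) ∧ 1 / Lam ≤ σ j ∧
    dl lam Lam ≤ φ j ∧ φ j ≤ 1 ∧
    (2 ≤ n → (φ j / dl lam Lam) ^ 2 * min 1 (σ j * lam / Lam) ≤ C * lam ^ (2 * ε) * L)

/-- ARI: arithmetic of the losses, `α = (a-1)(q-2)/2`, `β = (b-1)(q-2)/2`, `c = 2-q/2` -/
def T_ARI : Prop := ∀ (a b : ℕ) (q : ℝ), 1 ≤ a → 1 ≤ b → 2 < q → q ≤ 3 →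
  ∀ (C lam L ε Lam₁ Lam₂ φ₁ φ₂ T₁ T₂ : ℝ), 1 ≤ C → 1 ≤ lam → 1 ≤ L → 0 < ε →
  Real.sqrt lam ≤ Lam₁ → Lam₁ ≤ 4 * lam → Real.sqrt lam ≤ Lam₂ → Lam₂ ≤ 4 * lam →
  dl lam Lam₁ ≤ φ₁ → φ₁ ≤ 1 → dl lam Lam₂ ≤ φ₂ → φ₂ ≤ 1 →
  0 < T₁ → T₁ ≤ 1 → 0 < T₂ → T₂ ≤ 1 →
  (2 ≤ a → (φ₁ / dl lam Lam₁) ^ 2 * T₁ ≤ C * lam ^ (2 * ε) * L) →
  (2 ≤ b → (φ₂ / dl lam Lam₂) ^ 2 * T₂ ≤ C * lam ^ (2 * ε) * L) →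
  FR a q lam Lam₁ φ₁ * FR b q lam Lam₂ φ₂ * min 1 (min T₁ T₂) ^ (2 - q / 2) ≤
    (4096 * C) ^ ((a : ℝ) + b) * lam ^ (2 * ε * ((a : ℝ) + b)) *
      (lam ^ (ExR ((a : ℝ) + b - 1) q) * L ^ (2 - q / 2))

/-- PHH: one piece, both blocks have high frequencies -/
def T_PHH : Prop := ∀ (a b : ℕ) (q η : ℝ), 1 ≤ a → 1 ≤ b → 2 < q → q ≤ 3 → 0 < η →
  ∃ C : ℝ≥0, ∀ (lam Lam₁ Lam₂ L A : ℝ) (h : EE (a + b) → ℂ),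
  1 ≤ lam → Real.sqrt lam ≤ Lam₁ → Lam₁ ≤ 4 * lam → Real.sqrt lam ≤ Lam₂ → Lam₂ ≤ 4 * lam →
  1 ≤ L → BI A h →
  ∫⁻ t in Icc (1 : ℝ) 2, ∫⁻ x,
      ‖MM (mc a b (fun s => chi (s / Lam₁)) (fun s => chi (s / Lam₂)) lam t)
        (A1 a b L (A2 a b L h)) x‖ₑ ^ q ≤
    C * ENNReal.ofReal (lam ^ (ExR ((a : ℝ) + b - 1) q + η) * L ^ (2 - q / 2) * A ^ (q - 2)) *
      ∫⁻ x, ‖h x‖ₑ ^ 2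

/-- PHL: one piece, high frequencies in the first block only -/
def T_PHL : Prop := ∀ (a b : ℕ) (q η : ℝ), 1 ≤ a → 1 ≤ b → 2 < q → q ≤ 3 → 0 < η →
  ∃ C : ℝ≥0, ∀ (lam Lam L A : ℝ) (h : EE (a + b) → ℂ),
  1 ≤ lam → Real.sqrt lam ≤ Lam → Lam ≤ 4 * lam → 1 ≤ L → BI A h →
  ∫⁻ t in Icc (1 : ℝ) 2, ∫⁻ x,
      ‖MM (mc a b (fun s => chi (s / Lam)) (fun s => eta0 (s / Real.sqrt lam)) lam t)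
        (A1 a b L h) x‖ₑ ^ q ≤
    C * ENNReal.ofReal (lam ^ (ExR ((a : ℝ) + b - 1) q + η) * L ^ (2 - q / 2) * A ^ (q - 2)) *
      ∫⁻ x, ‖h x‖ₑ ^ 2

/-- PLH: one piece, high frequencies in the second block only -/
def T_PLH : Prop := ∀ (a b : ℕ) (q η : ℝ), 1 ≤ a → 1 ≤ b → 2 < q → q ≤ 3 → 0 < η →
  ∃ C : ℝ≥0, ∀ (lam Lam L A : ℝ) (h : EE (a + b) → ℂ),
  1 ≤ lam → Real.sqrt lam ≤ Lam → Lam ≤ 4 * lam → 1 ≤ L → BI A h →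
  ∫⁻ t in Icc (1 : ℝ) 2, ∫⁻ x,
      ‖MM (mc a b (fun s => eta0 (s / Real.sqrt lam)) (fun s => chi (s / Lam)) lam t)
        (A2 a b L h) x‖ₑ ^ q ≤
    C * ENNReal.ofReal (lam ^ (ExR ((a : ℝ) + b - 1) q + η) * L ^ (2 - q / 2) * A ^ (q - 2)) *
      ∫⁻ x, ‖h x‖ₑ ^ 2

/-- RT: restricted type estimate, `2 < q ≤ 3` -/
def T_RT : Prop := ∀ (a b : ℕ) (q η : ℝ), 2 ≤ a → 1 ≤ b → 2 < q → q ≤ 3 → 0 < η →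
  ∃ C : ℝ≥0, ∀ (lam L A : ℝ) (f : EE (a + b) → ℂ), 1 ≤ lam → 1 ≤ L → BI A f →
  ∫⁻ t in Icc (1 : ℝ) 2, ∫⁻ x, ‖MM (mT lam t) (AQ a b L f) x‖ₑ ^ q ≤
    C * ENNReal.ofReal (lam ^ (ExR ((a : ℝ) + b - 1) q + η) * L ^ (2 - q / 2) * A ^ (q - 2)) *
      ∫⁻ x, ‖f x‖ₑ ^ 2

end Pool.Agent.H93.TN
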