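import Pool.Agent.H93.TN.TargetsC
import Pool.Agent.H84.BR.ClaimDefs

/-!
Local smoothing with a smaller fraction of an angular derivative (MP_ee74d2_an): targets of part D
(from the restricted type estimate to the theorem).
-/

set_option autoImplicit false

namespace Pool.Agent.H93.TN

open MeasureTheory Set FourierTransform
open Pool.Agent.H83.LS Pool.Agent.H93.AR Pool.Agent.H54.LS Pool.Agent.H14.LS Pool.Agent.H83.AR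
open Pool.Agent.H84.BR Pool.Agent.H84.B2
open scoped ENNReal NNReal SchwartzMap

/-- the fraction of the derivative -/
noncomputable def th (p : ℝ) : ℝ := max (2 / p - 1 / 2) (1 / (2 * p))

/-- SG3: strong type after angular averages at scale `1/L` -/
def T_SG3 : Prop := ∀ (a b : ℕ) (p η : ℝ), 2 ≤ a → 1 ≤ b → 2 + 2 / ((a : ℝ) + b - 1) ≤ p →
  0 < η → ∃ C : ℝ≥0, ∀ (lam L : ℝ) (f : EE (a + b) → ℂ), 1 ≤ lam → 1 ≤ L → L ≤ lam ^ 2 →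
  Measurable f → Integrable f → (∃ A : ℝ, ∀ x, ‖f x‖ ≤ A) →
  ∫⁻ t in Icc (1 : ℝ) 2, ∫⁻ x, ‖MM (mT lam t) (AQ a b L f) x‖ₑ ^ p ≤
    C * ENNReal.ofReal (lam ^ (((a : ℝ) + b - 1) * (p / 2 - 1) - 1 + η) * L ^ (p * th p)) *
      ∫⁻ x, ‖f x‖ₑ ^ p

/-- BL3: one dyadic block -/
def T_BL3 : Prop := ∀ (a b : ℕ) (p η : ℝ), 2 ≤ a → 1 ≤ b → 2 + 2 / ((a : ℝ) + b - 1) ≤ p →
  0 < η → ∃ C : ℝ≥0, ∀ (lam : ℝ) (f : 𝓢(EE (a + b), ℂ)) (B₀ B₁ : ℝ≥0∞), 1 ≤ lam → B₀ ≤ B₁ →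
  ∫⁻ x, ‖f x‖ₑ ^ p ≤ B₀ → RotB a b p f B₁ →
  ∫⁻ t in Icc (1 : ℝ) 2, ∫⁻ x, ‖MM (mT lam t) f x‖ₑ ^ p ≤
    C * ENNReal.ofReal (lam ^ (((a : ℝ) + b - 1) * (p / 2 - 1) - 1 + η)) *
      (B₀ ^ (1 - th p) * B₁ ^ th p)

/-- HG3: one dyadic block with Bessel potentials -/
def T_HG3 : Prop := ∀ (a b : ℕ) (p r η : ℝ), 2 ≤ a → 1 ≤ b → 2 + 2 / ((a : ℝ) + b - 1) ≤ p →
  0 < η → ∃ C : ℝ≥0, ∀ (lam : ℝ) (u : 𝓢(EE (a + b), ℂ)) (B₀ B₁ : ℝ≥0∞), 1 ≤ lam → B₀ ≤ B₁ →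
  ∫⁻ x, ‖besS r u x‖ₑ ^ p ≤ B₀ → (∀ i j : Fin (a + b), (i.val < a ↔ j.val < a) →
    ∫⁻ x, ‖besS r (rotd i j u) x‖ₑ ^ p ≤ B₁) →
  (∫⁻ t in Icc (1 : ℝ) 2, ∫⁻ x, ‖MM (fun ξ => ((Real.cos (2 * Real.pi * t * ‖ξ‖) *
      chi (‖ξ‖ / lam) : ℝ) : ℂ)) u x‖ₑ ^ p ≤
    C * ENNReal.ofReal (lam ^ (((a : ℝ) + b - 1) * (p / 2 - 1) - 1 - p * r + η)) *
      (B₀ ^ (1 - th p) * B₁ ^ th p)) ∧
  (∫⁻ t in Icc (1 : ℝ) 2, ∫⁻ x, ‖MM (fun ξ => ((Real.sin (2 * Real.pi * t * ‖ξ‖) /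
      (2 * Real.pi * ‖ξ‖) * chi (‖ξ‖ / lam) : ℝ) : ℂ)) u x‖ₑ ^ p ≤
    C * ENNReal.ofReal (lam ^ (((a : ℝ) + b - 1) * (p / 2 - 1) - 1 - p * (r + 1) + η)) *
      (B₀ ^ (1 - th p) * B₁ ^ th p))

/-- FN3: the theorem -/
def T_FN3 : Prop := ∀ (a b : ℕ) (p σ : ℝ), 2 ≤ a → 1 ≤ b →
  2 + 2 / ((a : ℝ) + b - 1) ≤ p → σ < 1 / p →
  ∃ C : ℝ≥0, ∀ (u₀ u₁ : 𝓢(EE (a + b), ℂ)) (N₀ N₁ : ℝ≥0∞), N₀ ≤ N₁ → dat p σ u₀ u₁ ≤ N₀ →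
  (∀ i j : Fin (a + b), (i.val < a ↔ j.val < a) → dat p σ (rotd i j u₀) (rotd i j u₁) ≤ N₁) →
  (∫⁻ t in Icc (1 : ℝ) 2, eLpNorm (fun x => cosS u₀ t x + sinS u₁ t x) (ENNReal.ofReal p)
    volume ^ p) ^ (1 / p) ≤ (C : ℝ≥0∞) * (N₀ ^ (1 - th p) * N₁ ^ th p)

/-- FNC: the theorem in terms of the definitions of the claim -/
def T_FNC : Prop := ∀ (a b : ℕ), 2 ≤ a → 1 ≤ b → ∀ p σ : ℝ,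
  2 * ((a : ℝ) + b) / (a + b - 1) ≤ p → σ < 1 / p →
  ∃ C : ℝ≥0, ∀ u₀ u₁ : 𝓢(EE (a + b), ℂ), CD.solNorm p u₀ u₁ ≤
    C * (CD.datN p σ u₀ u₁ ^ (1 - max (2 / p - 1 / 2) (1 / (2 * p))) *
      (CD.datN p σ u₀ u₁ + CD.angR a p σ u₀ u₁) ^ max (2 / p - 1 / 2) (1 / (2 * p)))

end Pool.Agent.H93.TN
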